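import Pool.Agent.MP_c69980_ag.H43.Spec6

/-!
Boundedness of curves and finiteness of pointed maps: statements.
-/

set_option autoImplicit false

namespace Pool.Agent.MP_c69980_ag.H43

open MvPolynomial H60 Finset Filter Topology Metric

section Defs
variable {t a M : ℕ}

/-- `f = o(τ)` along `U`. -/
def Lo (U : Ultrafilter ℕ) (τ f : ℕ → ℕ) : Prop := ∀ N : ℕ, ∀ᶠ n in U, N * f n ≤ τ n

/-- The poles of `x n` in `T n` have total order `o(τ)`. -/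
def WS {L : ℕ → Type} [∀ n, Field (L n)] [∀ n, Algebra ℂ (L n)] (U : Ultrafilter ℕ) (τ : ℕ → ℕ)
    (T : ∀ n, Set (Pl (L n))) (x : ∀ n, L n) : Prop :=
  ∀ N : ℕ, ∀ᶠ n in U, ∀ s : Finset (Pl (L n)), ↑s ⊆ T n → N * ∑ P ∈ s, lam P (x n) ≤ τ n

variable {L : Type} [Field L] [Algebra ℂ L]

/-- Bad places in the chart `β`. -/
def BadP (κ : KD M t) (β : Cht M t) (y : Fin M → L) (P : Pl L) : Prop :=
  (∀ x, co β y x ∈ P.V) ∧ P.Zero (aeval (co β y) (dh κ.Q : CP M t)) ∧ ∀ f ∈ κ.Jb β,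
    P.Zero (aeval (co β y) f.2) ∨ aeval (co β y) f.1 = 0 ∨ 2 ≤ P.ord (aeval (co β y) f.1)

/-- The function `γ` attached to a curve. -/
structure GFF (w : Fin M → Option (Fin t)) (κ : KD M t) (S : Set (Pl L)) (y : Fin M → L) (γ : L) :
    Prop where
  ne : γ ≠ 0
  eq : ∀ c, (γ * y c) ^ κ.d +
    ∑ i ∈ range κ.d, aeval y (κ.Pc c i) / aeval y κ.Q * (γ * y c) ^ i = 0
  bad : ∀ P ∉ S, (∀ c, γ * y c ∈ P.V) ∨ ∃ β, Ch w β y ∧ BadP κ β y P

end Defs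

section Seq
variable {t a M : ℕ} {L : ℕ → Type} [∀ n, Field (L n)] [∀ n, Algebra ℂ (L n)]

/-- A sequence of curves in `G` whose heights grow fast. -/
structure Sq (w : Fin M → Option (Fin t)) (Θ : Pt t a → Fin M → ℂ) (PP : PT M t a)
    (U : Ultrafilter ℕ) (D : ∀ n, Derivation ℂ (L n) (L n)) (S : ∀ n, Finset (Pl (L n)))
    (m : ∀ n, Pl (L n) → ℤ) (χ : ℕ → ℕ) (y : ∀ n, Fin M → L n) (g : ∀ n, Fin (t + a) → L n) :
    Prop where
  cd : ∀ n, CD (D n) (S n) (m n) (χ n)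
  on : ∀ n, OnG w Θ (y n)
  vel : ∀ n, Vel w PP (D n) (y n) (g n)
  gdeg : ∀ n i, deg (g n i) ≤ χ n ^ 2
  lo : Lo U (fun n => ht (y n)) fun n => χ n ^ 2 + 1

/-- An embedding of the ultraproduct into `ℂ`; `F` consists of elements of small degree. -/
structure UE (Θ : Pt t a → Fin M → ℂ) (k : Subfield ℂ) (U : Ultrafilter ℕ)
    (D : ∀ n, Derivation ℂ (L n) (L n)) (y : ∀ n, Fin M → L n) (g : ∀ n, Fin (t + a) → L n)
    (φ : (∀ n, L n) →+* ℂ) (D' : Der) (p₀ : Pt t a) (l : ℂ) (F : Subfield ℂ) : Prop where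
  ker : ∀ x, φ x = 0 ↔ ∀ᶠ n in U, x n = 0
  cst : ∀ c ∈ k, φ (fun n => algebraMap ℂ (L n) c) = c
  der : ∀ x, D' (φ x) = φ fun n => D n (x n)
  l0 : l ≠ 0
  th : ∀ c, φ (fun n => y n c) = l * Θ p₀ c
  ctx : Ctx Θ k F D' p₀ fun i => φ fun n => g n i
  sm : ∀ c ∈ F, ∃ x, φ x = c ∧ Lo U (fun n => ht (y n)) fun n => deg (x n)

end Seq

def SUlt : Prop := ∀ (t a M : ℕ) (w : Fin M → Option (Fin t)) (Θ : Pt t a → Fin M → ℂ)
  (PP : PT M t a) (k : Subfield ℂ) (L : ℕ → Type) [∀ n, Field (L n)] [∀ n, Algebra ℂ (L n)]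
  (U : Ultrafilter ℕ) D S m χ (y : ∀ n, Fin M → L n) g, GD w Θ PP k → Countable k →
  Sq w Θ PP U D S m χ y g → ∃ φ D' p₀ l F, UE Θ k U D y g φ D' p₀ l F

/-- Elements integral over the rings `LR` have few poles in `S`. -/
def SO2F : Prop := ∀ (t a M : ℕ) (w : Fin M → Option (Fin t)) (Θ : Pt t a → Fin M → ℂ)
  (PP : PT M t a) (k : Subfield ℂ) (L : ℕ → Type) [∀ n, Field (L n)] [∀ n, Algebra ℂ (L n)]
  (U : Ultrafilter ℕ) D S m χ (y : ∀ n, Fin M → L n) g φ D' p₀ l F,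
  Sq w Θ PP U D S m χ y g → UE Θ k U D y g φ D' p₀ l F → ∀ x : ∀ n, L n,
  (∀ β, Ch w β (Θ p₀) → IsIntegral (LR w β F D' (Θ p₀)) (φ x)) →
  WS U (fun n => ht (y n)) (fun n => S n) x

/-- The bad places are negligible. -/
def SFewF : Prop := ∀ (t a M : ℕ) (w : Fin M → Option (Fin t)) (Θ : Pt t a → Fin M → ℂ)
  (PP : PT M t a) (k : Subfield ℂ) (L : ℕ → Type) [∀ n, Field (L n)] [∀ n, Algebra ℂ (L n)]
  (U : Ultrafilter ℕ) D S m χ (y : ∀ n, Fin M → L n) g φ D' p₀ l F (κ : KD M t) (β : Cht M t),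
  Sq w Θ PP U D S m χ y g → UE Θ k U D y g φ D' p₀ l F → κ.Ok k → Ch w β (Θ p₀) →
  Out w κ F D' (Θ p₀) β → WS U (fun n => ht (y n)) (fun n => {P | P ∉ S n ∧ BadP κ β (y n) P})
    fun n => (aeval (co β (y n)) (dh κ.Q : CP M t))⁻¹

/-- The final contradiction, by the product formula. -/
def SFinF : Prop := ∀ (t a M : ℕ) (w : Fin M → Option (Fin t)) (Θ : Pt t a → Fin M → ℂ)
  (PP : PT M t a) (k : Subfield ℂ) (L : ℕ → Type) [∀ n, Field (L n)] [∀ n, Algebra ℂ (L n)]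
  (U : Ultrafilter ℕ) D S m χ (y : ∀ n, Fin M → L n) g (κ : KD M t) (γ : ∀ n, L n),
  Sq w Θ PP U D S m χ y g → κ.Ok k → (∀ n, GFF w κ (S n) (y n) (γ n)) →
  (∀ᶠ n in U, aeval (y n) κ.Q ≠ 0) →
  (∀ c i, WS U (fun n => ht (y n)) (fun n => S n) fun n => aeval (y n) (κ.Pc c i) / aeval (y n) κ.Q) →
  (∀ β : Cht M t, (∀ᶠ n in U, Ch w β (y n)) → WS U (fun n => ht (y n))
    (fun n => {P | P ∉ S n ∧ BadP κ β (y n) P}) fun n => (aeval (co β (y n)) (dh κ.Q : CP M t))⁻¹) →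
  False

/-- The function `γ` for a curve in `U`. -/
def SBadF : Prop := ∀ (t a M n : ℕ) (w : Fin M → Option (Fin t)) (Θ : Pt t a → Fin M → ℂ)
  (PP : PT M t a) (K : Type) [Field K] [Algebra ℂ K] (U : Set (PS n)) (z : Fin n → K)
  (u : Fin M → K) (κ : KD M t) (J : Fin κ.m → Fin (t + a)) (γ : Fin κ.m → Fin (t + a) → K)
  (E : Fin κ.m → Derivation ℂ K K) (γ₀ : K) (b₀ : Fin M) (Q₀ : PR n), Mp w Θ U z u →
  KL w PP U z u κ J γ E γ₀ b₀ Q₀ → ∃ (R : PR n) (e : ℕ), R.IsHomogeneous e ∧ aeval z R ≠ 0 ∧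
    ∀ (r : ℕ) (C : Set (PS r)) (L : Type) [Field L] [Algebra ℂ L] (v : Fin r → L) (pl : C → Pl L)
      (f : C → PS n) (z' : Fin n → L) (y : Fin M → L), Cv C v pl → Set.range f ⊆ U →
      (∀ c, Red (pl c) z' (f c)) → Rel z u z' y → (∀ c, RegG w (pl c) y) → aeval z' R ≠ 0 →
      ∃ γ', GFF w κ (Set.range pl)ᶜ y γ'

/-- Functions of bounded degree are quotients of elements of a finite-dimensional space. -/
def SParam : Prop := ∀ (L : Type) [Field L] [Algebra ℂ L], FFd L → ∀ (P₀ : Pl L) (d : ℕ),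
  ∃ (N : ℕ) (e : Fin N → L), (∀ i, e i ∈ P₀.V) ∧ ∀ x ∈ P₀.V, deg x ≤ d → ∃ a b : Fin N → ℂ,
    ∑ i, a i * P₀.val (e i) ≠ 0 ∧ x * ∑ i, a i • e i = ∑ i, b i • e i

/-- Limits of sequences along an ultrafilter, inside the same field. -/
def STrf : Prop := ∀ (L : Type) [Field L] [Algebra ℂ L] (U : Ultrafilter ℕ) (T : Set L)
  (s : Set ℂ) (κ : Type) [Finite κ] (a : κ → ℕ → ℂ), T.Countable → s.Countable →
  ∃ (k : Subfield ℂ) (O : Subring (ℕ → L)) (Φ : O →+* L) (b : κ → ℂ), Countable k ∧ s ⊆ k ∧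
    (∀ x : O, Φ x = 0 ↔ ∀ᶠ n in U, x.1 n = 0) ∧ (∀ x ∈ O, (fun n => (x n)⁻¹) ∈ O) ∧
    (∀ x ∈ T, ∃ h, Φ ⟨fun _ => x, h⟩ = x) ∧
    (∀ c ∈ k, ∃ h, Φ ⟨fun _ => algebraMap ℂ L c, h⟩ = algebraMap ℂ L c) ∧
    ∀ i, ∃ h, Φ ⟨fun n => algebraMap ℂ L (a i n), h⟩ = algebraMap ℂ L (b i)

/-- Derivations of the constants act on the function field. -/
def SDerL : Prop := ∀ (L : Type) [Field L] [Algebra ℂ L] (D : Derivation ℂ L L) S m χ,
  CD D S m χ → ∀ T : Set L, T.Countable → ∃ s : Set ℂ, s.Countable ∧ ∀ d : Der, (∀ c ∈ s, d c = 0) →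
    ∃ δ : Derivation ℤ L L, (∀ c, δ (algebraMap ℂ L c) = algebraMap ℂ L (d c)) ∧
      (∀ x ∈ T, δ x = 0) ∧ ∀ x, δ (D x) = D (δ x)

/-- Rigidity of pointed curves of bounded height in `G`. -/
def SRigF : Prop := ∀ (t a M : ℕ) (w : Fin M → Option (Fin t)) (Θ : Pt t a → Fin M → ℂ)
  (PP : PT M t a) (L : Type) [Field L] [Algebra ℂ L] (S : Finset (Pl L)) (P₀ : Pl L) (d : ℕ)
  (y : ℕ → Fin M → L) (x : PS M), GK w Θ PP → FFd L → P₀ ∉ S → (∀ j, OnG w Θ (y j)) →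
  (∀ j, ∀ P ∉ S, RegG w P (y j)) → (∀ j, ht (y j) ≤ d) → (∀ j, Red P₀ (y j) x) →
  ∃ j j', j ≠ j' ∧ ∃ l : L, y j = l • y j'

/-- Reduction of the finiteness of pointed maps to smooth curves. -/
def SRedC : Prop := ∀ (n r : ℕ) (Y : Set (PS r)) (y : Y) (f : ℕ → Y → PS n), IsVar Y →
  (∀ j, H4.IsMor (f j)) → Function.Injective f → (∀ j j', f j y = f j' y) →
  ∃ (r' : ℕ) (C : Set (PS r')) (L : Type) (_ : Field L) (_ : Algebra ℂ L) (v : Fin r' → L)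
    (ι : C → Y) (c : C), Sm1 C v ∧ ι c = y ∧ (∀ j, H4.IsMor (f j ∘ ι)) ∧
    Function.Injective fun j => f j ∘ ι

/-- The core of the proof that condition 4 implies condition 5. -/
def SCoreF : Prop := ∀ (t a M : ℕ) (w : Fin M → Option (Fin t)) (Θ : Pt t a → Fin M → ℂ)
  (PP : PT M t a) (k : Subfield ℂ) (κ : KD M t) (Y : Set (PR M)) (L : ℕ → Type) [∀ n, Field (L n)]
  [∀ n, Algebra ℂ (L n)] (U : Ultrafilter ℕ) D S m χ (y : ∀ n, Fin M → L n) g (γ : ∀ n, L n),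
  GD w Θ PP k → Countable k → κ.Ok k → (∀ p₀, Gen k Y (Θ p₀) → ∃ J γ E, KDat w Θ k κ p₀ J γ E) →
  Sq w Θ PP U D S m χ y g → (∀ n, GFF w κ (S n) (y n) (γ n)) →
  (∀ (F : PR M) (d : ℕ), F.IsHomogeneous d → Cf k F →
    (F ∈ Y → ∀ n, aeval (y n) F = 0) ∧ (F ∉ Y → ∀ᶠ n in U, aeval (y n) F ≠ 0)) → False

/-- Condition 4 implies condition 5. -/
def SA1 : Prop := ∀ (t a M n : ℕ) (w : Fin M → Option (Fin t)) (Θ : Pt t a → Fin M → ℂ)
  (PP : PT M t a) (K : Type) [Field K] [Algebra ℂ K] (U : Set (PS n)) (z : Fin n → K)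
  (u : Fin M → K), Ev (GD w Θ PP) → GK w Θ PP → Mp w Θ U z u → LogGT U z → H4.PseudoBdd U

/-- Condition 5 implies condition 3. -/
def SA2 : Prop := ∀ (t a M n : ℕ) (w : Fin M → Option (Fin t)) (Θ : Pt t a → Fin M → ℂ)
  (PP : PT M t a) (K : Type) [Field K] [Algebra ℂ K] (U : Set (PS n)) (z : Fin n → K)
  (u : Fin M → K), GK w Θ PP → Mp w Θ U z u → H4.PseudoBdd U → PseudoFin U

theorem sCoreF (h1 : SUlt) (h2 : SAlgp) (h3 : SO2F) (h4 : SFewF) (h5 : SFinF) : SCoreF := by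
  intro t a M w Θ PP k κ Y L _ _ U D S m χ y g γ g2 k0 hκ hK sq gf a6
  obtain ⟨φ, D', p₀, l, F, hE⟩ := h1 _ _ _ w Θ PP k L U D S m χ y g g2 k0 sq
  have ev : ∀ (A : PR M) (d : ℕ), A.IsHomogeneous d → Cf k A →
      φ (fun n => aeval (y n) A) = l ^ d * eval (Θ p₀) A := fun A d hd h => by
    obtain ⟨A', rfl⟩ := cf_iff.1 h
    rw [← eval_smul_hom hd, show l • Θ p₀ = fun c => φ fun n => y n c from funext fun c =>
      (hE.th c).symm]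
    clear hd h
    induction A' using MvPolynomial.induction_on with
    | C c => simpa using hE.cst c c.2
    | add p q hp hq => simp only [map_add, ← hp, ← hq]; exact φ.map_add _ _
    | mul_X p i hp =>
      simp only [map_mul, map_X, aeval_X, eval_X, ← hp]; exact φ.map_mul _ _
  obtain ⟨J, γ', E, hD⟩ := hK p₀ fun A d hd h => by
    rw [← mul_eq_zero_iff_left (pow_ne_zero d hE.l0), ← ev A d hd h, hE.ker]
    refine ⟨fun hP => by_contra fun hY => ?_, fun hY => Eventually.of_forall ((a6 A d hd h).1 hY)⟩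
    obtain ⟨n, b1, b2⟩ := (hP.and ((a6 A d hd h).2 hY)).exists
    exact b2 b1
  have out := h2 _ _ _ w Θ PP k _ D' p₀ _ κ J γ' E g2 hE.ctx hκ hD
  have q1 : φ (fun n => aeval (y n) κ.Q) ≠ 0 := by
    rw [ev _ _ hκ.hQ hκ.cQ]; exact mul_ne_zero (pow_ne_zero _ hE.l0) hD.Qn
  have q0 : ∀ᶠ n in U, aeval (y n) κ.Q ≠ 0 := by
    rw [Ne, hE.ker] at q1; exact Ultrafilter.eventually_not.2 q1
  refine h5 _ _ _ w Θ PP k L U D S m χ y g κ γ sq hκ gf q0 (fun c i => ?_) fun β hβ => ?_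
  · refine h3 _ _ _ w Θ PP k L U D S m χ y g φ D' p₀ l F sq hE _ fun β hβ => ?_
    have : φ (fun n => aeval (y n) (κ.Pc c i) / aeval (y n) κ.Q) =
        eval (Θ p₀) (κ.Pc c i) / eval (Θ p₀) κ.Q := by
      rw [← mul_div_mul_left _ _ (pow_ne_zero κ.e hE.l0), ← ev _ _ hκ.hQ hκ.cQ,
        ← ev _ _ (hκ.hP c i) (hκ.cP c i), eq_div_iff q1, ← map_mul, ← sub_eq_zero, ← map_sub,
        hE.ker]
      exact q0.mono fun n hn => by simp [div_mul_cancel₀ _ hn]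
    rw [this]
    exact (out β hβ).o2 c i
  · have hβ' : Ch w β (Θ p₀) := fun o => ⟨(hβ.exists.choose_spec o).1, fun e => by
      have := (hE.ker _).1 ((hE.th (β o)).trans (by rw [e, mul_zero]))
      obtain ⟨n, b1, b2⟩ := (this.and hβ).exists
      exact (b2 o).2 b1⟩
    exact h4 _ _ _ w Θ PP k L U D S m χ y g φ D' p₀ l F κ β sq hE hκ hβ' (out β hβ')

end Pool.Agent.MP_c69980_ag.H43
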