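import Pool.Agent.MP_f3836a_nt.PK.PlA
import Pool.Agent.MP_f3836a_nt.PK.PlB
import Pool.Agent.MP_f3836a_nt.PK.Deg
import Pool.Agent.MP_f3836a_nt.PK.LE
import Pool.Agent.MP_f3836a_nt.PK.Ord

/-!
Places, pole orders and degrees in complex function fields of one variable.
-/

set_option autoImplicit false

namespace Pool.Agent.MP_c69980_ag.H43

open Pool.Agent.MP_f3836a_nt.PK IntermediateField Finset

/-- Places. -/
abbrev Pl (L : Type) [Field L] [Algebra ℂ L] : Type := Place ℂ L

/-- A function field of one variable, with the properties of its places. -/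
structure FFd (L : Type) [Field L] [Algebra ℂ L] : Prop where
  ff : IsFF ℂ L
  a : PlA ℂ L
  b : PlB ℂ L

variable {L : Type} [Field L] [Algebra ℂ L]

open PlB in
theorem ffd_of (hF : IsFF ℂ L) : FFd L := by
  have hA := rPlA rOrdD ℂ L hF
  have key : ∀ T : L, Transcendental ℂ T → {P : Place ℂ L | 0 < P.ord T}.Finite ∧
      ∑ᶠ P : Place ℂ L, max (P.ord T) 0 = (Module.finrank (adjoin ℂ {T}) L : ℤ) := fun T hT => by
    have := fd_of hF T hT
    have : CharZero (adjoin ℂ {T}) := charZero_of_injective_algebraMap (algebraMap ℂ _).injective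
    exact rDeg ℂ L hA T hT inferInstance inferInstance
  refine ⟨hF, hA, fun f => ?_, fun T hT => fd_of hF T hT, fun T hT => (key T hT).2, fun f => ?_,
    fun f hf => ?_⟩
  · rcases const_or (k := ℂ) f with ⟨a, rfl⟩ | hf
    · simp [hA.con]
    · refine ((key f hf).1.union (key f⁻¹ (tr_inv hf)).1).subset fun P hP => ?_
      have hP' : P.ord f ≠ 0 := hP
      simp only [Set.mem_union, Set.mem_ofPred_eq, ord_inv hA P f (tr_ne hf)]
      omega
  · rcases const_or (k := ℂ) f with ⟨a, rfl⟩ | hf
    · simp [hA.con]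
    · obtain ⟨h1, h2⟩ := key f hf
      obtain ⟨h3, h4⟩ := key f⁻¹ (tr_inv hf)
      rw [adjoin_inv, ← h2] at h4
      have e : ∀ P : Place ℂ L, P.ord f = max (P.ord f) 0 - max (P.ord f⁻¹) 0 := fun P => by
        rw [ord_inv hA P f (tr_ne hf)]
        omega
      rw [finsum_congr e, finsum_sub_distrib (supp_fin h1) (supp_fin h3), h4, sub_self]
  · rcases const_or (k := ℂ) f with h | hT
    · exact h
    · exfalso
      obtain ⟨-, h4⟩ := key f⁻¹ (tr_inv hT)
      have hfd := fd_of hF f⁻¹ (tr_inv hT)
      have hpos : 0 < Module.finrank (adjoin ℂ {f⁻¹}) L := Module.finrank_pos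
      have e : ∀ P : Place ℂ L, max (P.ord f⁻¹) 0 = 0 := fun P => by
        have := (hA.mem P f (tr_ne hT)).mp (hf P)
        rw [ord_inv hA P f (tr_ne hT)]
        omega
      rw [finsum_congr e, finsum_zero] at h4
      omega

/-- The pole order. -/
noncomputable def lam (P : Pl L) (x : L) : ℕ := (-P.ord x).toNat

/-- The degree of a function. -/
noncomputable def deg (x : L) : ℕ := ∑ᶠ P : Pl L, lam P x

/-- The height of a point of projective space. -/
noncomputable def ht {N : ℕ} (y : Fin N → L) : ℕ := ∑ c, ∑ b, deg (y c / y b)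

lemma lam_zero (P : Pl L) : lam P 0 = 0 := by simp [lam, PlB.ord_zero]

namespace FFd

variable (h : FFd L) (P : Pl L) (x y : L)
include h

lemma ord_inv : P.ord x⁻¹ = -P.ord x := by
  by_cases e : x = 0
  · simp [e, PlB.ord_zero]
  · exact PlB.ord_inv h.a P x e

lemma ord_neg : P.ord (-x) = P.ord x := by
  by_cases e : x = 0
  · simp [e]
  · have := h.a.mul P (algebraMap ℂ L (-1)) x (by simp) e
    rw [h.a.con, zero_add] at this
    simpa using this

lemma lam_eq_zero : lam P x = 0 ↔ x ∈ P.V := by
  by_cases e : x = 0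
  · simp [e, lam_zero]
  · rw [h.a.mem P x e, lam]; omega

lemma lam_mul : lam P (x * y) ≤ lam P x + lam P y := by
  by_cases e : x = 0
  · simp [e, lam_zero]
  by_cases e' : y = 0
  · simp [e', lam_zero]
  simp only [lam, h.a.mul P x y e e']; omega

lemma lam_add : lam P (x + y) ≤ max (lam P x) (lam P y) := by
  by_cases e : x = 0
  · simp [e]
  by_cases e' : y = 0
  · simp [e']
  by_cases e'' : x + y = 0
  · simp [e'', lam_zero]
  have := h.a.add P x y e e' e''
  simp only [lam]; omega

lemma lam_neg : lam P (-x) = lam P x := by simp only [lam, h.ord_neg]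

lemma lam_const (c : ℂ) : lam P (algebraMap ℂ L c) = 0 := by simp [lam, h.a.con]

lemma lam_fin : (Function.support fun P : Pl L => lam P x).Finite :=
  (h.b.fin x).subset fun P hP e => hP (by simp [lam, e])

lemma sum_le_deg (T : Finset (Pl L)) : ∑ P ∈ T, lam P x ≤ deg x := by
  classical
  rw [deg, finsum_eq_sum_of_support_subset (s := T ∪ (h.lam_fin x).toFinset) _ (by simp)]
  exact sum_le_sum_of_subset subset_union_left

lemma deg_le {N : ℕ} (H : ∀ T : Finset (Pl L), ∑ P ∈ T, lam P x ≤ N) : deg x ≤ N := by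
  rw [deg, finsum_eq_sum _ (h.lam_fin x)]; exact H _

lemma deg_mul : deg (x * y) ≤ deg x + deg y := h.deg_le _ fun T =>
  (sum_le_sum fun P _ => h.lam_mul P x y).trans (by
    rw [sum_add_distrib]; exact add_le_add (h.sum_le_deg x T) (h.sum_le_deg y T))

lemma deg_add : deg (x + y) ≤ deg x + deg y := h.deg_le _ fun T =>
  (sum_le_sum fun P _ => (h.lam_add P x y).trans (max_le (Nat.le_add_right _ _) (Nat.le_add_left _ _))).trans (by
    rw [sum_add_distrib]; exact add_le_add (h.sum_le_deg x T) (h.sum_le_deg y T))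

lemma deg_neg : deg (-x) = deg x := by simp only [deg, h.lam_neg]

lemma deg_const (c : ℂ) : deg (algebraMap ℂ L c) = 0 := by simp [deg, h.lam_const]

/-- The product formula. -/
lemma deg_inv : deg x⁻¹ = deg x := by
  classical
  have s := h.b.sum x
  set T := (h.b.fin x).toFinset
  rw [finsum_eq_sum_of_support_subset (s := T) _ (by simp [T, Function.support])] at s
  have e : ∀ y : L, (∀ P : Pl L, P.ord x = 0 → P.ord y = 0) → deg y = ∑ P ∈ T, lam P y :=
    fun y hy => finsum_eq_sum_of_support_subset _ fun P hP => by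
      simpa [T] using fun e => hP (by simp [lam, hy P e])
  rw [e x fun _ a => a, e x⁻¹ fun P a => by rw [h.ord_inv, a, neg_zero]]
  zify
  rw [← sub_eq_zero, ← sum_sub_distrib, ← s]
  exact sum_congr rfl fun P _ => by simp only [lam, h.ord_inv]; omega

lemma deg_div : deg (x / y) ≤ deg x + deg y := by
  rw [div_eq_mul_inv, ← h.deg_inv y]; exact h.deg_mul _ _

lemma deg_eq_zero (H : deg x = 0) : ∃ c : ℂ, x = algebraMap ℂ L c :=
  h.b.const x fun P => (h.lam_eq_zero P x).1 (by simpa [H] using h.sum_le_deg x {P})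

end FFd

lemma deg_le_ht {N : ℕ} (y : Fin N → L) (c b : Fin N) : deg (y c / y b) ≤ ht y :=
  (single_le_sum (f := fun b => deg (y c / y b)) (fun _ _ => Nat.zero_le _) (mem_univ b)).trans
    (single_le_sum (f := fun c => ∑ b, deg (y c / y b)) (fun _ _ => Nat.zero_le _) (mem_univ c))

end Pool.Agent.MP_c69980_ag.H43
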