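import Pool.Agent.MP_c69980_ag.H4.DefsB

/-!
Finiteness of pointed maps; compactifications with simple normal crossings boundary.
-/

set_option autoImplicit false

namespace Pool.Agent.MP_c69980_ag.H43

open MvPolynomial H60 H4

variable {n : ℕ}

/-- Condition 3: finitely many pointed morphisms from each quasi-projective variety. -/
def PseudoFin (U : Set (PS n)) : Prop :=
  ∃ Δ, IsZClosed Δ ∧ ¬ U ⊆ Δ ∧ ∀ (m : ℕ) (Y : Set (PS m)), IsVar Y → ∀ y : Y, ∀ x ∈ U \ Δ,
    {f : Y → PS n | IsMor f ∧ Set.range f ⊆ U ∧ f y = x}.Finite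

/-- The resolution and compactification in the definition of log-general type: `W` is a smooth
projective variety with the function field of `U`, and `π` is the birational morphism from `W` to
the closure of `U`; the boundary `{x | π x ∉ U}` has simple normal crossings. -/
def Snc {K : Type} [Field K] [Algebra ℂ K] (U : Set (PS n)) (z : Fin n → K) : Prop :=
  ∃ (n' : ℕ) (W : Set (PS n')) (z' : Fin n' → K) (π : PS n' → PS n) (k : ℕ),
    IsZClosed W ∧ GenPt W z' ∧ Algebra.trdeg ℂ K = k ∧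
    ∀ x ∈ W, IsRegularLocalRing (locRing z' x) ∧ π x ∈ zcl U ∧
      (∀ u ∈ locRing z (π x), u ∈ locRing z' x ∧ (u⁻¹ ∈ locRing z' x → u⁻¹ ∈ locRing z (π x))) ∧
      ∃ (t : Fin k → locRing z' x) (r : Finset (Fin k)) (g : MvPolynomial (Fin n') ℂ) (d : ℕ),
        (Ideal.span (Set.range t)).IsMaximal ∧ (∀ i, t i ≠ 0) ∧ g.IsHomogeneous d ∧
        eval x.rep g ≠ 0 ∧
        ∀ y ∈ W, eval y.rep g ≠ 0 → (∀ i, (t i : K) ∈ locRing z' y) ∧
          (π y ∈ U ↔ (∏ i ∈ r, (t i : K))⁻¹ ∈ locRing z' y)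

end Pool.Agent.MP_c69980_ag.H43
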