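import Pool.Agent.MP_c69980_ag.H43.Spec3

/-!
The differential ring attached to a sequence of holomorphic discs in a semi-abelian variety.
-/

set_option autoImplicit false

namespace Pool.Agent.MP_c69980_ag.H43

open MvPolynomial H60 Finset Filter Topology Metric Real

variable {t a M : ℕ}

/-- The analytic package. -/
structure AP (w : Fin M → Option (Fin t)) (Θ : Pt t a → Fin M → ℂ) (k : Subfield ℂ) where
  U : Ultrafilter ℕ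
  R : ℕ → ℝ
  r : ℕ → ℝ
  η : ℕ → ℝ
  τ : ℕ → ℝ
  L : ℕ → ℝ
  p : ℕ → ℂ → Pt t a
  V : Subring (ℕ → ℂ → ℂ)
  P : Ideal V
  cnt : Countable V
  hp : ∀ n, DifferentiableOn ℂ (p n) (ball 0 (R n))
  hol : ∀ x ∈ V, ∀ n, Hol (R n) (x n)
  ddV : ∀ x ∈ V, dd R x ∈ V
  prime : P.IsPrime
  dP : ∀ x : V, x ∈ P → (⟨dd R x, ddV x x.2⟩ : V) ∈ P
  cV : ∀ c ∈ k, (fun _ _ => c) ∈ V
  θV : ∀ c, (fun n z => Θ (p n z) c) ∈ V
  gV : ∀ i, dd R (fun n z => p n z i) ∈ V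
  τtop : Tendsto τ U atTop
  num : ∀ n, 1 ≤ r n ∧ 0 < η n ∧ η n ≤ 1 ∧ r n + η n < R n ∧ 1 ≤ τ n
  poly : ∃ b : ℕ, ∀ᶠ n in U, r n ≤ τ n ^ b ∧ 1 ≤ η n * τ n ^ b
  Lsm : ∀ ε : ℝ, 0 < ε → ∀ᶠ n in U, L n ≤ ε * τ n
  up : ∀ x ∈ V, ∃ b : ℕ, ∀ᶠ n in U, ∀ z, ‖z‖ ≤ r n + η n → ‖x n z‖ ≤ exp (τ n ^ b)
  up1 : ∀ x ∈ V, ∀ ε : ℝ, 0 < ε → ∀ᶠ n in U, ∀ z, ‖z‖ ≤ 1 → ‖x n z‖ ≤ exp (ε * τ n)
  tiny : ∀ x : V, x ∈ P → ∀ K : ℕ, ∀ᶠ n in U, ∀ z, ‖z‖ ≤ r n + η n → ‖x.1 n z‖ ≤ exp (-τ n ^ K)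
  big : ∀ x : V, x ∉ P → ∀ ε : ℝ, 0 < ε → ∀ᶠ n in U, NZ (R n) (x.1 n) ∧ -(ε * τ n) ≤ av (x.1 n) 1
  ann : ∀ x : V, x ∉ P → ∃ b : ℕ, ∀ᶠ n in U, ∀ z, |‖z‖ - r n| < (τ n ^ b)⁻¹ → x.1 n z ≠ 0
  const : ∀ x y : V, y ∉ P → ⟨dd R x, ddV x x.2⟩ * y - x * ⟨dd R y, ddV y y.2⟩ ∈ P →
    ∃ c : V, Sm U r τ (fun n z => ‖c.1 n z‖) ∧ dd R c = 0 ∧ x - c * y ∈ P
  gsm : ∀ i, Sm U r τ fun n z => ‖dd R (fun n z => p n z i) n z‖
  lo : ∃ ε : ℝ, 0 < ε ∧ ∀ᶠ n in U, CircleIntegrable (fun z => log ‖Θ (p n z)‖) 0 (r n) ∧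
    ε * τ n ≤ circleAverage (fun z => log ‖Θ (p n z)‖) 0 (r n)
  hi : ∃ C : ℝ, 0 ≤ C ∧ ∀ᶠ n in U, CircleIntegrable (fun z => log⁺ ‖Θ (p n z)‖) 0 (r n) ∧
    circleAverage (fun z => log⁺ ‖Θ (p n z)‖) 0 (r n) ≤ C * τ n
  low : ∃ b : ℕ, ∀ᶠ n in U, ∀ z, ‖z‖ ≤ r n + η n → ∀ o, ∃ c, w c = o ∧
    exp (-τ n ^ b) ≤ ‖Θ (p n z) c‖

namespace AP

variable {w : Fin M → Option (Fin t)} {Θ : Pt t a → Fin M → ℂ} {k : Subfield ℂ} (A : AP w Θ k)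

lemma r0 (n : ℕ) : 0 < A.r n := by linarith [(A.num n).1]

lemma rR (n : ℕ) : A.r n < A.R n := by linarith [(A.num n).2.1, (A.num n).2.2.2.1]

/-- The derivation. -/
noncomputable def D : A.V →+ A.V where
  toFun x := ⟨dd A.R x, A.ddV x x.2⟩
  map_zero' := by ext n z; simp [dd]
  map_add' x y := by
    ext n z
    by_cases h : z ∈ ball (0 : ℂ) (A.R n)
    · simp only [Subring.coe_add, Pi.add_apply, dd_in _ h]
      exact deriv_add ((A.hol _ x.2 n).differentiableAt (isOpen_ball.mem_nhds h))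
        ((A.hol _ y.2 n).differentiableAt (isOpen_ball.mem_nhds h))
    · simp [dd_out _ h]

lemma D_coe (x : A.V) : (A.D x : ℕ → ℂ → ℂ) = dd A.R x := rfl

lemma D_iter (x : A.V) (j : ℕ) : (A.D^[j] x : ℕ → ℂ → ℂ) = (dd A.R)^[j] x := by
  induction j with
  | zero => rfl
  | succ j ih => rw [Function.iterate_succ_apply', Function.iterate_succ_apply', D_coe, ih]

lemma leib : Leib A.D := by
  intro x y
  ext n z
  by_cases h : z ∈ ball (0 : ℂ) (A.R n)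
  · simp only [D_coe, Subring.coe_add, Subring.coe_mul, Pi.add_apply, Pi.mul_apply, dd_in _ h]
    exact deriv_mul ((A.hol _ x.2 n).differentiableAt (isOpen_ball.mem_nhds h))
      ((A.hol _ y.2 n).differentiableAt (isOpen_ball.mem_nhds h))
  · simp [D_coe, dd_out _ h]

lemma DP {x : A.V} (h : x ∈ A.P) : A.D x ∈ A.P := A.dP x h

/-- The constants. -/
noncomputable def ι : k →+* A.V :=
  ((Pi.constRingHom ℕ (ℂ → ℂ)).comp ((Pi.constRingHom ℂ ℂ).comp k.subtype)).codRestrict A.V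
    fun c => A.cV c c.2

lemma ι_apply (c : k) (n : ℕ) (z : ℂ) : (A.ι c).1 n z = c := rfl

lemma D_ι (c : k) : A.D (A.ι c) = 0 := by
  ext n z
  simp [D_coe, dd, show (A.ι c).1 n = fun _ => (c : ℂ) from rfl]

/-- The homogeneous coordinates along the discs. -/
def θ (c : Fin M) : A.V := ⟨_, A.θV c⟩

/-- The velocity. -/
noncomputable def gg (i : Fin (t + a)) : A.V := ⟨_, A.gV i⟩

/-- The product of the coordinates of a chart. -/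
noncomputable def ch (β : Cht M t) : A.V := ∏ o, A.θ (β o)

/-- Evaluation at a point. -/
def evp (n : ℕ) (z : ℂ) : A.V →+* ℂ :=
  (Pi.evalRingHom _ z).comp ((Pi.evalRingHom _ n).comp A.V.subtype)

lemma evp_apply (n : ℕ) (z : ℂ) (x : A.V) : A.evp n z x = x.1 n z := rfl

lemma ch_apply (β : Cht M t) (n : ℕ) (z : ℂ) : (A.ch β).1 n z = ∏ o, Θ (A.p n z) (β o) :=
  map_prod (A.evp n z) (fun o => A.θ (β o)) univ

lemma eval₂_apply {κ : Type} (v : κ → A.V) (F : MvPolynomial κ k) (n : ℕ) (z : ℂ) :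
    (eval₂Hom A.ι v F).1 n z = eval (fun i => (v i).1 n z) (map k.subtype F) := by
  rw [← evp_apply, map_eval₂Hom, eval_map]; rfl

lemma eval₂_θ (F : MvPolynomial (Fin M) k) (n : ℕ) (z : ℂ) :
    (eval₂Hom A.ι A.θ F).1 n z = eval (Θ (A.p n z)) (map k.subtype F) := by
  have : (fun i => (A.θ i).1 n z) = Θ (A.p n z) := rfl
  rw [A.eval₂_apply, this]

lemma fe_ex {F : PR M} (h : Cf k F) : ∃ x : A.V, (∀ n z, x.1 n z = eval (Θ (A.p n z)) F) ∧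
    ∀ φ : A.V →+* ℂ, (∀ c : k, φ (A.ι c) = c) → φ x = eval (fun c => φ (A.θ c)) F := by
  obtain ⟨F', rfl⟩ := cf_iff.1 h
  refine ⟨eval₂Hom A.ι A.θ F', A.eval₂_θ F', fun φ hφ => ?_⟩
  rw [map_eval₂Hom, eval_map, show φ.comp A.ι = k.subtype from RingHom.ext hφ]
  rfl

/-- A polynomial in the homogeneous coordinates, along the discs. -/
noncomputable def fe (F : PR M) (h : Cf k F) : A.V := (A.fe_ex h).choose

lemma fe_apply (F : PR M) (h : Cf k F) (n : ℕ) (z : ℂ) :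
    (A.fe F h).1 n z = eval (Θ (A.p n z)) F := (A.fe_ex h).choose_spec.1 n z

lemma fe_fun (F : PR M) (h : Cf k F) (n : ℕ) :
    (A.fe F h).1 n = fun z => eval (Θ (A.p n z)) F := funext (A.fe_apply F h n)

lemma map_fe (φ : A.V →+* ℂ) (hφ : ∀ c : k, φ (A.ι c) = c) (F : PR M) (h : Cf k F) :
    φ (A.fe F h) = eval (fun c => φ (A.θ c)) F := (A.fe_ex h).choose_spec.2 φ hφ

lemma cont (x : A.V) (n : ℕ) : ContinuousOn (fun z => ‖x.1 n z‖) (sphere 0 |A.r n|) :=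
  ((A.hol _ x.2 n).continuousOn.mono (sph_sub (A.r0 n) (A.rR n))).norm

lemma sm_bd (x : A.V) {c : ℝ} (hc : 0 ≤ c) (h : ∀ᶠ n in A.U, ∀ z, ‖z‖ = A.r n → ‖x.1 n z‖ ≤ c) :
    Sm A.U A.r A.τ fun n z => ‖x.1 n z‖ :=
  Sm.of_le (t := fun _ => 1) (fun ε hε => (A.τtop.eventually_ge_atTop (1 / ε)).mono fun n hn => by
      rwa [div_le_iff₀' hε] at hn) hc (fun _ => zero_le_one)
    (h.mono fun n hn => ⟨A.cont x n, fun z hz => by
      rw [abs_norm]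
      exact (hn z (by simpa [abs_of_pos (A.r0 n)] using hz)).trans
        (by linarith [add_one_le_exp (c * 1)])⟩)

/-- The subring of small elements. -/
def S : Subring A.V where
  carrier := {x | Sm A.U A.r A.τ fun n z => ‖x.1 n z‖}
  mul_mem' := fun {x y} a b => (Sm.mul A.τtop a b).mono (Eventually.of_forall (A.cont _))
    fun n z => le_of_eq (congrArg _ (norm_mul _ _))
  one_mem' := A.sm_bd 1 zero_le_one (Eventually.of_forall fun _ _ _ => by simp)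
  add_mem' := fun {x y} a b => (Sm.add A.τtop a b).mono (Eventually.of_forall (A.cont _))
    fun n z => posLog_le_posLog (norm_nonneg _) (norm_add_le _ _)
  zero_mem' := A.sm_bd 0 le_rfl (Eventually.of_forall fun _ _ _ => by simp)
  neg_mem' := fun {x} a => by simpa using a

lemma mem_S {x : A.V} : x ∈ A.S ↔ Sm A.U A.r A.τ fun n z => ‖x.1 n z‖ := Iff.rfl

lemma ι_S (c : k) : A.ι c ∈ A.S :=
  A.sm_bd _ (norm_nonneg (c : ℂ)) (Eventually.of_forall fun _ _ _ => le_rfl)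

lemma PS {x : A.V} (h : x ∈ A.P) : x ∈ A.S :=
  A.sm_bd x zero_le_one ((A.tiny x h 0).mono fun n hn z hz =>
    (hn z (by linarith [(A.num n).2.1])).trans (exp_le_one_iff.2 (by simp)))

/-- The field of small elements. -/
noncomputable def KK (φ : A.V →+* ℂ) : Subfield ℂ := Subfield.closure (φ '' A.S)

/-- Minimum modulus on the circle, and the lemma on the logarithmic derivative. -/
structure Ml : Prop where
  min : ∀ x : A.V, x ∉ A.P → ∃ b : ℕ, ∀ᶠ n in A.U, ∀ z, ‖z‖ = A.r n →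
    exp (-A.τ n ^ b) ≤ ‖x.1 n z‖
  lld : ∀ x : A.V, x ∉ A.P → Sm A.U A.r A.τ fun n z => ‖(A.D x).1 n z / x.1 n z‖
  dS : ∀ x ∈ A.S, A.D x ∈ A.S

/-- An embedding of the residue differential field into `ℂ`. -/
structure Emb (φ : A.V →+* ℂ) (D : Der) (p₀ : Pt t a) (l : ℂ) : Prop where
  ker : ∀ x, φ x = 0 ↔ x ∈ A.P
  cst : ∀ c : k, φ (A.ι c) = c
  der : ∀ x, D (φ x) = φ (A.D x)
  l0 : l ≠ 0
  th : ∀ c, φ (A.θ c) = l * Θ p₀ c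

/-- Bad points in the chart `β`. -/
def Bd (κ : KD M t) (β : Cht M t) (n : ℕ) (ζ : ℂ) : Prop :=
  Ch w β (Θ (A.p n ζ)) ∧ eval (Θ (A.p n ζ)) κ.Q = 0 ∧ ∀ f ∈ κ.Jb β,
    eval (co β (Θ (A.p n ζ))) f.2 = 0 ∨ (eval (co β (Θ (A.p n ζ))) f.1 = 0 ∧
      deriv (fun s => eval (co β (Θ (A.p n s))) f.1) ζ = 0)

/-- The algebraic identities, after clearing denominators. -/
structure Clr (u q : A.V) (B : ℕ → ℂ → Prop) : Prop where
  c1 : ∃ (h N : ℕ) (x : A.V) (c : ℕ → A.V), x ∈ A.S ∧ x ∉ A.P ∧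
    x * u ^ N - ∑ j ∈ range h, c j * A.D^[j] q ∈ A.P
  c3 : ∃ C : ℝ, ∀ lam : ℕ, ∃ (m l N : ℕ) (Φ : A.V), Φ ∉ A.P ∧ 0 < l ∧ lam * m ≤ l ∧
    (∀ ε : ℝ, 0 < ε → ∀ᶠ n in A.U, av (Φ.1 n) (A.r n) ≤ (C * m + ε) * A.τ n) ∧
    ∀ j < l, ∀ K : ℕ, ∀ᶠ n in A.U, ∀ ζ, ‖ζ‖ ≤ A.r n → B n ζ →
      ‖u.1 n ζ ^ N * iteratedDeriv j (Φ.1 n) ζ‖ ≤ exp (-A.τ n ^ K)

/-- The zeros of `q` at points of `B` where `u` is not too small are negligible. -/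
def Few (u q : A.V) (B : ℕ → ℂ → Prop) : Prop :=
  ∀ (b : ℕ) (ε : ℝ), 0 < ε → ∀ᶠ n in A.U, ∀ (N : ℕ) (c : Fin N → ℂ) (g : ℂ → ℂ), Hol (A.R n) g →
    (∀ z, q.1 n z = (∏ i, (z - c i)) * g z) → (∀ z, ‖z‖ ≤ A.r n + A.η n / 2 → g z ≠ 0) →
    ∀ s : Finset (Fin N), (∀ i ∈ s, ‖c i‖ ≤ A.r n ∧ B n (c i) ∧ exp (-A.τ n ^ b) ≤ ‖u.1 n (c i)‖) →
      ∑ i ∈ s, (log (A.r n) - log (max 1 ‖c i‖)) ≤ ε * A.τ n

end AP

end Pool.Agent.MP_c69980_ag.H43
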