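import Pool.Agent.MP_c69980_ag.H43.Defs
import Pool.Agent.MP_c69980_ag.H60.Kob2

/-!
Basic vocabulary: charts, coefficient fields, derivations of `ℂ`, independence.
-/

set_option autoImplicit false

namespace Pool.Agent.MP_c69980_ag.H43

open MvPolynomial H60 Finset

/-- The universal cover; the first `t` coordinates are the torus directions. -/
abbrev Pt (t a : ℕ) : Type := Fin (t + a) → ℂ

/-- Indices of chart coordinates. -/
abbrev CI (M t : ℕ) : Type := Fin M × Option (Fin t)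

/-- Polynomials in chart coordinates. -/
abbrev CP (M t : ℕ) : Type := MvPolynomial (CI M t) ℂ

/-- Charts: one coordinate for each block. -/
abbrev Cht (M t : ℕ) : Type := Option (Fin t) → Fin M

/-- Invariant vector fields in every chart. -/
abbrev PT (M t a : ℕ) : Type := Cht M t → Fin (t + a) → CI M t → CP M t

/-- Derivations of the abstract field `ℂ`. -/
abbrev Der : Type := Derivation ℚ ℂ ℂ

variable {t a M : ℕ}

section Charts
variable {A : Type} [Field A]

/-- The chart `β` is valid at `y`. -/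
def Ch (w : Fin M → Option (Fin t)) (β : Cht M t) (y : Fin M → A) : Prop :=
  ∀ o, w (β o) = o ∧ y (β o) ≠ 0

/-- Chart coordinates. -/
def co (β : Cht M t) (y : Fin M → A) : CI M t → A := fun x => y x.1 / y (β x.2)

/-- Ratios inside the blocks (they do not depend on the second index). -/
def xc (w : Fin M → Option (Fin t)) (β : Cht M t) (y : Fin M → A) : CI M t → A :=
  fun x => y x.1 / y (β (w x.1))

/-- Torus coordinates. -/
def eta (β : Cht M t) (y : Fin M → A) (o : Option (Fin t)) : A := y (β o) / y (β none)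

/-- All ratios of coordinates. -/
def rat (y : Fin M → A) : Set A := {u | ∃ c b, u = y c / y b}

/-- The value at `y` of the coordinate `x` of the vector field `∑ v i • P i`. -/
noncomputable def vf [Algebra ℂ A] {g : ℕ} (P : Fin g → CI M t → CP M t) (v : Fin g → A)
    (y : CI M t → A) (x : CI M t) : A := ∑ i, v i * aeval y (P i x)

lemma vf_eq {g : ℕ} (P : Fin g → CI M t → CP M t) (v : Fin g → ℂ) (y : CI M t → ℂ) (x : CI M t) :
    vf P v y x = ∑ i, v i * eval y (P i x) := rfl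

lemma co_mem (β : Cht M t) (y : Fin M → A) (x : CI M t) : co β y x ∈ rat y := ⟨_, _, rfl⟩

lemma xc_mem (w : Fin M → Option (Fin t)) (β : Cht M t) (y : Fin M → A) (x : CI M t) :
    xc w β y x ∈ rat y := ⟨_, _, rfl⟩

lemma rat_fin (y : Fin M → A) : (rat y).Finite :=
  (Set.finite_range fun x : Fin M × Fin M => y x.1 / y x.2).subset
    fun _ ⟨c, b, h⟩ => ⟨(c, b), h.symm⟩

lemma div_eq_co {w : Fin M → Option (Fin t)} {β : Cht M t} {y : Fin M → A} (h : Ch w β y)
    (c b : Fin M) : y c / y b = co β y (c, none) / co β y (b, none) := by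
  simp only [co]
  rw [div_div_div_cancel_right₀ (h none).2]

lemma exists_ch {w : Fin M → Option (Fin t)} {y : Fin M → A} (h : ∀ o, ∃ b, w b = o ∧ y b ≠ 0) :
    ∃ β, Ch w β y := by
  choose β h1 h2 using h
  exact ⟨β, fun o => ⟨h1 o, h2 o⟩⟩

end Charts

/-- Dehomogenisation. -/
noncomputable def dh (Q : PR M) : CP M t := rename (fun c => (c, none)) Q

/-- The coefficients of `P` lie in `k`. -/
def Cf {ι : Type} (k : Subfield ℂ) (P : MvPolynomial ι ℂ) : Prop := ∀ m, coeff m P ∈ k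

/-- `D` vanishes on `k`. -/
def Kill (k : Subfield ℂ) (D : Der) : Prop := ∀ c ∈ k, D c = 0

/-- `D` preserves `s`. -/
def Pres (D : Der) (s : Set ℂ) : Prop := ∀ x ∈ s, D x ∈ s

/-- `s` contains `n` elements algebraically independent over `F`. -/
def Ind (F : Subfield ℂ) (n : ℕ) (s : Set ℂ) : Prop :=
  ∃ y : Fin n → ℂ, (∀ i, y i ∈ s) ∧ AlgebraicIndependent F y

/-- `P` holds for all subfields containing some countable set. -/
def Ev (P : Subfield ℂ → Prop) : Prop :=
  ∃ s : Set ℂ, s.Countable ∧ ∀ k : Subfield ℂ, s ⊆ k → P k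

/-- The field of definition over `F` of the projective point `y`. -/
noncomputable def FL (F : Subfield ℂ) (y : Fin M → ℂ) : Subfield ℂ := Subfield.closure (F ∪ rat y)

/-- The `F`-algebra generated by a family. -/
noncomputable abbrev RA (F : Subfield ℂ) {ι : Type} (x : ι → ℂ) : Subalgebra F ℂ :=
  Algebra.adjoin F (Set.range x)

/-- `R` has no nontrivial ideal stable under all the derivations in `Δ`. -/
def Simple {F : Subfield ℂ} (R : Subalgebra F ℂ) (Δ : Set Der) : Prop :=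
  ∀ I : Ideal R, (∀ D ∈ Δ, ∀ x ∈ I, ∀ y : R, (y : ℂ) = D x → y ∈ I) → I = ⊥ ∨ I = ⊤

/-- `y` is a specialisation of `x` over `k`. -/
def Sp {ι : Type} (k : Subfield ℂ) (x y : ι → ℂ) : Prop :=
  ∀ P : MvPolynomial ι ℂ, Cf k P → eval x P = 0 → eval y P = 0

/-- The derivation `D` acts on the point `Θ p` as the tangent vector `v`. -/
def Tan {g : ℕ} (Θ : (Fin g → ℂ) → Fin M → ℂ) (D : Der) (p v : Fin g → ℂ) : Prop :=
  ∀ c b, Θ p b ≠ 0 → D (Θ p c / Θ p b) = fderiv ℂ (fun q => Θ q c / Θ q b) p v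

section Cf
variable {ι : Type} {k k' : Subfield ℂ} {P Q : MvPolynomial ι ℂ}

lemma cf_iff : Cf k P ↔ ∃ P' : MvPolynomial ι k, map k.subtype P' = P := by
  rw [← Set.mem_range, mem_range_map_iff_coeffs_subset]
  refine ⟨fun h c hc => ?_, fun h m => ?_⟩
  · obtain ⟨m, -, rfl⟩ := mem_coeffs_iff.1 hc
    exact ⟨⟨_, h m⟩, rfl⟩
  · by_cases e : coeff m P = 0
    · rw [e]; exact zero_mem _
    · obtain ⟨c, hc⟩ := h (coeff_mem_coeffs m e)
      exact hc ▸ c.2

lemma cf_map (P : MvPolynomial ι k) : Cf k (map k.subtype P) := cf_iff.2 ⟨P, rfl⟩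

lemma eval_map_sub (x : ι → ℂ) (P : MvPolynomial ι k) :
    eval x (map k.subtype P) = aeval x P := by
  rw [eval_map, aeval_def]; rfl

/-- Polynomials with coefficients in `k`. -/
noncomputable def cfr (ι : Type) (k : Subfield ℂ) : Subring (MvPolynomial ι ℂ) := (map k.subtype).range

lemma mem_cfr : P ∈ cfr ι k ↔ Cf k P := cf_iff.symm

lemma Cf.mono (h : Cf k P) (hk : k ≤ k') : Cf k' P := fun m => hk (h m)

lemma Cf.add (h : Cf k P) (h' : Cf k Q) : Cf k (P + Q) :=
  mem_cfr.1 (add_mem (mem_cfr.2 h) (mem_cfr.2 h'))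

lemma Cf.sub (h : Cf k P) (h' : Cf k Q) : Cf k (P - Q) :=
  mem_cfr.1 (sub_mem (mem_cfr.2 h) (mem_cfr.2 h'))

lemma Cf.mul (h : Cf k P) (h' : Cf k Q) : Cf k (P * Q) :=
  mem_cfr.1 (mul_mem (mem_cfr.2 h) (mem_cfr.2 h'))

lemma Cf.pow (h : Cf k P) (n : ℕ) : Cf k (P ^ n) := mem_cfr.1 (pow_mem (mem_cfr.2 h) n)

lemma Cf.sum {κ : Type*} (s : Finset κ) {f : κ → MvPolynomial ι ℂ} (h : ∀ i ∈ s, Cf k (f i)) :
    Cf k (∑ i ∈ s, f i) := mem_cfr.1 (sum_mem fun i hi => mem_cfr.2 (h i hi))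

lemma Cf.prod {κ : Type*} (s : Finset κ) {f : κ → MvPolynomial ι ℂ} (h : ∀ i ∈ s, Cf k (f i)) :
    Cf k (∏ i ∈ s, f i) := mem_cfr.1 (prod_mem fun i hi => mem_cfr.2 (h i hi))

lemma cf_X (i : ι) : Cf k (X i : MvPolynomial ι ℂ) := cf_iff.2 ⟨X i, map_X _ _⟩

lemma cf_C {c : ℂ} (h : c ∈ k) : Cf k (C c : MvPolynomial ι ℂ) := cf_iff.2 ⟨C ⟨c, h⟩, map_C _ _⟩

lemma cf_one : Cf k (1 : MvPolynomial ι ℂ) := mem_cfr.1 (one_mem _)

lemma cf_zero : Cf k (0 : MvPolynomial ι ℂ) := mem_cfr.1 (zero_mem _)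

lemma Cf.pderiv (h : Cf k P) (i : ι) : Cf k (pderiv i P) := by
  obtain ⟨P', rfl⟩ := cf_iff.1 h
  exact cf_iff.2 ⟨MvPolynomial.pderiv i P', (pderiv_map).symm⟩

lemma Cf.rename (h : Cf k P) {κ : Type} (f : ι → κ) : Cf k (rename f P) := by
  obtain ⟨P', rfl⟩ := cf_iff.1 h
  exact cf_iff.2 ⟨MvPolynomial.rename f P', map_rename _ _ _⟩

lemma mem_RA {x : ι → ℂ} {u : ℂ} : u ∈ RA k x ↔ ∃ P, Cf k P ∧ eval x P = u := by
  rw [RA, Algebra.adjoin_range_eq_range_aeval]
  constructor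
  · rintro ⟨P, rfl⟩
    exact ⟨_, cf_map P, eval_map_sub x P⟩
  · rintro ⟨P, hP, rfl⟩
    obtain ⟨P', rfl⟩ := cf_iff.1 hP
    exact ⟨P', (eval_map_sub x P').symm⟩

lemma Cf.eval_mem (h : Cf k P) (x : ι → ℂ) : eval x P ∈ RA k x := mem_RA.2 ⟨P, h, rfl⟩

lemma gen_mem (x : ι → ℂ) (i : ι) : x i ∈ RA k x := Algebra.subset_adjoin ⟨i, rfl⟩

lemma RA_le {x : ι → ℂ} {S : Subring ℂ} (h1 : ∀ c ∈ k, c ∈ S) (h2 : ∀ i, x i ∈ S) :
    ∀ u ∈ RA k x, u ∈ S := by
  intro u hu
  induction hu using Algebra.adjoin_induction with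
  | mem u h => obtain ⟨i, rfl⟩ := h; exact h2 i
  | algebraMap c => exact h1 _ c.2
  | add _ _ _ _ a b => exact add_mem a b
  | mul _ _ _ _ a b => exact mul_mem a b

lemma Cf.eval_mem_field (h : Cf k P) (hk : k ≤ k') {x : ι → ℂ} (hx : ∀ i, x i ∈ k') :
    eval x P ∈ k' := RA_le (S := k'.toSubring) hk hx _ (h.eval_mem x)

/-- A ring homomorphism fixing `k` commutes with evaluation. -/
lemma Cf.map_eval (h : Cf k P) {F : Subfield ℂ} (hk : k ≤ F) {R : Subalgebra F ℂ} (ξ : R →ₐ[F] ℂ)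
    (x : ι → R) (u : R) (hu : (u : ℂ) = eval (fun i => (x i : ℂ)) P) :
    ξ u = eval (fun i => ξ (x i)) P := by
  obtain ⟨P', rfl⟩ := cf_iff.1 (h.mono hk)
  rw [eval_map_sub] at hu ⊢
  have : u = aeval x P' := Subtype.ext (by
    rw [hu]; exact (congrArg (fun f => f P') (comp_aeval (f := x) R.val)).symm)
  rw [this]
  exact congrArg (fun f => f P') (comp_aeval (f := x) ξ)

/-- The chain rule. -/
lemma Cf.chain [Fintype ι] (h : Cf k P) {D : Der} (hD : Kill k D) (x : ι → ℂ) :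
    D (eval x P) = ∑ i, eval x (MvPolynomial.pderiv i P) * D (x i) := by
  classical
  obtain ⟨P', rfl⟩ := cf_iff.1 h
  clear h
  induction P' using MvPolynomial.induction_on with
  | C c => simp [hD _ c.2]
  | add p q hp hq => simp only [map_add, hp, hq, add_mul, sum_add_distrib]
  | mul_X p i hp =>
    simp only [map_mul, map_X, eval_X, Derivation.leibniz, hp, smul_eq_mul, pderiv_X, map_add,
      add_mul, sum_add_distrib, mul_sum, Pi.single_apply]
    congr 1
    · simp [apply_ite, ite_mul]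
    · exact sum_congr rfl fun _ _ => by ring

end Cf

section Ev
variable {P Q : Subfield ℂ → Prop}

lemma Ev.mono (h : Ev P) (H : ∀ k, P k → Q k) : Ev Q :=
  let ⟨s, h1, h2⟩ := h; ⟨s, h1, fun k hk => H k (h2 k hk)⟩

lemma Ev.and (h : Ev P) (h' : Ev Q) : Ev fun k => P k ∧ Q k :=
  let ⟨s, h1, h2⟩ := h
  let ⟨s', h3, h4⟩ := h'
  ⟨s ∪ s', h1.union h3, fun k hk =>
    ⟨h2 k (Set.subset_union_left.trans hk), h4 k (Set.subset_union_right.trans hk)⟩⟩

lemma Ev.of_forall (h : ∀ k, P k) : Ev P := ⟨∅, Set.countable_empty, fun k _ => h k⟩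

lemma Ev.all {κ : Type*} [Countable κ] {P : κ → Subfield ℂ → Prop} (h : ∀ i, Ev (P i)) :
    Ev fun k => ∀ i, P i k := by
  choose s h1 h2 using h
  exact ⟨⋃ i, s i, Set.countable_iUnion h1, fun k hk i =>
    h2 i k ((Set.subset_iUnion s i).trans hk)⟩

lemma Ev.imp (p : Prop) (h : p → Ev P) : Ev fun k => p → P k := by
  by_cases hp : p
  · exact (h hp).mono fun _ a _ => a
  · exact Ev.of_forall fun _ a => absurd a hp

lemma closure_countable {K : Type} [Field K] {s : Set K} (h : s.Countable) :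
    Countable (Subfield.closure s) := by
  rw [← Cardinal.mk_le_aleph0_iff]
  refine (Subfield.cardinalMk_closure_le_max _).trans (max_le ?_ le_rfl)
  exact Cardinal.mk_le_aleph0_iff.2 h

lemma Ev.exists (h : Ev P) : ∃ k : Subfield ℂ, Countable k ∧ P k :=
  let ⟨_, h1, h2⟩ := h; ⟨_, closure_countable h1, h2 _ Subfield.subset_closure⟩

/-- An eventual property holds for a countable field and for all larger fields. -/
lemma Ev.exists' (h : Ev P) : ∃ k : Subfield ℂ, Countable k ∧ ∀ k', k ≤ k' → P k' :=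
  let ⟨_, h1, h2⟩ := h
  ⟨_, closure_countable h1, fun _ hk => h2 _ (Subfield.subset_closure.trans hk)⟩

lemma ev_le {k : Subfield ℂ} (h : Countable k) : Ev fun k' => k ≤ k' :=
  ⟨k, Set.countable_coe_iff.1 h, fun _ hk => hk⟩

lemma ev_mem (c : ℂ) : Ev fun k => c ∈ k :=
  ⟨{c}, Set.countable_singleton c, fun _ hk => hk rfl⟩

lemma ev_cf {ι : Type} (P : MvPolynomial ι ℂ) : Ev fun k => Cf k P :=
  ⟨insert 0 P.coeffs, (P.coeffs.countable_toSet).insert 0, fun _ hk m => hk (by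
    by_cases e : coeff m P = 0
    · exact Or.inl e
    · exact Or.inr (coeff_mem_coeffs m e))⟩

end Ev

lemma Kill.mono {k k' : Subfield ℂ} {D : Der} (h : Kill k' D) (hk : k ≤ k') : Kill k D :=
  fun c hc => h c (hk hc)

lemma Kill.pres {k : Subfield ℂ} {D : Der} (h : Kill k D) : Pres D k :=
  fun c hc => by rw [h c hc]; exact zero_mem k

lemma Ind.mono {F F' : Subfield ℂ} {m n : ℕ} {s s' : Set ℂ} (h : Ind F' n s) (hF : F ≤ F')
    (hn : m ≤ n) (hs : s ⊆ s') : Ind F m s' := by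
  obtain ⟨y, h1, h2⟩ := h
  refine ⟨y ∘ Fin.castLE hn, fun i => hs (h1 _), ?_⟩
  have h3 := h2.comp _ (Fin.castLE_injective hn)
  rw [algebraicIndependent_iff] at h3 ⊢
  intro P hP
  apply map_injective (Subfield.inclusion hF) (Subfield.inclusion hF).injective
  rw [map_zero]
  apply h3
  rw [← hP, aeval_def, aeval_def, eval₂_map]
  rfl

lemma ind_zero (F : Subfield ℂ) (s : Set ℂ) : Ind F 0 s :=
  ⟨Fin.elim0, fun i => i.elim0, algebraicIndependent_empty_type⟩

lemma le_FL (F : Subfield ℂ) (y : Fin M → ℂ) : F ≤ FL F y :=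
  fun _ h => Subfield.subset_closure (Or.inl h)

lemma rat_FL (F : Subfield ℂ) (y : Fin M → ℂ) : rat y ⊆ FL F y :=
  fun _ h => Subfield.subset_closure (Or.inr h)

lemma FL_le {F F' : Subfield ℂ} {y : Fin M → ℂ} (h1 : F ≤ F') (h2 : rat y ⊆ F') : FL F y ≤ F' :=
  Subfield.closure_le.2 (Set.union_subset h1 h2)

lemma FL_countable {F : Subfield ℂ} (h : Countable F) (y : Fin M → ℂ) : Countable (FL F y) :=
  closure_countable ((Set.countable_coe_iff.1 h).union (rat_fin y).countable)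

lemma FL_chart {w : Fin M → Option (Fin t)} {β : Cht M t} {y : Fin M → ℂ} (h : Ch w β y)
    (F : Subfield ℂ) : FL F y = Subfield.closure (F ∪ Set.range (co β y)) := by
  refine le_antisymm (FL_le (fun _ h => Subfield.subset_closure (Or.inl h)) ?_)
    (Subfield.closure_mono (Set.union_subset_union_right _ ?_))
  · rintro _ ⟨c, b, rfl⟩
    rw [div_eq_co h]
    exact div_mem (Subfield.subset_closure (Or.inr ⟨_, rfl⟩))
      (Subfield.subset_closure (Or.inr ⟨_, rfl⟩))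
  · rintro _ ⟨x, rfl⟩
    exact co_mem β y x

section Tan
variable {g : ℕ} {Θ : (Fin g → ℂ) → Fin M → ℂ} {D D' : Der} {p v v' : Fin g → ℂ}

lemma Tan.add (h : Tan Θ D p v) (h' : Tan Θ D' p v') : Tan Θ (D + D') p (v + v') :=
  fun c b hb => by rw [map_add, ← h c b hb, ← h' c b hb]; rfl

lemma Tan.smul (h : Tan Θ D p v) (l : ℂ) : Tan Θ (l • D) p (l • v) :=
  fun c b hb => by rw [map_smul, ← h c b hb]; rfl

lemma Tan.sub (h : Tan Θ D p v) (h' : Tan Θ D' p v') : Tan Θ (D - D') p (v - v') :=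
  fun c b hb => by rw [map_sub, ← h c b hb, ← h' c b hb]; rfl

lemma tan_zero : Tan Θ 0 p 0 := fun c b _ => by simp

lemma Tan.sum {κ : Type*} (s : Finset κ) {D : κ → Der} {v : κ → Fin g → ℂ}
    (h : ∀ i ∈ s, Tan Θ (D i) p (v i)) : Tan Θ (∑ i ∈ s, D i) p (∑ i ∈ s, v i) := by
  classical
  induction s using Finset.induction_on with
  | empty => simpa using tan_zero
  | insert i s hi ih =>
    rw [sum_insert hi, sum_insert hi]
    exact (h i (mem_insert_self _ _)).add (ih fun j hj => h j (mem_insert_of_mem hj))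

lemma Tan.congr (h : Tan Θ D p v) (e : ∀ x ∈ rat (Θ p), D' x = D x) : Tan Θ D' p v :=
  fun c b hb => by rw [e _ ⟨c, b, rfl⟩, h c b hb]

lemma tan_zero_iff : Tan Θ D p 0 ↔ ∀ x ∈ rat (Θ p), D x = 0 := by
  refine ⟨?_, fun h c b _ => by rw [h _ ⟨c, b, rfl⟩, map_zero]⟩
  rintro h _ ⟨c, b, rfl⟩
  by_cases hb : Θ p b = 0
  · simp [hb]
  · rw [h c b hb, map_zero]

lemma der_sum_apply {κ : Type*} (s : Finset κ) (D : κ → Der) (x : ℂ) :
    (∑ i ∈ s, D i) x = ∑ i ∈ s, D i x := by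
  have := congrFun (map_sum Derivation.coeFnAddMonoidHom D s) x
  rwa [Finset.sum_apply] at this

end Tan

end Pool.Agent.MP_c69980_ag.H43
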