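import Pool.Agent.MP_c69980_ag.H60.Defs2

/-!
Semi-abelian varieties, presented by theta functions on the universal cover.
-/

set_option autoImplicit false

namespace Pool.Agent.MP_c69980_ag.H43

open MvPolynomial

variable {t a M : ℕ}

/-- Homogeneous coordinates of the point `(s, α)` of `ℂ^t × ℂ^a`: the coordinate `c` is the theta
function `ϑ α c`, times `exp (s j)` when `c` lies in the block `w c = some j`. -/
noncomputable def Th (w : Fin M → Option (Fin t)) (ϑ : (Fin a → ℂ) → Fin M → ℂ) (s : Fin t → ℂ)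
    (α : Fin a → ℂ) (c : Fin M) : ℂ :=
  (w c).elim 1 (fun j => Complex.exp (s j)) * ϑ α c

/-- `Th w ϑ` presents a semi-abelian variety `G = ℂ^(t + a) / Λ`, an extension of an abelian variety
`A = ℂ^a / Λ'` by a torus of rank `t`, as a locally closed subvariety of projective space. -/
structure SemiAb (w : Fin M → Option (Fin t)) (ϑ : (Fin a → ℂ) → Fin M → ℂ) : Prop where
  /-- The theta functions are entire. -/
  hol : Differentiable ℂ ϑ
  /-- They have the growth of canonical theta functions, in every block. -/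
  grow : ∃ ε C : ℝ, 0 < ε ∧ ∀ α, Real.exp (ε * ‖α‖ ^ 2 - C) ≤ ‖ϑ α‖ ∧
    ‖ϑ α‖ ≤ Real.exp (C * (1 + ‖α‖ ^ 2)) ∧ ∀ o, ∃ b, w b = o ∧ ‖ϑ α‖ ≤ C * ‖ϑ α b‖
  /-- The block `none` is an immersion of `ℂ^a` into projective space. -/
  imm : ∀ α v (l : ℂ), (∀ b, w b = none → fderiv ℂ ϑ α v b = l * ϑ α b) → v = 0
  /-- The periods are cocompact in `ℂ^a`. -/
  per : ∃ R : ℝ, ∀ α, ∃ s β, ∃ l : ℂ, Th w ϑ s β = l • Th w ϑ 0 0 ∧ ‖α - β‖ ≤ R
  /-- The image is the open part of its Zariski closure where no block vanishes. -/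
  cl : ∀ y : Fin M → ℂ, (∀ (F : MvPolynomial (Fin M) ℂ) (d : ℕ), F.IsHomogeneous d →
    (∀ s α, eval (Th w ϑ s α) F = 0) → eval y F = 0) → (∀ o, ∃ b, w b = o ∧ y b ≠ 0) →
    ∃ s α, ∃ l : ℂ, y = l • Th w ϑ s α
  /-- Subtraction is a morphism: near each pair it is given by bihomogeneous forms. -/
  sub : ∀ s α s' α', ∃ (S : Fin M → MvPolynomial (Fin M ⊕ Fin M) ℂ) (d e : ℕ),
    (∀ c (l l' : ℂ) (x y : Fin M → ℂ), eval (Sum.elim (l • x) (l' • y)) (S c) =
      l ^ d * l' ^ e * eval (Sum.elim x y) (S c)) ∧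
    (∃ c, eval (Sum.elim (Th w ϑ s α) (Th w ϑ s' α')) (S c) ≠ 0) ∧
    ∀ r β r' β', ∃ l : ℂ, ∀ c, eval (Sum.elim (Th w ϑ r β) (Th w ϑ r' β')) (S c) =
      l * Th w ϑ (r - r') (β - β') c

end Pool.Agent.MP_c69980_ag.H43
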