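import Pool.Agent.MP_c69980_ag.H43.Spec1

/-!
The analytic facts `GA` and the differential-algebraic facts `GD` on a semi-abelian variety.
-/

set_option autoImplicit false

namespace Pool.Agent.MP_c69980_ag.H43

open MvPolynomial H60 Finset Filter Topology

variable {t a M : ℕ}

/-- `Th` as a function on `ℂ^(t + a)`. -/
noncomputable def TH (w : Fin M → Option (Fin t)) (ϑ : (Fin a → ℂ) → Fin M → ℂ) (p : Pt t a) :
    Fin M → ℂ := Th w ϑ (fun j => p (Fin.castAdd a j)) fun i => p (Fin.natAdd t i)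

/-- The torus directions. -/
def inT (a : ℕ) (s : Fin t → ℂ) : Pt t a := Fin.append s 0

/-- The real part of the torus coordinates. -/
noncomputable def reT (p : Pt t a) : Pt t a := inT a fun j => ((p (Fin.castAdd a j)).re : ℂ)

/-- The periods. -/
def Lam (Θ : Pt t a → Fin M → ℂ) : Set (Pt t a) := {x | ∃ l : ℂ, Θ x = l • Θ 0}

/-- Points outside the blocks' zero sets that satisfy the equations of `G` over `k` lie on `G`. -/
def Clh (w : Fin M → Option (Fin t)) (Θ : Pt t a → Fin M → ℂ) (k : Subfield ℂ) : Prop :=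
  ∀ y : Fin M → ℂ, (∀ o, ∃ b, w b = o ∧ y b ≠ 0) → (∀ (F : PR M) (d : ℕ), F.IsHomogeneous d →
    Cf k F → (∀ p, eval (Θ p) F = 0) → eval y F = 0) → ∃ (p : Pt t a) (l : ℂ), y = l • Θ p

/-- First group of analytic facts. -/
structure GA1 (w : Fin M → Option (Fin t)) (Θ : Pt t a → Fin M → ℂ) : Prop where
  hol : Differentiable ℂ Θ
  act : ∀ p s c, Θ (p + inT a s) c = (w c).elim 1 (fun j => Complex.exp (s j)) * Θ p c
  blk : ∀ p o, ∃ b, w b = o ∧ Θ p b ≠ 0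
  imm : ∀ p v, (∀ c b, Θ p b ≠ 0 → fderiv ℂ (fun q => Θ q c / Θ q b) p v = 0) → v = 0
  immA : ∀ p v b, w b = none → Θ p b ≠ 0 →
    (∀ c, w c = none → fderiv ℂ (fun q => Θ q c / Θ q b) p v = 0) → ∀ i, v (Fin.natAdd t i) = 0
  cl : Clh w Θ ⊤
  gr : ∃ ε C : ℝ, 0 < ε ∧ 0 ≤ C ∧ ∀ p, ε * ∑ i, max (p i).re 0 - C ≤ Real.log ‖Θ p‖ ∧
    Real.log ‖Θ p‖ ≤ C * (‖p‖ ^ 2 + 1) ∧
    ∀ o, ∃ b, w b = o ∧ Real.exp (-(C * (‖p‖ + 1))) ≤ ‖Θ p b‖
  cmp : ∃ C : ℝ, 1 ≤ C ∧ ∀ p, (∀ j, (p (Fin.castAdd a j)).re = 0) →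
    ∀ o, ∃ b, w b = o ∧ ‖Θ p‖ ≤ C * ‖Θ p b‖

/-- A finite family of bihomogeneous maps that gives the subtraction. -/
def SubF (Θ : Pt t a → Fin M → ℂ) (s : Finset (Fin M → MvPolynomial (Fin M ⊕ Fin M) ℂ)) : Prop :=
  (∀ S ∈ s, (∃ d e : ℕ, ∀ c (l l' : ℂ) (x y : Fin M → ℂ), eval (Sum.elim (l • x) (l' • y)) (S c) =
      l ^ d * l' ^ e * eval (Sum.elim x y) (S c)) ∧
    ∀ p q, ∃ l : ℂ, ∀ c, eval (Sum.elim (Θ p) (Θ q)) (S c) = l * Θ (p - q) c) ∧
  ∀ p q, ∃ S ∈ s, ∃ c, eval (Sum.elim (Θ p) (Θ q)) (S c) ≠ 0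

/-- All the analytic facts. -/
structure GA (w : Fin M → Option (Fin t)) (Θ : Pt t a → Fin M → ℂ) : Prop extends GA1 w Θ where
  sub : ∃ s, SubF Θ s
  par : ∀ p q, (∃ l : ℂ, Θ p = l • Θ q) ↔ p - q ∈ Lam Θ
  lsub : ∀ x ∈ Lam Θ, ∀ y ∈ Lam Θ, x - y ∈ Lam Θ
  lre : ∀ x ∈ Lam Θ, ∀ j, (x (Fin.castAdd a j)).re = 0
  per : ∃ R : ℝ, ∀ p, ∃ x ∈ Lam Θ, ‖p - reT p - x‖ ≤ R

/-- The Zariski closure of the image of `S` has dimension at most `n`. -/
def Dep (Θ : Pt t a → Fin M → ℂ) (n : ℕ) (S : Set (Pt t a)) : Prop :=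
  ∀ c b : Fin (n + 1) → Fin M, ∃ F : MvPolynomial (Fin (n + 1)) ℂ, F ≠ 0 ∧
    ∀ q ∈ S, (∀ i, Θ q (b i) ≠ 0) → eval (fun i => Θ q (c i) / Θ q (b i)) F = 0

/-- The invariant vector fields are polynomial in each chart. -/
def DerF (w : Fin M → Option (Fin t)) (Θ : Pt t a → Fin M → ℂ) (PP : PT M t a) : Prop :=
  ∀ β p v x, Ch w β (Θ p) →
    fderiv ℂ (fun q => co β (Θ q) x) p v = vf (PP β) v (co β (Θ p)) x

/-- Subtraction is defined over `k` and compatible with derivations. -/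
def SubK (Θ : Pt t a → Fin M → ℂ) (k : Subfield ℂ) : Prop :=
  rat (Θ 0) ⊆ k ∧
  (∀ p q, rat (Θ (p - q)) ⊆ Subfield.closure (k ∪ rat (Θ p) ∪ rat (Θ q) : Set ℂ)) ∧
  ∀ D p q v v', Kill k D → Tan Θ D p v → Tan Θ D q v' → Tan Θ D (p - q) (v - v')

/-- The structure of the charts with respect to the projection to the abelian variety. -/
structure Nrm (w : Fin M → Option (Fin t)) (Θ : Pt t a → Fin M → ℂ) (PP : PT M t a) : Prop where
  imm : ∀ β p v, Ch w β (Θ p) → (∀ x, vf (PP β) v (co β (Θ p)) x = 0) → v = 0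
  norm : ∀ β p, Ch w β (Θ p) → ∃ p' : Pt t a, (∀ i, p' (Fin.natAdd t i) = p (Fin.natAdd t i)) ∧
    Ch w β (Θ p') ∧ co β (Θ p') = xc w β (Θ p)
  same : ∀ β (p q : Pt t a), (∀ i, p (Fin.natAdd t i) = q (Fin.natAdd t i)) → Ch w β (Θ p) →
    Ch w β (Θ q) ∧ xc w β (Θ p) = xc w β (Θ q)
  tanA : ∀ β D p v, Ch w β (Θ p) → Tan Θ D p v →
    (∀ x, D (xc w β (Θ p) x) = vf (PP β) v (xc w β (Θ p)) (x.1, w x.1)) ∧
    ∀ o, D (eta β (Θ p) o) = eta β (Θ p) o * vf (PP β) v (xc w β (Θ p)) (β o, none)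
  immA : ∀ β p (v : Pt t a), Ch w β (Θ p) →
    ((∀ c, vf (PP β) v (xc w β (Θ p)) (c, w c) = 0) ↔ ∀ i, v (Fin.natAdd t i) = 0)

/-- The bracket of two derivations. -/
def BrK (Θ : Pt t a → Fin M → ℂ) (k : Subfield ℂ) : Prop :=
  ∀ D D' p v v', Kill k D → Kill k D' → Tan Θ D p v → Tan Θ D' p v' →
    Tan Θ ⁅D, D'⁆ p fun i => D (v' i) - D' (v i)

/-- The differential-algebraic facts over the field `k`. -/
structure GD (w : Fin M → Option (Fin t)) (Θ : Pt t a → Fin M → ℂ) (PP : PT M t a)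
    (k : Subfield ℂ) : Prop extends Nrm w Θ PP where
  hol : Differentiable ℂ Θ
  blk : ∀ p o, ∃ b, w b = o ∧ Θ p b ≠ 0
  clh : Clh w Θ k
  cf : ∀ β i x, Cf k (PP β i x)
  der : DerF w Θ PP
  sub : SubK Θ k
  ex : ∀ D p, Kill k D → ∃ v, Tan Θ D p v
  br : BrK Θ k
  rig : ∀ (F : Subfield ℂ) (p : Pt t a) (n : ℕ) (μ : Fin n → Pt t a) (δ : Fin n → Der), k ≤ F →
    (∀ l i, μ l i ∈ F) → LinearIndependent ℂ μ → (∀ l, Kill F (δ l) ∧ Tan Θ (δ l) p (μ l)) →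
    ¬ Ind F (n + 1) (rat (Θ p)) → ∃ lam : Fin n → Pt t a, (∀ l i, lam l i ∈ k) ∧
      LinearIndependent ℂ lam ∧ ∀ l, lam l ∈ Submodule.span ℂ (Set.range μ)

variable {w : Fin M → Option (Fin t)} {Θ : Pt t a → Fin M → ℂ} {PP : PT M t a} {k : Subfield ℂ}
  {β : Cht M t} {p v : Pt t a} {D : Der}

lemma eval_dh {A : Type} [Field A] [Algebra ℂ A] {y : Fin M → A} {Q : PR M} {e : ℕ}
    (hQ : Q.IsHomogeneous e) (β : Cht M t) :
    aeval (co β y) (dh Q : CP M t) = aeval y Q / y (β none) ^ e := by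
  rw [dh, aeval_rename, div_eq_mul_inv, mul_comm, ← inv_pow, ← aeval_scale hQ]
  congr 2
  ext c
  simp [co, div_eq_inv_mul]

/-- `Tan` can be checked in one chart. -/
lemma tan_iff (hol : Differentiable ℂ Θ) (der : DerF w Θ PP) (h : Ch w β (Θ p)) :
    Tan Θ D p v ↔ ∀ x, D (co β (Θ p) x) = vf (PP β) v (co β (Θ p)) x := by
  refine ⟨fun H x => (H _ _ (h x.2).2).trans (der β p v x h), fun H c b hb => ?_⟩
  have d : ∀ c, DifferentiableAt ℂ (fun q => Θ q c) p := fun c => differentiableAt_pi.1 (hol p) c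
  have dc : ∀ c, DifferentiableAt ℂ (fun q => co β (Θ q) (c, none)) p := fun c => by
    simp only [co, div_eq_mul_inv]
    exact (d c).mul ((d _).inv (h none).2)
  have n0 : co β (Θ p) (b, none) ≠ 0 := div_ne_zero hb (h none).2
  have e : (fun q => Θ q c / Θ q b) =ᶠ[𝓝 p]
      fun q => co β (Θ q) (c, none) * (co β (Θ q) (b, none))⁻¹ := by
    filter_upwards [(d _).continuousAt.eventually_ne (h none).2] with q hq
    simp only [co]
    rw [← div_eq_mul_inv, div_div_div_cancel_right₀ hq]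
  have i := ((hasFDerivAt_inv' (𝕜 := ℂ) n0).comp p (dc b).hasFDerivAt)
  have j : HasFDerivAt (fun q => co β (Θ q) (c, none) * (co β (Θ q) (b, none))⁻¹) _ p :=
    (dc c).hasFDerivAt.mul i
  rw [e.fderiv_eq, j.fderiv, div_eq_co h, Derivation.leibniz_div, H, H,
    ← der β p v _ h, ← der β p v _ h]
  simp
  field_simp
  ring

/-- Points of a chart from their equations. -/
lemma Clh.chart (h : Clh w Θ k) {y : CI M t → ℂ}
    (h0 : ∀ o, w (β o) = o ∧ y (β o, none) ≠ 0) (h1 : ∀ c o, y (c, o) * y (β o, none) = y (c, none))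
    (h2 : ∀ (F : PR M) (d : ℕ), F.IsHomogeneous d → Cf k F → (∀ p, eval (Θ p) F = 0) →
      eval y (dh F) = 0) : ∃ p, Ch w β (Θ p) ∧ co β (Θ p) = y := by
  obtain ⟨p, l, e⟩ := h (fun c => y (c, none)) (fun o => ⟨β o, h0 o⟩) fun F d a b c => by
    simpa [dh, eval_rename, Function.comp_def] using h2 F d a b c
  have e' : ∀ c, y (c, none) = l * Θ p c := congrFun e
  have n : ∀ o, l ≠ 0 ∧ Θ p (β o) ≠ 0 := fun o => mul_ne_zero_iff.1 (e' _ ▸ (h0 o).2)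
  refine ⟨p, fun o => ⟨(h0 o).1, (n o).2⟩, funext fun ⟨c, o⟩ => ?_⟩
  have := h1 c o
  rw [e', e'] at this
  simp only [co]
  rw [div_eq_iff (n o).2]
  apply mul_left_cancel₀ (n o).1
  linear_combination -this

/-- A specialisation over `k` of a point of a chart is a point of the chart. -/
lemma GD.spec (h : GD w Θ PP k) (hp : Ch w β (Θ p)) {y : CI M t → ℂ}
    (hy : Sp k (co β (Θ p)) y) : ∃ q, Ch w β (Θ q) ∧ co β (Θ q) = y := by
  refine h.clh.chart (fun o => ⟨(hp o).1, fun e => ?_⟩) (fun c o => ?_) fun F d a b c => ?_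
  · have := hy (X (β o, none) * X (β none, o) - 1) (((cf_X _).mul (cf_X _)).sub cf_one) (by
      simp only [map_sub, map_mul, eval_X, map_one, co]
      rw [div_mul_div_cancel₀ (hp none).2, div_self (hp o).2, sub_self])
    simp [e] at this
  · have := hy (X (c, o) * X (β o, none) - X (c, none))
      (((cf_X _).mul (cf_X _)).sub (cf_X _)) (by
      simp only [map_sub, map_mul, eval_X, co]
      rw [div_mul_div_cancel₀ (hp o).2, sub_self])
    simpa [sub_eq_zero] using this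
  · refine hy _ (b.rename _) ?_
    have : eval _ (dh F) = eval (Θ p) F / _ := eval_dh (y := Θ p) a β
    rw [this, c, zero_div]

lemma GD.tan_iff (h : GD w Θ PP k) (hp : Ch w β (Θ p)) :
    Tan Θ D p v ↔ ∀ x, D (co β (Θ p) x) = vf (PP β) v (co β (Θ p)) x :=
  H43.tan_iff h.hol h.der hp

lemma GD.ch (h : GD w Θ PP k) (p : Pt t a) : ∃ β, Ch w β (Θ p) := exists_ch (h.blk p)

lemma vf_sub (P : Fin (t + a) → CI M t → CP M t) (v v' : Pt t a) (y : CI M t → ℂ) (x : CI M t) :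
    vf P (v - v') y x = vf P v y x - vf P v' y x := by
  simp [vf, sub_mul, sum_sub_distrib]

/-- The tangent vector is unique. -/
lemma GD.tan_inj (h : GD w Θ PP k) {v' : Pt t a} (h1 : Tan Θ D p v) (h2 : Tan Θ D p v') :
    v = v' := by
  obtain ⟨β, hβ⟩ := h.ch p
  refine sub_eq_zero.1 (h.imm β p _ hβ fun x => ?_)
  rw [vf_sub, ← (h.tan_iff hβ).1 h1, ← (h.tan_iff hβ).1 h2, sub_self]

lemma vf_mem {F : Subfield ℂ} {P : Fin (t + a) → CI M t → CP M t} (hP : ∀ i x, Cf k (P i x))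
    (hk : k ≤ F) (hv : ∀ i, v i ∈ F) (y : CI M t → ℂ) (x : CI M t) : vf P v y x ∈ RA F y :=
  sum_mem fun i _ => mul_mem ((RA F y).algebraMap_mem ⟨_, hv i⟩) (((hP i x).mono hk).eval_mem y)

lemma RA_le_field {F L : Subfield ℂ} {ι : Type} {y : ι → ℂ} (h1 : F ≤ L) (h2 : ∀ i, y i ∈ L) :
    ∀ u ∈ RA F y, u ∈ L := RA_le (S := L.toSubring) h1 h2

end Pool.Agent.MP_c69980_ag.H43
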