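import Pool.Agent.MP_c69980_ag.S13.Hilb
import Pool.Agent.MP_c69980_ag.S14.Pf
import Pool.Agent.MP_c69980_ag.S15.GA1
import Pool.Agent.MP_c69980_ag.S16.AlgK
import Pool.Agent.MP_c69980_ag.S16.Embd
import Pool.Agent.MP_c69980_ag.S19.Disc
import Pool.Agent.MP_c69980_ag.S20.Flow
import Pool.Agent.MP_c69980_ag.S22.Arc
import Pool.Agent.MP_c69980_ag.S23.Ht
import Pool.Agent.MP_c69980_ag.S24.Dsa
import Pool.Agent.MP_c69980_ag.S27.Gdisc
import Pool.Agent.MP_c69980_ag.S29.Br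
import Pool.Agent.MP_c69980_ag.S31.Rig
import Pool.Agent.MP_c69980_ag.S34.Lft
import Pool.Agent.MP_c69980_ag.S35.Der
import Pool.Agent.MP_c69980_ag.S36.Am
import Pool.Agent.MP_c69980_ag.S46.Hom
import Pool.Agent.MP_c69980_ag.S5.St3
import Pool.Agent.MP_c69980_ag.S50.Bad
import Pool.Agent.MP_c69980_ag.S56.Log
import Pool.Agent.MP_c69980_ag.S57.Sr
import Pool.Agent.MP_c69980_ag.S59.Cnt
import Pool.Agent.MP_c69980_ag.S60.Emb
import Pool.Agent.MP_c69980_ag.S60.Fin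
import Pool.Agent.MP_c69980_ag.S60.Vs
import Pool.Agent.MP_c69980_ag.S61.Algp
import Pool.Agent.MP_c69980_ag.S62.Kalg
import Pool.Agent.MP_c69980_ag.S65.Pi
import Pool.Agent.MP_c69980_ag.S67.Lin
import Pool.Agent.MP_c69980_ag.S68.Kei
import Pool.Agent.MP_c69980_ag.S69.Stab
import Pool.Agent.MP_c69980_ag.S70.Three
import Pool.Agent.MP_c69980_ag.S71.Tame
import Pool.Agent.MP_c69980_ag.S73.Ml
import Pool.Agent.MP_c69980_ag.S73.Tank
import Pool.Agent.MP_c69980_ag.S74.O3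
import Pool.Agent.MP_c69980_ag.S75.Ind
import Pool.Agent.MP_c69980_ag.S8.Dim
import Pool.Agent.MP_c69980_ag.S82.Hat
import Pool.Agent.MP_c69980_ag.S82.Prim
import Pool.Agent.MP_c69980_ag.S83.Ld
import Pool.Agent.MP_c69980_ag.S86.GA2
import Pool.Agent.MP_c69980_ag.S86.Jen
import Pool.Agent.MP_c69980_ag.S86.Lfe
import Pool.Agent.MP_c69980_ag.S89.Ax
import Pool.Agent.MP_c69980_ag.S9.Loc
import Pool.Agent.MP_c69980_ag.S96.Ex
import Pool.Agent.MP_c69980_ag.S97.Bld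
import Pool.Agent.MP_c69980_ag.S97.Ext
import Pool.Agent.MP_c69980_ag.S99.Clr
import Pool.Agent.MP_c69980_ag.S99.Good
import Pool.Agent.MP_c69980_ag.S99.Pres

/-!
Assembly.
-/

set_option autoImplicit false

namespace Pool.Agent.MP_c69980_ag.H43

open MvPolynomial H60

theorem aDep : SDep := sDep sInd sStab

theorem aPres : SPres := sPres sStab

theorem aDimt : SDimt := sDimt aDep

theorem aAm : SAm := sAm sEmb sExt sKei

theorem aGeo : SGeo :=
  sGeo sGA1 sGA2 sDisc sDer sFin (sDim sEmb) (sEx sExt aDep sHom) sBr sNrm (sFlow sHom)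
    (sRig sLb sDisc sHom) sPrp sLft

theorem aAlgp : SAlgp :=
  sAlgp sInd (sCnt sEmb sInd sHilb) aPres aDimt (sAx sExt sStab sInd sLin aPres)
    (sKp sInd aPres aDimt) (sVs aAm sInd aPres aDimt) (sDs aAm sInd aPres sLd)
    (sDsa aAm sInd aPres sLd) (sHat sExt sStab aDep sLd aPres) (sO2 sStab sLog aPres)
    (sO3 sInd sLd (sHt sKei) aPres aDimt) (sUp sEmb sInd)

theorem aCore : SCore :=
  sCore (sBld (sSt3 sThree)) sMl (sEmbd sEmb sExt sStab sHom) aAlgp sSr (sClr sHom)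
    (sBad sCov sLoc sLoc2) sJen

theorem aKl : SKl :=
  sKl sAlgK (sTank sEmb sExt sLin) (sPi sTame)
    (sPrim sArc sUnr (sPf sEmb sExt sInd aDimt sKei) sKei)

theorem aGood : SGood := sGood aKl (sKalg sExt sHom) sLfe sDerb sGdisc aCore sThree

theorem semiAb (t a M n : ℕ) (w : Fin M → Option (Fin t)) (ϑ : (Fin a → ℂ) → Fin M → ℂ)
    (hG : SemiAb w ϑ) (U : Set (PS n)) (hU : IsVar U) (K : Type) [Field K] [Algebra ℂ K]
    (z : Fin n → K) (hz : GenPt U z) (u : Fin M → K)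
    (hu : ∀ (F : MvPolynomial (Fin M) ℂ) (d : ℕ), F.IsHomogeneous d →
      (∀ s α, eval (Th w ϑ s α) F = 0) → aeval u F = 0)
    (hr : ∀ x ∈ U, ∀ o, ∃ b, w b = o ∧ u b ≠ 0 ∧ ∀ c, u c / u b ∈ locRing z x)
    (hf : Algebra.IsAlgebraic (IntermediateField.adjoin ℂ {x | ∃ c b, x = u c / u b}) K)
    (h4 : LogGT U z) : PseudoKob U :=
  main aGeo aGood hG ⟨hU, hz, fun F d a b => hu F d a fun s α => by
    simpa [TH] using b (Fin.append s α), hr, hf⟩ h4

end Pool.Agent.MP_c69980_ag.H43
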