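import Pool.Agent.MP_c69980_ag.H43.Main
import Pool.Agent.MP_c69980_ag.S9.Down
import Pool.Agent.MP_c69980_ag.S74.GKk
import Pool.Agent.MP_c69980_ag.S31.GKval
import Pool.Agent.MP_c69980_ag.S97.GKrig
import Pool.Agent.MP_c69980_ag.S68.GKsub
import Pool.Agent.MP_c69980_ag.S35.Cd
import Pool.Agent.MP_c69980_ag.S41.Cv1
import Pool.Agent.MP_c69980_ag.S71.Cv2
import Pool.Agent.MP_c69980_ag.S36.ArcP
import Pool.Agent.MP_c69980_ag.S45.VelF
import Pool.Agent.MP_c69980_ag.S14.HtBd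
import Pool.Agent.MP_c69980_ag.S84.RelK
import Pool.Agent.MP_c69980_ag.S71.Pull
import Pool.Agent.MP_c69980_ag.S71.Ult
import Pool.Agent.MP_c69980_ag.S58.O2F
import Pool.Agent.MP_c69980_ag.S26.FewF
import Pool.Agent.MP_c69980_ag.S29.FinF
import Pool.Agent.MP_c69980_ag.S42.BadF
import Pool.Agent.MP_c69980_ag.S10.Param
import Pool.Agent.MP_c69980_ag.S63.Trf
import Pool.Agent.MP_c69980_ag.S12.DerL
import Pool.Agent.MP_c69980_ag.S85.RigF
import Pool.Agent.MP_c69980_ag.S12.RedC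
import Pool.Agent.MP_c69980_ag.S12.A1
import Pool.Agent.MP_c69980_ag.S17.A2
import Pool.Agent.MP_c69980_ag.S45.Dual
import Pool.Agent.MP_c69980_ag.S80.Norm
import Pool.Agent.MP_c69980_ag.S73.Noe0
import Pool.Agent.MP_c69980_ag.S9.Noe
import Pool.Agent.MP_c69980_ag.S5.Wv
import Pool.Agent.MP_c69980_ag.S88.W
import Pool.Agent.MP_c69980_ag.S58.Iit
import Pool.Agent.MP_c69980_ag.S57.BigC
import Pool.Agent.MP_c69980_ag.S82.DvS
import Pool.Agent.MP_c69980_ag.S22.Span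
import Pool.Agent.MP_c69980_ag.S46.Dom
import Pool.Agent.MP_c69980_ag.S71.Tay
import Pool.Agent.MP_c69980_ag.S71.Jet
import Pool.Agent.MP_c69980_ag.S71.Ten
import Pool.Agent.MP_c69980_ag.S75.AddP
import Pool.Agent.MP_c69980_ag.S18.Tw
import Pool.Agent.MP_c69980_ag.S93.H0
import Pool.Agent.MP_c69980_ag.S15.Pole
import Pool.Agent.MP_c69980_ag.S39.IndP
import Pool.Agent.MP_c69980_ag.S54.Zero
import Pool.Agent.MP_c69980_ag.S35.Ord
import Pool.Agent.MP_c69980_ag.S68.Cnt2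
import Pool.Agent.MP_c69980_ag.S74.Kill
import Pool.Agent.MP_c69980_ag.S84.Fil
import Pool.Agent.MP_c69980_ag.S85.Many

/-!
Assembly of the statements on curves and of the algebraic foliation.
-/

set_option autoImplicit false

namespace Pool.Agent.MP_c69980_ag.H43

open MvPolynomial H60 Metric Filter Topology Set Real

theorem aDown : SDown := sDown sEmb sExt

theorem aGK {t a M : ℕ} {w : Fin M → Option (Fin t)} {Θ : Pt t a → Fin M → ℂ} {PP : PT M t a}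
    (g : GA w Θ) (h : Ev (GD w Θ PP)) : GK w Θ PP :=
  ⟨(sGKk aDown sLin _ _ _ w Θ PP h).1, (sGKk aDown sLin _ _ _ w Θ PP h).2,
    sGKval aDown sEmb _ _ _ w Θ PP h, sGKrig aDown sLin _ _ _ w Θ PP h,
    sGKsub aDown _ _ _ w Θ PP g h⟩

theorem aHtBd : SHtBd := sHtBd sCd

theorem aA1 : SA1 :=
  sA1 aKl (sKalg sExt sHom) (sCoreF (sUlt sEmb sExt) aAlgp sO2F sFewF sFinF)
    (sBadF sArcP sRelK aHtBd) (sPull aHtBd) (sCv1 aHtBd) sCd sVelF aHtBd sRelK

theorem aA2 : SA2 :=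
  sA2 sRedC (sCv1 aHtBd) aHtBd sRelK (sPull aHtBd) (sRigF sCd sVelF sParam (sTrf sEmb) sDerL)

theorem aB0 : SB0 :=
  sB0 (sTank sEmb sExt sLin) (sW sDual sNorm (sNoe sNoe0) sWv) (sIit sLin)
    (sBigC (sMany (sDvS sNoe0 sTame) sSpan (sPole sH0 sTay sAddP sTw) sTay
      (sIndP sDom sJet sTen sAddP) sTw sOrd sZero sCnt2) sFil sKill sHilb)

variable {n : ℕ} {U : Set (PS n)}

lemma kob_zero {f : ℂ → PS n} (hf : Holo univ f) (hU : range f ⊆ U) (s t : ℂ) :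
    kob U (f s) (f t) = 0 := by
  have key : ∀ a : ℝ, 0 < a → a < 1 → kob U (f s) (f t) ≤ ENNReal.ofReal (artanh a) :=
    fun a a0 a1 => by
    have a2 : (a : ℂ) ≠ 0 := Complex.ofReal_ne_zero.2 a0.ne'
    have n1 : ‖(a : ℂ)‖ = a := by simp [a0.le]
    refine sInf_le ⟨1, fun i => if i = 0 then f s else f t, fun _ w => f (s + (t - s) / a * w),
      fun _ => a, by simp, by simp, fun i hi => ⟨fun w _ => ?_, fun w _ => hU ⟨_, rfl⟩,
        n1.trans_lt a1, ?_, ?_⟩, by simp [abs_of_pos a0]⟩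
    · obtain ⟨g, g1, g2⟩ := hf (s + (t - s) / a * w) trivial
      have c : AnalyticAt ℂ (fun w : ℂ => s + (t - s) / a * w) w := by fun_prop
      exact ⟨fun w => g (s + (t - s) / a * w),
        AnalyticAt.comp (f := fun w : ℂ => s + (t - s) / a * w) g1 c, c.continuousAt.eventually g2⟩
    · simp [Nat.lt_one_iff.1 hi]
    · simp [a2]
  refine le_antisymm (le_of_forall_gt_imp_ge_of_dense fun c hc => ?_) zero_le
  obtain ⟨r, -, r1, r2⟩ := ENNReal.lt_iff_exists_real_btwn.1 hc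
  have r0 := ENNReal.ofReal_pos.1 r1
  have := key (tanh r)
    (by rw [tanh_eq_sinh_div_cosh]; exact div_pos (sinh_pos_iff.2 r0) (cosh_pos r)) (tanh_lt_one r)
  rw [artanh_tanh] at this
  exact this.trans r2.le

theorem brody_of_kob (h : PseudoKob U) : H4.PseudoBrody U := by
  obtain ⟨Δ, h1, h2, h3⟩ := h
  refine ⟨Δ, h1, h2, fun f f1 f2 ⟨a, b, hab⟩ => ?_⟩
  rintro _ ⟨s, rfl⟩
  by_contra hn
  obtain ⟨t, ht⟩ : ∃ t, f s ≠ f t := by
    by_contra q
    push Not at q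
    exact hab ((q a).symm.trans (q b))
  exact (h3 _ (f2 ⟨s, rfl⟩) _ (f2 ⟨t, rfl⟩) ht fun q => hn q.1).ne' (kob_zero f1 f2 s t)

end Pool.Agent.MP_c69980_ag.H43
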