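import Pool.Agent.MP_c69980_ag.H43.MainA
import Pool.Agent.MP_c69980_ag.S1.LdK
import Pool.Agent.MP_c69980_ag.S10.LocS
import Pool.Agent.MP_c69980_ag.S13.Avoid
import Pool.Agent.MP_c69980_ag.S14.RatP
import Pool.Agent.MP_c69980_ag.S16.Dsc
import Pool.Agent.MP_c69980_ag.S22.Grow
import Pool.Agent.MP_c69980_ag.S26.Fib
import Pool.Agent.MP_c69980_ag.S29.Leaf
import Pool.Agent.MP_c69980_ag.S37.Thin
import Pool.Agent.MP_c69980_ag.S41.LocA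
import Pool.Agent.MP_c69980_ag.S42.PrE
import Pool.Agent.MP_c69980_ag.S45.Nml
import Pool.Agent.MP_c69980_ag.S49.Chain
import Pool.Agent.MP_c69980_ag.S50.Root
import Pool.Agent.MP_c69980_ag.S51.Lift
import Pool.Agent.MP_c69980_ag.S52.IndN
import Pool.Agent.MP_c69980_ag.S55.EtC
import Pool.Agent.MP_c69980_ag.S66.B2
import Pool.Agent.MP_c69980_ag.S68.B3
import Pool.Agent.MP_c69980_ag.S77.EtK
import Pool.Agent.MP_c69980_ag.S84.Curve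
import Pool.Agent.MP_c69980_ag.S88.Desc
import Pool.Agent.MP_c69980_ag.S92.Rat
import Pool.Agent.MP_c69980_ag.S93.GDs
import Pool.Agent.MP_c69980_ag.S99.Conn
import Pool.Agent.MP_c69980_ag.S72.FinI
import Pool.Agent.MP_c69980_ag.S40.Mono
import Pool.Agent.MP_c69980_ag.S44.Flw
import Pool.Agent.MP_c69980_ag.S18.DivT

/-!
The equivalence of the five conditions.
-/

set_option autoImplicit false

namespace Pool.Agent.MP_c69980_ag.H43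

open MvPolynomial H60

theorem aRat : SRat := sRat (sFib sArcP) sGrow sArcP

theorem aConn : SConn := sConn (sFib sArcP) aRat

theorem aB2 : SB2 := sB2 (sAvoid sThin) sRelK sDisc

theorem aB3 : SB3 :=
  sB3 (sCurve aDimt aPres sStab sInd) (sLift sChain aConn sArcP sCd) (sRatP aRat aConn sArcP)
    (sAvoid sThin) (sIndN sInd) (sCv1 aHtBd) sCv2 sRelK sDisc

variable {t a M n : ℕ} {w : Fin M → Option (Fin t)} {Θ : Pt t a → Fin M → ℂ} {PP : PT M t a}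
  {K : Type} [Field K] [Algebra ℂ K] {U : Set (PS n)} {z : Fin n → K} {u : Fin M → K}

/-- The periodic lift of a leaf. -/
theorem flow (g : GA w Θ) (gd : Ev (GD w Θ PP)) (h : Mp w Θ U z u)
    (hS : Snc U z) (h4 : ¬ LogGT U z) {Δ : Set (PS n)} (hΔ : IsZClosed Δ)
    (hU : ¬ U ⊆ Δ) : ∃ (R : PR n) (k F : Subfield ℂ) (p₀ : Pt t a) (m : ℕ)
      (lam : Fin (m + 1) → Pt t a) (δ : Fin (m + 1) → Der) (f : (Fin (m + 1) → ℂ) → PS n) (N : ℕ),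
      (∀ x ∈ Δ, eval x.rep R = 0) ∧ Flw w Θ PP U z u R k F p₀ lam δ f N := by
  have gk := aGK g gd
  obtain ⟨S, s1, rfl⟩ := hΔ
  obtain ⟨x, x1, x2⟩ := Set.not_subset.1 hU
  simp only [Set.mem_ofPred_eq, not_forall] at x2
  obtain ⟨R, r1, r2⟩ := x2
  obtain ⟨e, he⟩ := s1 R r1
  have r3 : aeval z R ≠ 0 := fun q => r2 ((h.gen.1 R e he).1 q x x1)
  have z0 : z ≠ 0 := fun q => x.rep_nonzero (funext fun j => by
    simpa using (h.gen.1 (X j) 1 (isHomogeneous_X _ _)).1 (by simp [q]) x x1)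
  obtain ⟨F, r, lam, d, f, c, b⟩ := aB0 _ _ _ _ w Θ PP K U z u g.toGA1 gd gk h hS h4
  obtain ⟨F', m, lam', d', f', l⟩ := sLeaf sLin _ _ _ w Θ PP K u F r lam d f c gk b.toBX b.cF b.c0
  have et := sEtK (sNoe sNoe0) (sGDs aDown (sDs aAm sInd aPres sLd)) (sDivT sKei) _ _ _ _ w Θ PP K U
    z u F F' r m lam d f c lam' d' f' gd gk b l
  obtain ⟨s, s2, s3⟩ := ev_cf R
  obtain ⟨k, F₀, L, p₀, δ, z₀, k1, ec⟩ := sDesc aDown sLdK sStab _ _ _ _ w Θ PP K U z u F' m lam'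
    d' f' s gd gk z0 et s2
  have sp : ∀ s, SpH F₀ (Θ p₀) (Θ (qq p₀ lam' s)) := fun s A d a1 a2 a3 =>
    flow_core g.toGA1 ec.gd.der (fun β i x => (ec.gd.cf β i x).mono ec.le)
      (fun l i => ec.le (ec.axo.mem l i)) (fun l => ⟨ec.axo.kill l, ec.axo.tan l⟩) a1 a2 a3
      ((Submodule.mem_span_range_iff_exists_fun ℂ).2 ⟨s, by simp [qq]⟩)
  have le : FL F₀ (Θ p₀) ≤ L := by
    obtain ⟨T, -, e⟩ := ec.fin
    exact e ▸ fun x hx => Subfield.subset_closure (Or.inl hx)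
  obtain ⟨φ, N, fl⟩ := sFlw sMono (sLocA sHom) sInd _ _ _ _ w Θ PP K U z u k F₀ L p₀ m lam' δ z₀ R e
    g h ec sp
    (sLocS (sLocA sHom) sRoot _ _ _ w Θ F₀ L p₀ _ lam' g.toGA1 le sp
      (sEtC sNml sDsc sPrE sFinI (sVs aAm sInd aPres aDimt) aPres _ _ _ _ w Θ PP K U z u k F₀ L p₀
        m lam' δ z₀ ec)) he (s3 k k1) r3
  exact ⟨R, k, F₀, p₀, m, lam', δ, φ, N, fun x hx => hx R r1, fl⟩

theorem tfae {ϑ : (Fin a → ℂ) → Fin M → ℂ} (hG : SemiAb w ϑ) (h : Mp w (TH w ϑ) U z u)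
    (hS : Snc U z) :
    List.TFAE [PseudoKob U, H4.PseudoBrody U, PseudoFin U, LogGT U z, H4.PseudoBdd U] := by
  obtain ⟨g1, -, g3, PP, g4⟩ := aGeo _ _ _ w ϑ hG
  have gk := aGK g1 g4
  tfae_have 4 → 1 := main aGeo aGood hG h
  tfae_have 1 → 2 := brody_of_kob
  tfae_have 4 → 5 := aA1 _ _ _ _ w _ PP K U z u g4 gk h
  tfae_have 5 → 3 := aA2 _ _ _ _ w _ PP K U z u gk h
  tfae_have 2 → 4 := fun ⟨Δ, d1, d2, d3⟩ => by_contra fun h4 => by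
    obtain ⟨R, k, F, p₀, m, lam, δ, f, N, r, fl⟩ := flow g1 g4 h hS h4 d1 d2
    obtain ⟨φ, a1, a2, a3, s, a4⟩ := aB2 _ _ _ _ w _ PP K U z u R k F p₀ m lam δ f N g1 h fl
    exact a4 (r _ (d3 φ a1 a2 a3 ⟨s, rfl⟩))
  tfae_have 3 → 4 := fun ⟨Δ, d1, d2, d3⟩ => by_contra fun h4 => by
    obtain ⟨R, k, F, p₀, m, lam, δ, f, N, r, fl⟩ := flow g1 g4 h hS h4 d1 d2
    obtain ⟨m', Y, y, x, a1, a2, a3, a4⟩ :=
      aB3 _ _ _ _ w _ PP K U z u R k F p₀ m lam δ f N g1 g3 h fl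
    exact a4 (d3 m' Y a1 y x ⟨a2, fun q => a3 (r x q)⟩)
  tfae_finish

end Pool.Agent.MP_c69980_ag.H43
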