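import Pool.Agent.MP_c69980_ag.H43.Base

/-!
Statements of the general algebraic lemmas.
-/

set_option autoImplicit false

namespace Pool.Agent.MP_c69980_ag.H43

open MvPolynomial H60 Finset

/-- Embedding of domains into `ℂ` over a countable subfield; extension of embeddings. -/
def SEmb : Prop :=
  (∀ (F : Subfield ℂ), Countable F → ∀ (A : Type) [CommRing A] [IsDomain A] [Algebra F A],
    Cardinal.mk A ≤ Cardinal.continuum → ∃ φ : A →ₐ[F] ℂ, Function.Injective φ) ∧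
  ∀ (F : Subfield ℂ), Countable F → ∀ ψ : F →+* ℂ, ∃ σ : ℂ →+* ℂ, ∀ x : F, σ x = ψ x

/-- Extension of derivations to `ℂ`; derivations with prescribed values. -/
def SExt : Prop :=
  (∀ (A : Type) [CommRing A] (φ : A →+* ℂ) (d : A →+ ℂ),
    (∀ x y, d (x * y) = φ x * d y + φ y * d x) → (∀ x, φ x = 0 → d x = 0) →
    ∃ D : Der, ∀ x, D (φ x) = d x) ∧
  ∀ (F : Subfield ℂ) (ι : Type) (b : ι → ℂ), AlgebraicIndependent F b → ∀ v : ι → ℂ,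
    ∃ D : Der, Kill F D ∧ ∀ i, D (b i) = v i

/-- Derivations on generated fields and on algebraic extensions. -/
def SStab : Prop := ∀ D : Der,
  (∀ (s : Set ℂ) (L : Subfield ℂ), s ⊆ L → (∀ x ∈ s, D x ∈ L) →
    ∀ x ∈ L, IsAlgebraic (Subfield.closure s) x → D x ∈ L) ∧
  (∀ s : Set ℂ, (∀ x ∈ s, D x = 0) → ∀ x, IsAlgebraic (Subfield.closure s) x → D x = 0) ∧
  ∀ (F : Subfield ℂ) (ι : Type) (x : ι → ℂ) (S : Subring ℂ), (∀ c ∈ F, c ∈ S ∧ D c ∈ S) →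
    (∀ i, x i ∈ S ∧ D (x i) ∈ S) → ∀ u ∈ RA F x, D u ∈ S

/-- Calculus of transcendence degrees. -/
structure SInd : Prop where
  alg : ∀ (F : Subfield ℂ) (n : ℕ) (s : Set ℂ),
    Ind F n {x | IsAlgebraic (Subfield.closure (F ∪ s : Set ℂ)) x} → Ind F n s
  tower : ∀ (F F' : Subfield ℂ) (m n : ℕ) (s s' : Set ℂ), F ≤ F' → s ⊆ F' → Ind F m s →
    Ind F' n s' → Ind F (m + n) (s ∪ s')
  bound : ∀ (F F' : Subfield ℂ) (m n : ℕ) (s : Set ℂ), F ≤ F' → ¬ Ind F (m + 1) F' →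
    ¬ Ind F' (n + 1) s → ¬ Ind F (m + n + 1) s
  hom : ∀ (F : Subfield ℂ) (R : Subalgebra F ℂ) (ξ : R →ₐ[F] ℂ) (n : ℕ),
    Ind F n (Set.range ξ) → Ind F n R ∧ ∀ u : R, u ≠ 0 → ξ u = 0 → Ind F (n + 1) R
  base : ∀ (F F' : Subfield ℂ) (n : ℕ) (s : Set ℂ), F ≤ F' → (∀ x ∈ F', IsAlgebraic F x) →
    Ind F n s → Ind F' n s
  max : ∀ (F : Subfield ℂ) (N : ℕ) (s : Set ℂ), ¬ Ind F (N + 1) s →
    ∃ (n : ℕ) (y : Fin n → ℂ), n ≤ N ∧ ¬ Ind F (n + 1) s ∧ (∀ i, y i ∈ s) ∧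
      AlgebraicIndependent F y ∧
      ∀ x ∈ s, IsAlgebraic (Subfield.closure (F ∪ Set.range y : Set ℂ)) x
  fin : ∀ (F : Subfield ℂ) (s : Set ℂ), s.Finite → ∃ N, ¬ Ind F (N + 1) s
  gen : ∀ (F : Subfield ℂ) (n : ℕ) (ι : Type) (x : ι → ℂ) (ξ : RA F x →ₐ[F] ℂ),
    (Ind F n (RA F x) → Ind F n (Set.range x)) ∧
    (Ind F n (Set.range ξ) → Ind F n (Set.range fun i => ξ ⟨x i, gen_mem x i⟩))

/-- More derivations than the transcendence degree are linearly dependent. -/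
def SDep : Prop := ∀ (F : Subfield ℂ) (n : ℕ) (s : Set ℂ) (D : Fin (n + 1) → Der),
  ¬ Ind F (n + 1) s → (∀ l, Kill F (D l)) →
  ∃ c : Fin (n + 1) → ℂ, c ≠ 0 ∧ ∀ x ∈ s, ∑ l, c l * D l x = 0

/-- Linear algebra over a subfield. -/
def SLin : Prop := ∀ (K : Type) [Field K] (L : Subfield K),
  (∀ (ι κ : Type) [Fintype ι] (A : κ → ι → K) (b : κ → K) (v : ι → K), (∀ x i, A x i ∈ L) →
    (∀ x, b x ∈ L) → (∀ x, ∑ i, v i * A x i = b x) →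
    (∀ v' : ι → K, (∀ x, ∑ i, v' i * A x i = 0) → v' = 0) → ∀ i, v i ∈ L) ∧
  ∀ (n g : ℕ) (v : Fin n → Fin g → K), LinearIndependent K v → (∀ l i, v l i ∈ L) →
    ∃ (J : Fin n → Fin g) (B : Fin n → Fin n → K), (∀ j l, B j l ∈ L) ∧
      ∀ j m, ∑ l, B j l * v l (J m) = if j = m then 1 else 0

/-- Constants are linearly disjoint from a differential subfield. -/
def SLd : Prop := ∀ (Δ : Set Der) (L F : Subfield ℂ), (∀ D ∈ Δ, Pres D L) → F ≤ L →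
  (∀ x ∈ L, (∀ D ∈ Δ, D x = 0) → x ∈ F) → ∀ (ι : Type) (x : ι → ℂ), AlgebraicIndependent F x →
  ((∀ i, ∀ D ∈ Δ, D (x i) = 0) → AlgebraicIndependent L x) ∧
  ((∀ i, x i ∈ L) →
    AlgebraicIndependent (Subfield.closure (F ∪ {c | ∀ D ∈ Δ, D c = 0} : Set ℂ)) x)

/-- The largest stable ideal inside a prime ideal is prime; independence modulo primes. -/
def SKei : Prop :=
  (∀ (A : Type) [CommRing A] (ι : Type) (d : ι → A →+ A), (∀ i, Leib (d i)) →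
    (∀ n : ℕ, IsUnit ((n : A) + 1)) → ∀ p : Ideal A, p.IsPrime →
    ∃ q : Ideal A, q.IsPrime ∧ q ≤ p ∧ (∀ i, ∀ x ∈ q, d i x ∈ q) ∧
      ∀ I : Ideal A, (∀ i, ∀ x ∈ I, d i x ∈ I) → I ≤ p → I ≤ q) ∧
  ∀ (F A : Type) [Field F] [CommRing A] [Algebra F A] (p q : Ideal A), p.IsPrime → p ≤ q →
    ∀ (n : ℕ) (y : Fin n → A), (∀ H : MvPolynomial (Fin n) F, aeval y H ∈ q → H = 0) →
    ∀ a ∈ q, a ∉ p → ∀ H : MvPolynomial (Fin (n + 1)) F,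
      aeval (Fin.cons a y : Fin (n + 1) → A) H ∈ p → H = 0

/-- Differential specialisations with values in `ℂ`, compatible with a given differential field. -/
def SAm : Prop := ∀ (F L : Subfield ℂ) (R : Subalgebra F ℂ) (ι : Type) (D : ι → Der), F ≤ L →
  Countable L → Countable R → (∀ i, Pres (D i) F ∧ Pres (D i) L ∧ Pres (D i) R) →
  ∀ I : Ideal R, I ≠ ⊤ → (∀ i, ∀ x ∈ I, ∀ y : R, (y : ℂ) = D i x → y ∈ I) →
  ∃ (φ : R →ₐ[F] ℂ) (D' : ι → Der), (∀ x ∈ I, φ x = 0) ∧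
    ∀ i, (∀ x ∈ L, D' i x = D i x) ∧ ∀ x y : R, (y : ℂ) = D i x → D' i (φ x) = φ y

/-- Logarithmic derivatives in a field generated by exponentials. -/
def SLog : Prop := ∀ (D E : Der) (N : Subfield ℂ) (ι : Type) (η : ι → ℂ) (V : ValuationSubring ℂ),
  Pres D N → Pres E N →
  (∀ x ∈ Subfield.closure (N ∪ Set.range η : Set ℂ), D x = 0 → x ∈ N) →
  (∀ j, η j ≠ 0 ∧ D (η j) / η j ∈ N ∧ E (η j) / η j ∈ N) → (∀ x ∈ N, x ∈ V) →
  (∀ x ∈ Subfield.closure (N ∪ Set.range η : Set ℂ), D x / x ∈ V) →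
  ∀ x ∈ Subfield.closure (N ∪ Set.range η : Set ℂ), E x / x ∈ V

/-- A reduced divisor tangent to `D` is invariant under `D`. -/
def SHt : Prop := ∀ (F : Subfield ℂ) (R : Subalgebra F ℂ) (D E : Der) (ξ : R →ₐ[F] ℂ) (n : ℕ),
  Pres D R → Pres E R → Ind F n (Set.range ξ) → ¬ Ind F (n + 2) R →
  ∀ f f₁ f₂ : R, (f₁ : ℂ) = D f → (f₂ : ℂ) = E f → ξ f = 0 → ξ f₁ = 0 → ξ f₂ ≠ 0 →
  ∀ x y : R, ξ x = 0 → (y : ℂ) = D x → ξ y = 0

/-- Upper bound for a Hilbert function. -/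
def SHilb : Prop := ∀ (F A ι : Type) [Field F] [CommRing A] [Algebra F A] [Fintype ι] (x : ι → A)
  (d : ℕ), (∀ y : Fin (d + 1) → ι, ∃ H : MvPolynomial (Fin (d + 1)) F, H ≠ 0 ∧
    aeval (x ∘ y) H = 0) → ∃ C : ℕ, ∀ N : ℕ, Module.finrank F
      ((restrictTotalDegree ι F N).map (aeval x : MvPolynomial ι F →ₐ[F] A).toLinearMap) ≤
        C * (N + 1) ^ d

/-- Functions of small degree vanishing to high order, along `D`, on a set of codimension two. -/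
def SCnt : Prop := ∀ (F : Subfield ℂ) (D : Der) (ι : Type) [Fintype ι] (x : ι → ℂ) (s : Set ℂ)
  (p : ℕ), Countable F → Pres D F → Pres D (RA F x) → s ⊆ RA F x → Ind F p (Set.range x) →
  (∀ ξ : RA F x →ₐ[F] ℂ, (∀ u : RA F x, (u : ℂ) ∈ s → ξ u = 0) →
    ∀ n, Ind F n (Set.range ξ) → n + 2 ≤ p) →
  ∀ lam : ℕ, ∃ (n l : ℕ) (Φ : MvPolynomial ι ℂ), Cf F Φ ∧ Φ.totalDegree ≤ n ∧ eval x Φ ≠ 0 ∧
    0 < l ∧ lam * n ≤ l ∧ ∀ j < l, D^[j] (eval x Φ) ∈ Submodule.span (RA F x) s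

/-- Logarithmic derivations stay logarithmic on algebraic extensions (residue characteristic 0). -/
def STame : Prop := ∀ (K : Type) [Field K] [Algebra ℂ K] [IsAlgClosed K] (V : ValuationSubring K)
  (E : Derivation ℂ K K) (F : Subfield K), (∀ c, algebraMap ℂ K c ∈ V) →
  (∀ x ∈ F, E x / x ∈ V) → ∀ x, IsAlgebraic F x → E x / x ∈ V

/-- Homogenisation. -/
def SHom : Prop := ∀ (M : ℕ) (ι : Type) [Fintype ι] (c b : ι → Fin M) (P : MvPolynomial ι ℂ)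
  (N : ℕ), P.totalDegree ≤ N → ∃ H : PR M, H.IsHomogeneous (N * Fintype.card ι) ∧
    (∀ k, Cf k P → Cf k H) ∧ ∀ (A : Type) [Field A] [Algebra ℂ A] (y : Fin M → A),
      (∀ i, y (b i) ≠ 0) → aeval y H = (∏ i, y (b i)) ^ N * aeval (fun i => y (c i) / y (b i)) P

end Pool.Agent.MP_c69980_ag.H43
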