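import Pool.Agent.MP_c69980_ag.H43.Spec8

/-!
From the algebraic foliation to entire curves and to infinitely many pointed maps: statements.
-/

set_option autoImplicit false

namespace Pool.Agent.MP_c69980_ag.H43

open MvPolynomial H60 Finset Filter Topology Metric

section Abs
variable {t a M n : ℕ} {K : Type} [Field K] [Algebra ℂ K]

/-- `R` has no nontrivial ideal stable under `δ`. -/
def SimK {F : IntermediateField ℂ K} (R : Subalgebra F K) (δ : K → K) : Prop :=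
  ∀ I : Ideal R, (∀ x ∈ I, ∀ y : R, (y : K) = δ x → y ∈ I) → I = ⊥ ∨ I = ⊤

/-- The smallest algebraic foliation that contains the vector field `∑ c l • d l`. -/
structure LfK (w : Fin M → Option (Fin t)) (Θ : Pt t a → Fin M → ℂ) (PP : PT M t a) (u : Fin M → K)
    (F : IntermediateField ℂ K) {r : ℕ} (d : Fin (r + 1) → Derivation ℂ K K) (c : Fin (r + 1) → K)
    (F' : IntermediateField ℂ K) {m : ℕ} (lam' : Fin (m + 1) → Pt t a)
    (d' : Fin (m + 1) → Derivation ℂ K K) (f' : Fin (m + 1) → K) : Prop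
    extends BX w Θ PP u F' lam' d' f' where
  le : F ≤ F'
  ker : ∀ x, x ∈ F' ↔ ∑ l, c l * d l x = 0
  comb : ∀ j, ∃ e : Fin (r + 1) → ℂ, ∀ x, d' j x = ∑ l, e l • d l x

/-- Where `b` does not vanish the point `z` is regular and lies in `U`; `S` is the coordinate ring. -/
structure Wit (U : Set (PS n)) (z : Fin n → K) (S : Set K) (b : K) (H : PR n) (e : ℕ) (j : Fin n) :
    Prop where
  hom : H.IsHomogeneous e
  inU : ∀ y ∈ zcl U, eval y.rep H ≠ 0 → y ∈ U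
  j0 : z j ≠ 0
  H0 : aeval z H ≠ 0
  bS : b ∈ S
  zS : ∀ i, b * (z i / z j) ∈ S
  HS : b * (z j ^ e / aeval z H) ∈ S

/-- The cover of the generic leaf is unramified, and lies in `U` in codimension one. -/
structure EtK (w : Fin M → Option (Fin t)) (Θ : Pt t a → Fin M → ℂ) (PP : PT M t a) (U : Set (PS n))
    (z : Fin n → K) (u : Fin M → K) (F : IntermediateField ℂ K) {m : ℕ} (lam : Fin (m + 1) → Pt t a)
    (d : Fin (m + 1) → Derivation ℂ K K) (f : Fin (m + 1) → K) : Prop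
    extends BX w Θ PP u F lam d f where
  pres : ∀ β, Ch w β u → ∀ l x, IsIntegral (RF F (co β u)) x → IsIntegral (RF F (co β u)) (d l x)
  cod : ∀ β, Ch w β u → ∀ y : Fin m → CI M t, ∃ (P : MvPolynomial (Fin m) F) (N : ℕ)
    (ρ b : Fin N → K) (H : Fin N → PR n) (e : Fin N → ℕ) (j : Fin N → Fin n), P ≠ 0 ∧
      aeval (co β u ∘ y) P = ∑ i, ρ i * b i ∧ ∀ i, IsIntegral (RF F (co β u)) (ρ i) ∧
        Wit U z {x | IsIntegral (RF F (co β u)) x} (b i) (H i) (e i) (j i)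

end Abs

def SLeaf : Prop := ∀ (t a M : ℕ) (w : Fin M → Option (Fin t)) (Θ : Pt t a → Fin M → ℂ)
  (PP : PT M t a) (K : Type) [Field K] [Algebra ℂ K] (u : Fin M → K) (F : IntermediateField ℂ K)
  (r : ℕ) (lam : Fin (r + 1) → Pt t a) (d : Fin (r + 1) → Derivation ℂ K K)
  (f c : Fin (r + 1) → K), GK w Θ PP → BX w Θ PP u F lam d f → (∀ l, c l ∈ F) → c ≠ 0 →
  ∃ (F' : IntermediateField ℂ K) (m : ℕ) (lam' : Fin (m + 1) → Pt t a)
    (d' : Fin (m + 1) → Derivation ℂ K K) (f' : Fin (m + 1) → K), LfK w Θ PP u F d c F' lam' d' f'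

/-- A vector field with constant velocity and no new constants has no invariant subvariety. -/
def SGDs : Prop := ∀ (t a M : ℕ) (w : Fin M → Option (Fin t)) (Θ : Pt t a → Fin M → ℂ)
  (PP : PT M t a) (K : Type) [Field K] [Algebra ℂ K] (u : Fin M → K) (F : IntermediateField ℂ K)
  (D : Derivation ℂ K K) (g : Fin (t + a) → K) (β : Cht M t), Ev (GD w Θ PP) → OnG w Θ u →
  (∀ i, g i ∈ F) → Vel w PP D u g → (∀ x, x ∈ F ↔ D x = 0) → Ch w β u → SimK (RF F (co β u)) D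

/-- A divisor of the small leaf sweeps out a divisor of the large leaf. -/
def SDivT : Prop := ∀ (t a M : ℕ) (w : Fin M → Option (Fin t)) (Θ : Pt t a → Fin M → ℂ)
  (PP : PT M t a) (K : Type) [Field K] [Algebra ℂ K] (u : Fin M → K) (F F' : IntermediateField ℂ K)
  (r m : ℕ) (lam : Fin (r + 1) → Pt t a) (d : Fin (r + 1) → Derivation ℂ K K)
  (f c : Fin (r + 1) → K) (lam' : Fin (m + 1) → Pt t a) (d' : Fin (m + 1) → Derivation ℂ K K)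
  (f' : Fin (m + 1) → K) (β : Cht M t) (V : ValuationSubring K) (y' : Fin m → CI M t),
  GK w Θ PP → BX w Θ PP u F lam d f → (∀ l, c l ∈ F) → LfK w Θ PP u F d c F' lam' d' f' →
  SimK (RF F' (co β u)) (fun x => ∑ l, c l * d l x) → DvF w u F' β V y' →
  (∃ h ∈ RF F' (co β u), h ≠ 0 ∧ V.valuation h < 1) → ∃ y : Fin r → CI M t, DvF w u F β V y

def SEtK : Prop := ∀ (t a M n : ℕ) (w : Fin M → Option (Fin t)) (Θ : Pt t a → Fin M → ℂ)
  (PP : PT M t a) (K : Type) [Field K] [Algebra ℂ K] (U : Set (PS n)) (z : Fin n → K)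
  (u : Fin M → K) (F F' : IntermediateField ℂ K) (r m : ℕ) (lam : Fin (r + 1) → Pt t a)
  (d : Fin (r + 1) → Derivation ℂ K K) (f c : Fin (r + 1) → K) (lam' : Fin (m + 1) → Pt t a)
  (d' : Fin (m + 1) → Derivation ℂ K K) (f' : Fin (m + 1) → K), Ev (GD w Θ PP) → GK w Θ PP →
  B0 w Θ PP U z u F lam d f c → LfK w Θ PP u F d c F' lam' d' f' → EtK w Θ PP U z u F' lam' d' f'

/-- Constants are linearly disjoint from a differential subfield. -/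
def SLdK : Prop := ∀ (K : Type) [Field K] (ι : Type) (d : ι → Derivation ℤ K K) (L : Subfield K),
  (∀ l, ∀ x ∈ L, d l x ∈ L) → ∀ (N : ℕ) (s a : Fin N → K) (v : K), (∀ i, s i ∈ L) → v ∈ L →
  (∀ i l, d l (a i) = 0) → v = ∑ i, a i * s i →
  ∃ a' : Fin N → K, (∀ i, a' i ∈ L ∧ ∀ l, d l (a' i) = 0) ∧ v = ∑ i, a' i * s i

section Cx
variable {t a M n : ℕ} {K : Type} [Field K] [Algebra ℂ K]

/-- The integral closure of `R` in `L`. -/
def ICs {F : Subfield ℂ} (R : Subalgebra F ℂ) (L : Subfield ℂ) : Set ℂ :=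
  {x | x ∈ L ∧ IsIntegral R x}

/-- Points of the leaf through `p`. -/
noncomputable def qq (p : Pt t a) {m : ℕ} (lam : Fin m → Pt t a) (s : Fin m → ℂ) : Pt t a :=
  p + ∑ l, s l • lam l

/-- The same data as `EtK`, at a complex point `p₀` that is generic over a countable field. -/
structure EtC (w : Fin M → Option (Fin t)) (Θ : Pt t a → Fin M → ℂ) (PP : PT M t a) (U : Set (PS n))
    (z : Fin n → K) (u : Fin M → K) (k F L : Subfield ℂ) (p₀ : Pt t a) {m : ℕ}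
    (lam : Fin (m + 1) → Pt t a) (δ : Fin (m + 1) → Der) (z₀ : Fin n → ℂ) : Prop where
  gd : GD w Θ PP k
  gk : GKk w Θ PP k
  le : k ≤ F
  cnt : Countable F
  axo : Axo Θ k F p₀ lam δ
  fin : ∃ T : Finset ℂ, (∀ x ∈ T, IsAlgebraic (FL F (Θ p₀)) x) ∧
    L = Subfield.closure (FL F (Θ p₀) ∪ T : Set ℂ)
  pk : ∀ l, Pres (δ l) L
  pres : ∀ β, Ch w β (Θ p₀) → ∀ l, Pres (δ l) (ICs (RA F (co β (Θ p₀))) L)
  rel : ∀ H d e, BiH H d e → Cf k H →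
    (aeval (Sum.elim z u) H = 0 ↔ eval (Sum.elim z₀ (Θ p₀)) H = 0)
  gen : ∀ (y : Fin n → ℂ) (y' : Fin M → ℂ), (∀ H d e, BiH H d e → Cf k H →
    aeval (Sum.elim z u) H = 0 → eval (Sum.elim y y') H = 0) → Rel z u y y'
  cod : ∀ β, Ch w β (Θ p₀) → ∀ y : Fin m → CI M t, ∃ (P : MvPolynomial (Fin m) ℂ) (N : ℕ)
    (ρ b : Fin N → ℂ) (H : Fin N → PR n) (e : Fin N → ℕ) (j : Fin N → Fin n), P ≠ 0 ∧ Cf F P ∧
      eval (co β (Θ p₀) ∘ y) P = ∑ i, ρ i * b i ∧ ∀ i, ρ i ∈ ICs (RA F (co β (Θ p₀))) L ∧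
        Cf k (H i) ∧ Wit U z₀ (ICs (RA F (co β (Θ p₀))) L) (b i) (H i) (e i) (j i)

/-- Where `b` does not vanish the integral closure of `R` in `L` is `R[X] / P`. -/
structure EtQ {F : Subfield ℂ} (R : Subalgebra F ℂ) (L : Subfield ℂ) (θ : ℂ) (P : Polynomial R)
    (b : R) : Prop where
  mem : θ ∈ ICs R L
  monic : P.Monic
  root : Polynomial.aeval θ P = 0
  dvd : ∀ Q : Polynomial R, Polynomial.aeval θ Q = 0 → P ∣ Q
  gen : ∀ x ∈ ICs R L, ∃ Q : Polynomial R, b * x = Polynomial.aeval θ Q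

/-- The integral closure of `R` in `L` is etale over `R`. -/
def EtA {F : Subfield ℂ} (R : Subalgebra F ℂ) (L : Subfield ℂ) : Prop :=
  ∀ ξ : R →ₐ[F] ℂ, ∃ θ P b, EtQ R L θ P b ∧ ξ b ≠ 0 ∧ (P.map (ξ : R →+* ℂ)).Separable

/-- `y` is a specialisation of the projective point `y₀` over `F`. -/
def SpH (F : Subfield ℂ) (y₀ y : Fin M → ℂ) : Prop :=
  ∀ (A : PR M) (d : ℕ), A.IsHomogeneous d → Cf F A → eval y₀ A = 0 → eval y A = 0

/-- The local ring at `y` of the locus of `y₀` over `F`. -/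
noncomputable def OH (F : Subfield ℂ) (y₀ y : Fin M → ℂ) : Subalgebra F ℂ :=
  Algebra.adjoin F {x | ∃ (A B : PR M) (d : ℕ), A.IsHomogeneous d ∧ B.IsHomogeneous d ∧ Cf F A ∧
    Cf F B ∧ eval y B ≠ 0 ∧ x = eval y₀ A / eval y₀ B}

/-- `χ` is a point over `y` of the normalisation in `L` of the locus of `y₀`. -/
structure Ov (F L : Subfield ℂ) (y₀ y : Fin M → ℂ) (χ : ℂ → ℂ) : Prop where
  add : ∀ x ∈ ICs (OH F y₀ y) L, ∀ x' ∈ ICs (OH F y₀ y) L, χ (x + x') = χ x + χ x'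
  mul : ∀ x ∈ ICs (OH F y₀ y) L, ∀ x' ∈ ICs (OH F y₀ y) L, χ (x * x') = χ x * χ x'
  out : ∀ x ∉ ICs (OH F y₀ y) L, χ x = 0
  cst : ∀ c ∈ F, χ c = c
  val : ∀ c b, y b ≠ 0 → χ (y₀ c / y₀ b) = y c / y b

/-- `σ` is a holomorphic lift of `Y` near `s`. -/
def Sec (F L : Subfield ℂ) (y₀ : Fin M → ℂ) {m : ℕ} (Y : (Fin m → ℂ) → Fin M → ℂ)
    (σ : (Fin m → ℂ) → ℂ → ℂ) (s : Fin m → ℂ) : Prop :=
  ∀ᶠ s' in 𝓝 s, Ov F L y₀ (Y s') (σ s') ∧
    ∀ x ∈ ICs (OH F y₀ (Y s')) L, ContDiffAt ℂ 1 (fun s => σ s x) s'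

/-- The local sections form a finite covering. -/
def Cov {m : ℕ} {Y : Type} (Sc : ((Fin m → ℂ) → Y) → (Fin m → ℂ) → Prop) : Prop :=
  ∀ s₀, ∃ (ε : ℝ) (d : ℕ) (σ : Fin (d + 1) → (Fin m → ℂ) → Y), 0 < ε ∧ ∀ s ∈ ball s₀ ε,
    (∀ j, Sc (σ j) s) ∧ (Function.Injective fun j => σ j s) ∧ ∀ τ, Sc τ s → ∃ j, τ =ᶠ[𝓝 s] σ j

/-- A periodic lift to `U` of a leaf, defined in codimension one. -/
structure Flw (w : Fin M → Option (Fin t)) (Θ : Pt t a → Fin M → ℂ) (PP : PT M t a) (U : Set (PS n))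
    (z : Fin n → K) (u : Fin M → K) (R : PR n) (k F : Subfield ℂ) (p₀ : Pt t a) {m : ℕ}
    (lam : Fin (m + 1) → Pt t a) (δ : Fin (m + 1) → Der) (f : (Fin (m + 1) → ℂ) → PS n) (N : ℕ) :
    Prop where
  gd : GD w Θ PP k
  gk : GKk w Θ PP k
  le : k ≤ F
  cnt : Countable F
  axo : Axo Θ k F p₀ lam δ
  good : ∀ s, Ind F m (rat (Θ (qq p₀ lam s))) → f s ∈ U ∧ Rel z u (f s).rep (Θ (qq p₀ lam s)) ∧
    (∀ x ∈ rat (f s).rep, IsAlgebraic (FL F (Θ (qq p₀ lam s))) x) ∧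
    ∃ g : (Fin (m + 1) → ℂ) → Fin n → ℂ, ContDiffAt ℂ 1 g s ∧
      ∀ᶠ s' in 𝓝 s, ∃ h : g s' ≠ 0, f s' = Projectivization.mk ℂ (g s') h
  gen : ∀ s, Ind F (m + 1) (rat (Θ (qq p₀ lam s))) → eval (f s).rep R ≠ 0
  pos : 0 < N
  per : ∀ s x, ∑ l, x l • lam l ∈ Lam Θ → f (s + N • x) = f s

end Cx

/-- Descent to a countable field. -/
def SDesc : Prop := ∀ (t a M n : ℕ) (w : Fin M → Option (Fin t)) (Θ : Pt t a → Fin M → ℂ)
  (PP : PT M t a) (K : Type) [Field K] [Algebra ℂ K] (U : Set (PS n)) (z : Fin n → K)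
  (u : Fin M → K) (F : IntermediateField ℂ K) (m : ℕ) (lam : Fin (m + 1) → Pt t a)
  (d : Fin (m + 1) → Derivation ℂ K K) (f : Fin (m + 1) → K) (s : Set ℂ), Ev (GD w Θ PP) →
  GK w Θ PP → z ≠ 0 → EtK w Θ PP U z u F lam d f → s.Countable →
  ∃ (k F₀ L : Subfield ℂ) (p₀ : Pt t a) (δ : Fin (m + 1) → Der) (z₀ : Fin n → ℂ), s ⊆ k ∧
    EtC w Θ PP U z u k F₀ L p₀ lam δ z₀

/-- `R` is simple for derivations of `L` that preserve `R` and its integral closure. -/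
structure DS (R L : Type) [CommRing R] [Field L] [Algebra R L] {ι : Type}
    (d : ι → Derivation ℤ L L) : Prop where
  pres : ∀ l (r : R), ∃ r' : R, algebraMap R L r' = d l (algebraMap R L r)
  int : ∀ l x, IsIntegral R x → IsIntegral R (d l x)
  sim : ∀ I : Ideal R, (∀ l, ∀ r ∈ I, ∀ r', algebraMap R L r' = d l (algebraMap R L r) → r' ∈ I) →
    I = ⊥ ∨ I = ⊤

def SNml : Prop := ∀ (R E L : Type) [CommRing R] [IsDomain R] [IsNoetherianRing R] [Field E]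
  [Algebra R E] [IsFractionRing R E] [Field L] [Algebra E L] [Algebra R L] [IsScalarTower R E L]
  (ι : Type) (d : ι → Derivation ℤ L L), DS R L d → Module.Finite R (integralClosure R L) →
  IsIntegrallyClosed R

def SDsc : Prop := ∀ (R E L : Type) [CommRing R] [IsDomain R] [IsIntegrallyClosed R] [Field E]
  [CharZero E] [Algebra R E] [IsFractionRing R E] [Field L] [Algebra E L] [Algebra R L]
  [IsScalarTower R E L] [FiniteDimensional E L] (ι : Type) (d : ι → Derivation ℤ L L), DS R L d →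
  ∀ p : Ideal R, p.IsPrime → ∃ (v : Fin (Module.finrank E L) → L) (b : R),
    (∀ i, IsIntegral R (v i)) ∧ algebraMap R E b = Algebra.discr E v ∧ b ∉ p

def SPrE : Prop := ∀ (R E L : Type) [CommRing R] [IsDomain R] [IsIntegrallyClosed R] [Field E]
  [CharZero E] [Algebra R E] [IsFractionRing R E] [Field L] [Algebra E L] [Algebra R L]
  [IsScalarTower R E L] [FiniteDimensional E L] (ξ : R →+* ℂ) (v : Fin (Module.finrank E L) → L)
  (b : R), (∀ i, IsIntegral R (v i)) → algebraMap R E b = Algebra.discr E v → ξ b ≠ 0 →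
  ∃ (θ : L) (P : Polynomial R) (b' : R), IsIntegral R θ ∧ P.Monic ∧ Polynomial.aeval θ P = 0 ∧
    (∀ Q : Polynomial R, Polynomial.aeval θ Q = 0 → P ∣ Q) ∧ (P.map ξ).Separable ∧ ξ b' ≠ 0 ∧
    ∀ x : L, IsIntegral R x → ∃ Q : Polynomial R, algebraMap R L b' * x = Polynomial.aeval θ Q

/-- Finiteness of the integral closure. -/
def SFinI : Prop := ∀ (F L : Type) [Field F] [CharZero F] [Field L] [Algebra F L] (ι : Type)
  [Finite ι] (x : ι → L), FiniteDimensional (IntermediateField.adjoin F (Set.range x)) L →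
  Module.Finite (Algebra.adjoin F (Set.range x)) (integralClosure (Algebra.adjoin F (Set.range x)) L)

def SEtC : Prop := ∀ (t a M n : ℕ) (w : Fin M → Option (Fin t)) (Θ : Pt t a → Fin M → ℂ)
  (PP : PT M t a) (K : Type) [Field K] [Algebra ℂ K] (U : Set (PS n)) (z : Fin n → K)
  (u : Fin M → K) (k F L : Subfield ℂ) (p₀ : Pt t a) (m : ℕ) (lam : Fin (m + 1) → Pt t a)
  (δ : Fin (m + 1) → Der) (z₀ : Fin n → ℂ), EtC w Θ PP U z u k F L p₀ lam δ z₀ →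
  ∀ β, Ch w β (Θ p₀) → EtA (RA F (co β (Θ p₀))) L

/-- Local rings and points in a chart. -/
def SLocA : Prop := ∀ (t M : ℕ) (w : Fin M → Option (Fin t)) (F L : Subfield ℂ) (y₀ y : Fin M → ℂ)
  (β : Cht M t), FL F y₀ ≤ L → Ch w β y → SpH F y₀ y → Ch w β y₀ ∧
  ∃ ξ : RA F (co β y₀) →ₐ[F] ℂ, (∀ x, ξ ⟨co β y₀ x, gen_mem _ x⟩ = co β y x) ∧
    (∀ x, x ∈ ICs (OH F y₀ y) L ↔
      ∃ b : RA F (co β y₀), ξ b ≠ 0 ∧ b * x ∈ ICs (RA F (co β y₀)) L) ∧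
    (∀ χ, Ov F L y₀ y χ → ∀ r : RA F (co β y₀), χ r = ξ r) ∧
    ∀ θ P b, EtQ (RA F (co β y₀)) L θ P b → ξ b ≠ 0 →
      ∀ τ, (P.map (ξ : RA F (co β y₀) →+* ℂ)).IsRoot τ → ∃ χ, Ov F L y₀ y χ ∧ χ θ = τ

/-- Simple roots depend holomorphically on parameters. -/
def SRoot : Prop := ∀ (m d : ℕ) (P : (Fin m → ℂ) → Polynomial ℂ) (s₀ : Fin m → ℂ),
  (∀ᶠ s in 𝓝 s₀, (P s).Monic ∧ (P s).natDegree = d) →
  (∀ i, ContDiffAt ℂ 1 (fun s => (P s).coeff i) s₀) → (P s₀).Separable →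
  ∃ (ε : ℝ) (τ : Fin d → (Fin m → ℂ) → ℂ), 0 < ε ∧ ∀ s ∈ ball s₀ ε,
    (∀ j, ContDiffAt ℂ 1 (τ j) s) ∧ (Function.Injective fun j => τ j s) ∧
      ∀ x, (P s).IsRoot x ↔ ∃ j, x = τ j s

def SLocS : Prop := ∀ (t a M : ℕ) (w : Fin M → Option (Fin t)) (Θ : Pt t a → Fin M → ℂ)
  (F L : Subfield ℂ) (p₀ : Pt t a) (m : ℕ) (lam : Fin m → Pt t a), GA1 w Θ → FL F (Θ p₀) ≤ L →
  (∀ s, SpH F (Θ p₀) (Θ (qq p₀ lam s))) → (∀ β, Ch w β (Θ p₀) → EtA (RA F (co β (Θ p₀))) L) →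
  Cov (Sec F L (Θ p₀) fun s => Θ (qq p₀ lam s))

/-- Monodromy. -/
def SMono : Prop := ∀ (m : ℕ) (Y : Type) (Sc : ((Fin m → ℂ) → Y) → (Fin m → ℂ) → Prop),
  (∀ σ s, Sc σ s → ∀ᶠ s' in 𝓝 s, Sc σ s') → (∀ σ σ' s, Sc σ s → σ =ᶠ[𝓝 s] σ' → Sc σ' s) → Cov Sc →
  ∃ τ, (∀ s, Sc τ s) ∧ ∀ Λ : Set (Fin m → ℂ),
    (∀ x ∈ Λ, ∀ σ s, Sc σ (s + x) → Sc (fun s => σ (s + x)) s) →
    ∃ N : ℕ, 0 < N ∧ ∀ x ∈ Λ, ∀ s, τ (s + N • x) = τ s

def SFlw : Prop := ∀ (t a M n : ℕ) (w : Fin M → Option (Fin t)) (Θ : Pt t a → Fin M → ℂ)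
  (PP : PT M t a) (K : Type) [Field K] [Algebra ℂ K] (U : Set (PS n)) (z : Fin n → K)
  (u : Fin M → K) (k F L : Subfield ℂ) (p₀ : Pt t a) (m : ℕ) (lam : Fin (m + 1) → Pt t a)
  (δ : Fin (m + 1) → Der) (z₀ : Fin n → ℂ) (R : PR n) (e : ℕ), GA w Θ → Mp w Θ U z u →
  EtC w Θ PP U z u k F L p₀ lam δ z₀ → (∀ s, SpH F (Θ p₀) (Θ (qq p₀ lam s))) →
  Cov (Sec F L (Θ p₀) fun s => Θ (qq p₀ lam s)) → R.IsHomogeneous e → Cf k R → aeval z R ≠ 0 →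
  ∃ f N, Flw w Θ PP U z u R k F p₀ lam δ f N

/-- Points of small transcendence degree form a thin set. -/
def SThin : Prop := ∀ (m r e : ℕ) (ι : Type) [Fintype ι] (F : Subfield ℂ)
  (φ : (Fin m → ℂ) → ι → ℂ) (O : Set (Fin m → ℂ)) (A : (Fin e → ℂ) →L[ℂ] (Fin m → ℂ)),
  Countable F → (∀ s ∈ O, ContDiffAt ℂ 1 φ s ∧ Function.Injective (fderiv ℂ φ s)) →
  dimH {x | ∃ s ∈ O, ∃ τ, ¬ Ind F (r + 1) (Set.range (φ s)) ∧ x = s + A τ} ≤ (2 * (r + e) : ℕ)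

/-- A generic line avoids all subvarieties of codimension two. -/
def SAvoid : Prop := ∀ (t a M : ℕ) (w : Fin M → Option (Fin t)) (Θ : Pt t a → Fin M → ℂ)
  (F : Subfield ℂ) (p₀ : Pt t a) (m : ℕ) (lam : Fin (m + 1) → Pt t a) (v : Fin (m + 1) → ℂ),
  GA1 w Θ → Countable F → LinearIndependent ℂ lam → ∃ s₀,
    Ind F (m + 1) (rat (Θ (qq p₀ lam s₀))) ∧ ∀ τ : ℂ, Ind F m (rat (Θ (qq p₀ lam (s₀ + τ • v))))

/-- The entire curve. -/
def SB2 : Prop := ∀ (t a M n : ℕ) (w : Fin M → Option (Fin t)) (Θ : Pt t a → Fin M → ℂ)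
  (PP : PT M t a) (K : Type) [Field K] [Algebra ℂ K] (U : Set (PS n)) (z : Fin n → K)
  (u : Fin M → K) (R : PR n) (k F : Subfield ℂ) (p₀ : Pt t a) (m : ℕ) (lam : Fin (m + 1) → Pt t a)
  (δ : Fin (m + 1) → Der) (f : (Fin (m + 1) → ℂ) → PS n) (N : ℕ), GA w Θ → Mp w Θ U z u →
  Flw w Θ PP U z u R k F p₀ lam δ f N → ∃ φ : ℂ → PS n, Holo Set.univ φ ∧ Set.range φ ⊆ U ∧
    (∃ s s', φ s ≠ φ s') ∧ ∃ s, eval (φ s).rep R ≠ 0

section Curves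
variable {L : Type} [Field L] [Algebra ℂ L]

/-- Holomorphic functions on the complement of `S`. -/
def HolP (S : Finset (Pl L)) (h : Pl L → ℂ) : Prop :=
  ∀ (α : ℂ → Pl L) (ε : ℝ), 0 < ε → Arc α (ball 0 ε) → α 0 ∉ S → AnalyticAt ℂ (fun s => h (α s)) 0

/-- Holomorphic maps from the complement of `S` to projective space. -/
def HolM {N : ℕ} (S : Finset (Pl L)) (φ : Pl L → PS N) : Prop :=
  ∀ (α : ℂ → Pl L) (ε : ℝ), 0 < ε → Arc α (ball 0 ε) → α 0 ∉ S → ∃ g : ℂ → Fin N → ℂ,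
    AnalyticAt ℂ g 0 ∧ ∀ᶠ s in 𝓝 0, ∃ h : g s ≠ 0, φ (α s) = Projectivization.mk ℂ (g s) h

end Curves

/-- An algebraic curve in the leaf. -/
def SCurve : Prop := ∀ (t a M : ℕ) (w : Fin M → Option (Fin t)) (Θ : Pt t a → Fin M → ℂ)
  (PP : PT M t a) (k F : Subfield ℂ) (p₀ : Pt t a) (m : ℕ) (lam : Fin (m + 1) → Pt t a)
  (δ : Fin (m + 1) → Der), GD w Θ PP k → GKk w Θ PP k → k ≤ F → Axo Θ k F p₀ lam δ →
  ∃ (L : Type) (_ : Field L) (_ : Algebra ℂ L) (y : Fin M → L), FFd L ∧ OnG w Θ y ∧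
    (∃ c b, Transcendental ℂ (y c / y b)) ∧ ∀ D : Derivation ℂ L L, ∃ γ : Fin (m + 1) → L,
      Vel w PP D y fun i => ∑ l, γ l * algebraMap ℂ L (lam l i)

/-- A nonconstant function is a covering outside a finite set. -/
def SFib : Prop := ∀ (L : Type) [Field L] [Algebra ℂ L], FFd L → ∀ T : L, Transcendental ℂ T →
  ∃ (θ : L) (d : ℕ) (E : Finset ℂ), ∀ t₀ ∉ E, ∃ (ε : ℝ) (α : Fin (d + 1) → ℂ → Pl L), 0 < ε ∧
    (∀ j, Arc (α j) (ball 0 ε)) ∧ ∀ s ∈ ball (0 : ℂ) ε,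
      (∀ P : Pl L, (T ∈ P.V ∧ P.val T = t₀ + s) ↔ ∃ j, P = α j s) ∧ (∀ j, θ ∈ (α j s).V) ∧
      Function.Injective fun j => (α j s).val θ

/-- Functions of polynomial growth are polynomials. -/
def SGrow : Prop := ∀ (E : Finset ℂ) (c : ℂ → ℂ) (C : ℝ) (N : ℕ), (∀ s ∉ E, AnalyticAt ℂ c s) →
  (∀ s ∉ E, ‖c s‖ ≤ C * (1 + ‖s‖) ^ N) → ∃ p : Polynomial ℂ, ∀ s ∉ E, c s = p.eval s

/-- Single-valued algebraic functions are rational. -/
def SRat : Prop := ∀ (L : Type) [Field L] [Algebra ℂ L], FFd L → ∀ (S : Finset (Pl L))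
  (h : Pl L → ℂ) (d : ℕ) (A : Fin d → L), HolP S h → A ≠ 0 →
  (∀ᶠ P : Pl L in cofinite, ∑ i, P.val (A i) * h P ^ (i : ℕ) = 0) →
  ∃ x : L, ∀ P ∉ S, x ∈ P.V ∧ P.val x = h P

/-- Connectedness. -/
def SConn : Prop := ∀ (L : Type) [Field L] [Algebra ℂ L], FFd L → ∀ (S : Finset (Pl L))
  (A : Set (Pl L)), (∀ (α : ℂ → Pl L) (ε : ℝ), 0 < ε → Arc α (ball 0 ε) → Set.InjOn α (ball 0 ε) →
    α 0 ∉ S → (∀ᶠ s in 𝓝[≠] 0, α s ∈ A) ∨ ∀ᶠ s in 𝓝[≠] 0, α s ∉ A) → A.Countable ∨ Aᶜ.Countable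

/-- Holomorphic maps with algebraic values are morphisms. -/
def SRatP : Prop := ∀ (L : Type) [Field L] [Algebra ℂ L], FFd L → ∀ (S : Finset (Pl L)) (N : ℕ)
  (φ : Pl L → PS N) (F : Subfield ℂ) (ι : Type) [Finite ι] (T : ι → L), Countable F → HolM S φ →
  (∀ P ∉ S, ∀ x ∈ rat (φ P).rep,
    IsAlgebraic (Subfield.closure (F ∪ Set.range fun i => P.val (T i) : Set ℂ)) x) →
  ∃ y : Fin N → L, ∀ P ∉ S, Red P y (φ P)

/-- The chain rule along an arc. -/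
def SChain : Prop := ∀ (L : Type) [Field L] [Algebra ℂ L], FFd L → ∀ (D : Derivation ℂ L L) (T : L)
  (α : ℂ → Pl L) (ε : ℝ), D T = 1 → 0 < ε → Arc α (ball 0 ε) → (∀ᶠ s in 𝓝 0, α s = α 0) ∨
    ∀ x, ∀ᶠ s in 𝓝[≠] 0, x ∈ (α s).V ∧
      deriv (fun s => (α s).val x) s = deriv (fun s => (α s).val T) s * (α s).val (D x)

/-- The curve lifts to the leaf in the universal cover. -/
def SLift : Prop := ∀ (t a M : ℕ) (w : Fin M → Option (Fin t)) (Θ : Pt t a → Fin M → ℂ)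
  (PP : PT M t a) (k : Subfield ℂ) (m : ℕ) (lam : Fin m → Pt t a) (L : Type) [Field L] [Algebra ℂ L]
  (y : Fin M → L) (S : Finset (Pl L)) (P₀ : Pl L), GA w Θ → Lft Θ → GD w Θ PP k →
  LinearIndependent ℂ lam → FFd L → OnG w Θ y →
  (∀ D : Derivation ℂ L L, ∃ γ : Fin m → L, Vel w PP D y fun i => ∑ l, γ l * algebraMap ℂ L (lam l i)) →
  (∀ P ∉ S, RegG w P y) → P₀ ∉ S → ∃ (p₁ : Pt t a) (g : Pl L → Fin m → ℂ), g P₀ = 0 ∧
    (∀ P ∉ S, ∃ h, Red P y (Projectivization.mk ℂ (Θ (qq p₁ lam (g P))) h)) ∧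
    ∀ (α : ℂ → Pl L) (ε : ℝ), 0 < ε → Arc α (ball 0 ε) → α 0 ∉ S → ∃ γ : ℂ → Fin m → ℂ,
      AnalyticAt ℂ γ 0 ∧ ∀ᶠ s in 𝓝 0, ∑ l, (g (α s) - γ s) l • lam l ∈ Lam Θ

/-- Adding multiples of a point of a curve lowers the transcendence degree by at most one. -/
def SIndN : Prop := ∀ (t a M : ℕ) (Θ : Pt t a → Fin M → ℂ) (k F : Subfield ℂ) (p p₁ x : Pt t a)
  (m N : ℕ), SubK Θ k → k ≤ F → rat (Θ p₁) ⊆ F → ¬ Ind F 2 (rat (Θ (p₁ + x))) →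
  Ind F (m + 1) (rat (Θ p)) → Ind F m (rat (Θ (p + N • x))) ∧
    rat (Θ (p + N • x)) ⊆ Subfield.closure (F ∪ rat (Θ p) ∪ rat (Θ (p₁ + x)) : Set ℂ)

/-- Infinitely many pointed morphisms. -/
def SB3 : Prop := ∀ (t a M n : ℕ) (w : Fin M → Option (Fin t)) (Θ : Pt t a → Fin M → ℂ)
  (PP : PT M t a) (K : Type) [Field K] [Algebra ℂ K] (U : Set (PS n)) (z : Fin n → K)
  (u : Fin M → K) (R : PR n) (k F : Subfield ℂ) (p₀ : Pt t a) (m : ℕ) (lam : Fin (m + 1) → Pt t a)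
  (δ : Fin (m + 1) → Der) (f : (Fin (m + 1) → ℂ) → PS n) (N : ℕ), GA w Θ → Lft Θ → Mp w Θ U z u →
  Flw w Θ PP U z u R k F p₀ lam δ f N → ∃ (r : ℕ) (Y : Set (PS r)) (y : Y) (x : PS n), IsVar Y ∧
    x ∈ U ∧ eval x.rep R ≠ 0 ∧ {f : Y → PS n | H4.IsMor f ∧ Set.range f ⊆ U ∧ f y = x}.Infinite

end Pool.Agent.MP_c69980_ag.H43
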