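import Pool.Agent.MP_c69980_ag.H43.Geo

/-!
Statements on the geometry of semi-abelian varieties.
-/

set_option autoImplicit false

namespace Pool.Agent.MP_c69980_ag.H43

open MvPolynomial H60 Finset Filter Topology Metric

def SGA1 : Prop := ∀ (t a M : ℕ) (w : Fin M → Option (Fin t)) (ϑ : (Fin a → ℂ) → Fin M → ℂ),
  SemiAb w ϑ → GA1 w (TH w ϑ)

def SGA2 : Prop := ∀ (t a M : ℕ) (w : Fin M → Option (Fin t)) (ϑ : (Fin a → ℂ) → Fin M → ℂ),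
  SemiAb w ϑ → GA1 w (TH w ϑ) → GA w (TH w ϑ)

/-- The periods are discrete. -/
def Disc {t a M : ℕ} (Θ : Pt t a → Fin M → ℂ) : Prop :=
  ∃ ε : ℝ, 0 < ε ∧ ∀ x ∈ Lam Θ, ‖x‖ < ε → x = 0

def SDisc : Prop := ∀ (t a M : ℕ) (w : Fin M → Option (Fin t)) (Θ : Pt t a → Fin M → ℂ),
  GA w Θ → Disc Θ ∧ (Lam Θ).Countable

def SDer : Prop := ∀ (t a M : ℕ) (w : Fin M → Option (Fin t)) (Θ : Pt t a → Fin M → ℂ),
  GA w Θ → ∃ PP : PT M t a, DerF w Θ PP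

def SFin : Prop := ∀ (t a M : ℕ) (w : Fin M → Option (Fin t)) (Θ : Pt t a → Fin M → ℂ),
  GA w Θ → Ev (Clh w Θ) ∧ Ev (SubK Θ)

def SDim : Prop := ∀ (t a M : ℕ) (w : Fin M → Option (Fin t)) (Θ : Pt t a → Fin M → ℂ),
  GA1 w Θ → ∀ k : Subfield ℂ, Countable k → Clh w Θ k → ∀ p, ¬ Ind k (t + a + 1) (rat (Θ p))

def SEx : Prop := ∀ (t a M : ℕ) (w : Fin M → Option (Fin t)) (Θ : Pt t a → Fin M → ℂ)
  (PP : PT M t a) (k : Subfield ℂ), GA1 w Θ → DerF w Θ PP → Nrm w Θ PP → Countable k →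
  (∀ β i x, Cf k (PP β i x)) → SubK Θ k → (∀ p, ¬ Ind k (t + a + 1) (rat (Θ p))) →
  ∀ D p, Kill k D → ∃ v, Tan Θ D p v

def SBr : Prop := ∀ (t a M : ℕ) (w : Fin M → Option (Fin t)) (Θ : Pt t a → Fin M → ℂ)
  (PP : PT M t a) (k : Subfield ℂ), GA1 w Θ → DerF w Θ PP → (∀ β i x, Cf k (PP β i x)) → BrK Θ k

def SNrm : Prop := ∀ (t a M : ℕ) (w : Fin M → Option (Fin t)) (Θ : Pt t a → Fin M → ℂ)
  (PP : PT M t a), GA1 w Θ → DerF w Θ PP → Nrm w Θ PP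

def SLb : Prop := ∀ (t a M : ℕ) (w : Fin M → Option (Fin t)) (Θ : Pt t a → Fin M → ℂ),
  GA1 w Θ → ∀ (q : Pt t a) (V : Submodule ℂ (Pt t a)) (n : ℕ),
  Dep Θ n {x | x - q ∈ V} → Module.finrank ℂ V ≤ n

def SFlow : Prop := ∀ (t a M : ℕ) (w : Fin M → Option (Fin t)) (Θ : Pt t a → Fin M → ℂ)
  (PP : PT M t a) (F : Subfield ℂ) (p : Pt t a) (m n : ℕ) (μ : Fin m → Pt t a) (δ : Fin m → Der),
  GA1 w Θ → DerF w Θ PP → (∀ β i x, Cf F (PP β i x)) → (∀ l i, μ l i ∈ F) →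
  (∀ l, Kill F (δ l) ∧ Tan Θ (δ l) p (μ l)) → ¬ Ind F (n + 1) (rat (Θ p)) →
  Dep Θ n {x | x - p ∈ Submodule.span ℂ (Set.range μ)}

/-- An algebraic leaf is a translate of a subgroup whose Lie algebra is spanned by periods. -/
def SRig : Prop := ∀ (t a M : ℕ) (w : Fin M → Option (Fin t)) (Θ : Pt t a → Fin M → ℂ),
  GA w Θ → ∀ (p : Pt t a) (V : Submodule ℂ (Pt t a)),
  Dep Θ (Module.finrank ℂ V) {x | x - p ∈ V} → V ≤ Submodule.span ℂ (V ∩ Lam Θ : Set (Pt t a))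

/-- Properness of the uniformisation. -/
def Prp {t a M : ℕ} (w : Fin M → Option (Fin t)) (Θ : Pt t a → Fin M → ℂ) : Prop :=
  (∀ (β : Cht M t) (B : ℝ), ∃ L : ℝ, ∀ p, Ch w β (Θ p) → ‖co β (Θ p)‖ ≤ B →
    ∃ x ∈ Lam Θ, ‖p - x‖ ≤ L) ∧
  ∀ p₀ b, Θ p₀ b ≠ 0 → ∀ ε : ℝ, 0 < ε → ∃ δ : ℝ, 0 < δ ∧ ∀ p, Θ p b ≠ 0 →
    (∀ c, ‖Θ p c / Θ p b - Θ p₀ c / Θ p₀ b‖ < δ) → ∃ x ∈ Lam Θ, ‖p - x - p₀‖ < ε

def SPrp : Prop := ∀ (t a M : ℕ) (w : Fin M → Option (Fin t)) (Θ : Pt t a → Fin M → ℂ),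
  GA w Θ → Prp w Θ

/-- Holomorphic discs in `G` lift to the universal cover. -/
def Lft {t a M : ℕ} (Θ : Pt t a → Fin M → ℂ) : Prop :=
  ∀ (R : ℝ) (Y : ℂ → Fin M → ℂ) (p₀ : Pt t a), 0 < R →
    (∀ s ∈ ball (0 : ℂ) R, ∃ (p : Pt t a) (l : ℂ), Θ p = l • Y s) →
    (∀ s₀ ∈ ball (0 : ℂ) R, ∃ f : ℂ → Fin M → ℂ, AnalyticAt ℂ f s₀ ∧
      ∀ᶠ s in 𝓝 s₀, f s ≠ 0 ∧ ∃ l : ℂ, f s = l • Y s) →
    (∃ l : ℂ, Θ p₀ = l • Y 0) → ∃ p : ℂ → Pt t a, DifferentiableOn ℂ p (ball 0 R) ∧ p 0 = p₀ ∧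
      ∀ s ∈ ball (0 : ℂ) R, ∃ l : ℂ, Θ (p s) = l • Y s

def SLft : Prop := ∀ (t a M : ℕ) (w : Fin M → Option (Fin t)) (Θ : Pt t a → Fin M → ℂ),
  GA w Θ → Disc Θ → Prp w Θ → Lft Θ

/-- The output of the geometric part. -/
def SGeo : Prop := ∀ (t a M : ℕ) (w : Fin M → Option (Fin t)) (ϑ : (Fin a → ℂ) → Fin M → ℂ),
  SemiAb w ϑ → GA w (TH w ϑ) ∧ Prp w (TH w ϑ) ∧ Lft (TH w ϑ) ∧
    ∃ PP : PT M t a, Ev (GD w (TH w ϑ) PP)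

theorem sGeo (h1 : SGA1) (h2 : SGA2) (h3 : SDisc) (h4 : SDer) (h5 : SFin) (h6 : SDim) (h7 : SEx)
    (h8 : SBr) (h9 : SNrm) (h10 : SFlow) (h11 : SRig) (h12 : SPrp) (h13 : SLft) : SGeo := by
  intro t a M w ϑ h
  have g := h2 _ _ _ w ϑ h (h1 _ _ _ w ϑ h)
  obtain ⟨d1, d2⟩ := h3 _ _ _ w _ g
  obtain ⟨PP, hP⟩ := h4 _ _ _ w _ g
  obtain ⟨f1, f2⟩ := h5 _ _ _ w _ g
  have n := h9 _ _ _ w _ PP g.toGA1 hP
  refine ⟨g, h12 _ _ _ w _ g, h13 _ _ _ w _ g d1 (h12 _ _ _ w _ g), PP, ?_⟩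
  have := d2.to_subtype
  obtain ⟨k, k0, hk⟩ := (f1.and (f2.and ((Ev.all fun β => Ev.all fun i => Ev.all fun x =>
    ev_cf (PP β i x)).and (Ev.all fun x : Lam (TH w ϑ) => Ev.all fun i => ev_mem (x.1 i))))).exists'
  obtain ⟨b1, b2, b3, -⟩ := hk k le_rfl
  refine (ev_le k0).mono fun k' hk' => ?_
  obtain ⟨a1, a2, a3, a4⟩ := hk k' hk'
  refine ⟨n, g.hol, g.blk, a1, a3, hP, a2, fun D p hD => h7 _ _ _ w _ PP k g.toGA1 hP n k0 b3 b2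
    (h6 _ _ _ w _ g.toGA1 k k0 b1) D p (hD.mono hk'), h8 _ _ _ w _ PP k' g.toGA1 hP a3, ?_⟩
  intro F p m μ δ hF m1 m2 m3 m4
  have r : Module.finrank ℂ (Submodule.span ℂ (Set.range μ)) = m := by
    simpa using finrank_span_eq_card m2
  have e := h11 _ _ _ w _ g p _ (by
    rw [r]
    exact h10 _ _ _ w _ PP F p m m μ δ g.toGA1 hP (fun β i x => (a3 β i x).mono hF) m1 m3 m4)
  obtain ⟨s, s1, s2, s3⟩ := exists_linearIndependent ℂ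
    (Submodule.span ℂ (Set.range μ) ∩ Lam (TH w ϑ) : Set (Pt t a))
  have s4 : Submodule.span ℂ s = Submodule.span ℂ (Set.range μ) :=
    le_antisymm (Submodule.span_le.2 fun x hx => (s1 hx).1) (s2 ▸ e)
  have := s3.finite
  have := Fintype.ofFinite s
  have s5 : Fintype.card s = m := by
    rw [← r, ← s4, ← finrank_span_eq_card s3, Subtype.range_coe]
  let q := (Fintype.equivFinOfCardEq s5).symm
  exact ⟨fun l => q l, fun l i => a4 ⟨_, (s1 (q l).2).2⟩ i, s3.comp q q.injective,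
    fun l => (s1 (q l).2).1⟩

end Pool.Agent.MP_c69980_ag.H43
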