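import Pool.Agent.MP_c69980_ag.H43.Geo

/-!
Differential algebra at a point `p₀` of a semi-abelian variety.
-/

set_option autoImplicit false

namespace Pool.Agent.MP_c69980_ag.H43

open MvPolynomial H60 Finset

variable {t a M : ℕ}

/-- `D` moves `p₀` with velocity `g`, which is defined over the differential field `F`. -/
structure Ctx (Θ : Pt t a → Fin M → ℂ) (k F : Subfield ℂ) (D : Der) (p₀ g : Pt t a) : Prop where
  le : k ≤ F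
  cnt : Countable F
  kill : Kill k D
  pres : Pres D F
  mem : ∀ i, g i ∈ F
  tan : Tan Θ D p₀ g
  const : ∀ x ∈ FL F (Θ p₀), D x = 0 → x ∈ F

/-- The locus of `p₀` over `F` is a translate of a subgroup with Lie algebra spanned by `lam`. -/
structure Axo (Θ : Pt t a → Fin M → ℂ) (k F : Subfield ℂ) (p₀ : Pt t a) {n : ℕ}
    (lam : Fin n → Pt t a) (δ : Fin n → Der) : Prop where
  mem : ∀ l i, lam l i ∈ k
  ind : LinearIndependent ℂ lam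
  kill : ∀ l, Kill F (δ l)
  tan : ∀ l, Tan Θ (δ l) p₀ (lam l)
  dim : ¬ Ind F (n + 1) (rat (Θ p₀))

/-- The common constants of the `δ l` in `L`. -/
def cst (L : Subfield ℂ) {n : ℕ} (δ : Fin n → Der) : Subfield ℂ where
  carrier := {x | x ∈ L ∧ ∀ l, δ l x = 0}
  mul_mem' := fun {x y} h h' => ⟨mul_mem h.1 h'.1, fun l => by simp [h.2 l, h'.2 l]⟩
  one_mem' := ⟨one_mem _, fun l => by simp⟩
  add_mem' := fun {x y} h h' => ⟨add_mem h.1 h'.1, fun l => by simp [h.2 l, h'.2 l]⟩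
  zero_mem' := ⟨zero_mem _, fun l => by simp⟩
  neg_mem' := fun {x} h => ⟨neg_mem h.1, fun l => by simp [h.2 l]⟩
  inv_mem' := fun x h => ⟨inv_mem h.1, fun l => by simp [Derivation.leibniz_inv, h.2 l]⟩

lemma mem_cst {L : Subfield ℂ} {n : ℕ} {δ : Fin n → Der} {x : ℂ} :
    x ∈ cst L δ ↔ x ∈ L ∧ ∀ l, δ l x = 0 := Iff.rfl

/-- An echelon basis of the tangent space at `p₀` of its locus over `k`. -/
structure Tg (Θ : Pt t a → Fin M → ℂ) (k : Subfield ℂ) (p₀ : Pt t a) {m : ℕ}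
    (J : Fin m → Fin (t + a)) (γ : Fin m → Pt t a) (E : Fin m → Der) : Prop where
  mem : ∀ j i, γ j i ∈ FL k (Θ p₀)
  ech : ∀ j i, γ j (J i) = if j = i then 1 else 0
  kill : ∀ j, Kill k (E j)
  tan : ∀ j, Tan Θ (E j) p₀ (γ j)
  dim : ¬ Ind k (m + 1) (rat (Θ p₀))

/-- Polynomial data extracted from the variety `U`. -/
structure KD (M t : ℕ) where
  m : ℕ
  d : ℕ
  e : ℕ
  Q : PR M
  Pc : Fin M → ℕ → PR M
  Jb : Cht M t → Finset (CP M t × CP M t)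

/-- The data have coefficients in `k`. -/
structure KD.Ok (κ : KD M t) (k : Subfield ℂ) : Prop where
  hQ : κ.Q.IsHomogeneous κ.e
  hP : ∀ c i, (κ.Pc c i).IsHomogeneous κ.e
  cQ : Cf k κ.Q
  cP : ∀ c i, Cf k (κ.Pc c i)
  cJ : ∀ β, ∀ f ∈ κ.Jb β, Cf k f.1 ∧ Cf k f.2

/-- What the data satisfy at a generic point `p₀` of the image of `U`. -/
structure KDat (w : Fin M → Option (Fin t)) (Θ : Pt t a → Fin M → ℂ) (k : Subfield ℂ) (κ : KD M t)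
    (p₀ : Pt t a) (J : Fin κ.m → Fin (t + a)) (γ : Fin κ.m → Pt t a) (E : Fin κ.m → Der) : Prop
    extends Tg Θ k p₀ J γ E where
  Qn : eval (Θ p₀) κ.Q ≠ 0
  pi : ∀ c i, eval (Θ p₀) (κ.Pc c i) / eval (Θ p₀) κ.Q ∈
    Subring.closure (k ∪ {x | ∃ j, ∃ φ ∈ FL k (Θ p₀), x = E j φ / φ} : Set ℂ)
  cert : ∀ β, Ch w β (Θ p₀) → ∀ f ∈ κ.Jb β, ∃ (l : Fin κ.m) (N b Ψ : CP M t), Cf k N ∧ Cf k b ∧
    Cf k Ψ ∧ f.2 = Ψ * N ∧
    eval (co β (Θ p₀)) N = eval (co β (Θ p₀)) b * E l (eval (co β (Θ p₀)) f.1)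
  zz : ∀ β, Ch w β (Θ p₀) → ∀ y : CI M t → ℂ, Sp k (co β (Θ p₀)) y → eval y (dh κ.Q) = 0 →
    (∃ b, Cf k b ∧ eval y b ≠ 0 ∧ ∀ j i, ∃ c, Cf k c ∧
      eval (co β (Θ p₀)) b * γ j i = eval (co β (Θ p₀)) c) →
    ¬ Ind k (κ.m - 1) (Set.range y) ∨ ∃ f ∈ κ.Jb β, eval y f.2 ≠ 0

/-- The ring generated by `F`, the ratios inside the blocks and the logarithmic derivatives. -/
noncomputable def LR (w : Fin M → Option (Fin t)) (β : Cht M t) (F : Subfield ℂ) (D : Der)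
    (y : Fin M → ℂ) : Subring ℂ :=
  Subring.closure (F ∪ Set.range (xc w β y) ∪ {x | ∃ ψ ∈ FL F y, x = D ψ / ψ} : Set ℂ)

/-- Generators of the ideal of bad points. -/
def gens (κ : KD M t) (β : Cht M t) (D : Der) (x : CI M t → ℂ) : Set ℂ :=
  {eval x (dh κ.Q)} ∪ {u | ∃ f ∈ κ.Jb β, u = eval x f.2 * eval x f.1} ∪
    {u | ∃ f ∈ κ.Jb β, u = eval x f.2 * D (eval x f.1)}

/-- The output of the algebraic part, in the chart `β`. -/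
structure Out (w : Fin M → Option (Fin t)) (κ : KD M t) (F : Subfield ℂ) (D : Der) (y : Fin M → ℂ)
    (β : Cht M t) : Prop where
  o1 : ∃ (h : ℕ) (A : ℕ → ℂ), (∀ j, A j ∈ RA F (co β y)) ∧
    ∑ j ∈ range h, A j * D^[j] (eval (co β y) (dh κ.Q)) = 1
  o2 : ∀ c i, IsIntegral (LR w β F D y) (eval y (κ.Pc c i) / eval y κ.Q)
  o3 : ∀ lam : ℕ, ∃ (n l : ℕ) (Φ : CP M t), Cf F Φ ∧ Φ.totalDegree ≤ n ∧ eval (co β y) Φ ≠ 0 ∧
    0 < l ∧ lam * n ≤ l ∧ ∀ j < l, D^[j] (eval (co β y) Φ) ∈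
      Submodule.span (RA F (co β y)) (gens κ β D (co β y))

/-- Derivations with a tangent vector over `F` preserve the coordinate rings and fields. -/
def SPres : Prop := ∀ (t a M : ℕ) (w : Fin M → Option (Fin t)) (Θ : Pt t a → Fin M → ℂ)
  (PP : PT M t a) (k F : Subfield ℂ) (D : Der) (p v : Pt t a), GD w Θ PP k → k ≤ F → Tan Θ D p v →
  ((∀ i, v i ∈ FL F (Θ p)) → (∀ x ∈ F, D x ∈ FL F (Θ p)) → Pres D (FL F (Θ p))) ∧
  (v = 0 → Kill F D → Kill (FL F (Θ p)) D) ∧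
  ((∀ i, v i ∈ F) → Pres D F → ∀ β, Ch w β (Θ p) →
    Pres D (RA F (co β (Θ p))) ∧ Pres D (RA F (xc w β (Θ p))))

/-- Derivations with independent tangent vectors bound the transcendence degree from below. -/
def SDimt : Prop := ∀ (t a M : ℕ) (w : Fin M → Option (Fin t)) (Θ : Pt t a → Fin M → ℂ)
  (PP : PT M t a) (k F : Subfield ℂ) (p : Pt t a) (n : ℕ) (v : Fin n → Pt t a) (D : Fin n → Der),
  GD w Θ PP k → LinearIndependent ℂ v → (∀ l, Kill F (D l) ∧ Tan Θ (D l) p (v l)) →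
  Ind F n (rat (Θ p))

def SAx : Prop := ∀ (t a M : ℕ) (w : Fin M → Option (Fin t)) (Θ : Pt t a → Fin M → ℂ)
  (PP : PT M t a) (k F : Subfield ℂ) (D : Der) (p₀ g : Pt t a), GD w Θ PP k → Ctx Θ k F D p₀ g →
  ∃ (n : ℕ) (lam : Fin n → Pt t a) (δ : Fin n → Der), Axo Θ k F p₀ lam δ

def SKp : Prop := ∀ (t a M : ℕ) (w : Fin M → Option (Fin t)) (Θ : Pt t a → Fin M → ℂ)
  (PP : PT M t a) (k F : Subfield ℂ) (D : Der) (p₀ g : Pt t a) (n : ℕ) (lam : Fin n → Pt t a)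
  (δ : Fin n → Der), GD w Θ PP k → Ctx Θ k F D p₀ g → Axo Θ k F p₀ lam δ →
  F ≤ cst (FL F (Θ p₀)) δ ∧ FL (cst (FL F (Θ p₀)) δ) (Θ p₀) = FL F (Θ p₀) ∧
    (∀ x ∈ cst (FL F (Θ p₀)) δ, IsAlgebraic F x) ∧ Ctx Θ k (cst (FL F (Θ p₀)) δ) D p₀ g ∧
    Axo Θ k (cst (FL F (Θ p₀)) δ) p₀ lam δ

def SVs : Prop := ∀ (t a M : ℕ) (w : Fin M → Option (Fin t)) (Θ : Pt t a → Fin M → ℂ)
  (PP : PT M t a) (k F : Subfield ℂ) (p₀ : Pt t a) (n : ℕ) (lam : Fin n → Pt t a)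
  (δ : Fin n → Der), GD w Θ PP k → k ≤ F → Countable F → Axo Θ k F p₀ lam δ →
  ∀ β, Ch w β (Θ p₀) → Simple (RA F (co β (Θ p₀))) (Set.range δ)

def SDs : Prop := ∀ (t a M : ℕ) (w : Fin M → Option (Fin t)) (Θ : Pt t a → Fin M → ℂ)
  (PP : PT M t a) (k F : Subfield ℂ) (D : Der) (p₀ g : Pt t a), GD w Θ PP k → Ctx Θ k F D p₀ g →
  ∀ β, Ch w β (Θ p₀) → Simple (RA F (co β (Θ p₀))) {D}

def SDsa : Prop := ∀ (t a M : ℕ) (w : Fin M → Option (Fin t)) (Θ : Pt t a → Fin M → ℂ)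
  (PP : PT M t a) (k F : Subfield ℂ) (D : Der) (p₀ g : Pt t a), GD w Θ PP k → Ctx Θ k F D p₀ g →
  ∀ β, Ch w β (Θ p₀) → Simple (RA F (xc w β (Θ p₀))) {D}

/-- The derivations `E j` can be modified outside `FL k (Θ p₀)` so as to preserve `F`. -/
def SHat : Prop := ∀ (t a M : ℕ) (w : Fin M → Option (Fin t)) (Θ : Pt t a → Fin M → ℂ)
  (PP : PT M t a) (k F : Subfield ℂ) (p₀ : Pt t a) (n : ℕ) (lam : Fin n → Pt t a) (δ : Fin n → Der)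
  (m : ℕ) (J : Fin m → Fin (t + a)) (γ : Fin m → Pt t a) (E : Fin m → Der),
  GD w Θ PP k → k ≤ F → Axo Θ k F p₀ lam δ → cst (FL F (Θ p₀)) δ = F → Tg Θ k p₀ J γ E →
  (∀ j i, γ j i ∈ F) ∧ ∀ j, ∃ E' : Der, (∀ x ∈ FL k (Θ p₀), E' x = E j x) ∧ Pres E' F

def SO2 : Prop := ∀ (t a M : ℕ) (w : Fin M → Option (Fin t)) (Θ : Pt t a → Fin M → ℂ)
  (PP : PT M t a) (k F : Subfield ℂ) (D E : Der) (p₀ g v : Pt t a) (β : Cht M t)
  (V : ValuationSubring ℂ), GD w Θ PP k → Ctx Θ k F D p₀ g → Ch w β (Θ p₀) →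
  Simple (RA F (xc w β (Θ p₀))) {D} → (∀ i, v i ∈ F) → Tan Θ E p₀ v → Pres E F →
  (∀ x ∈ LR w β F D (Θ p₀), x ∈ V) → ∀ x ∈ FL F (Θ p₀), E x / x ∈ V

/-- The bad points have codimension two in the leaf. -/
def SO3 : Prop := ∀ (t a M : ℕ) (w : Fin M → Option (Fin t)) (Θ : Pt t a → Fin M → ℂ)
  (PP : PT M t a) (k F : Subfield ℂ) (D : Der) (p₀ g : Pt t a) (n : ℕ) (lam : Fin n → Pt t a)
  (δ : Fin n → Der) (κ : KD M t) (J : Fin κ.m → Fin (t + a)) (γ : Fin κ.m → Pt t a)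
  (E : Fin κ.m → Der) (β : Cht M t), GD w Θ PP k → Ctx Θ k F D p₀ g → Axo Θ k F p₀ lam δ →
  cst (FL F (Θ p₀)) δ = F → κ.Ok k → KDat w Θ k κ p₀ J γ E → (∀ j i, γ j i ∈ F) →
  (∀ j, ∃ E' : Der, (∀ x ∈ FL k (Θ p₀), E' x = E j x) ∧ Pres E' F) → Ch w β (Θ p₀) →
  Simple (RA F (co β (Θ p₀))) {D} → Simple (RA F (co β (Θ p₀))) (Set.range δ) →
  ∀ ξ : RA F (co β (Θ p₀)) →ₐ[F] ℂ,
    (∀ u : RA F (co β (Θ p₀)), (u : ℂ) ∈ gens κ β D (co β (Θ p₀)) → ξ u = 0) →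
    ∀ r, Ind F r (Set.range ξ) → r + 2 ≤ n

/-- Points over `F` lift to points over an algebraic extension. -/
def SUp : Prop := ∀ (F F' : Subfield ℂ) (ι : Type) (x : ι → ℂ) (s : Set ℂ) (r : ℕ), F ≤ F' →
  Countable F' → Countable ι → (∀ c ∈ F', IsAlgebraic F c) → s ⊆ RA F x →
  ∀ ξ : RA F x →ₐ[F] ℂ, (∀ u : RA F x, (u : ℂ) ∈ s → ξ u = 0) → Ind F r (Set.range ξ) →
  ∃ ξ' : RA F' x →ₐ[F'] ℂ, (∀ u : RA F' x, (u : ℂ) ∈ s → ξ' u = 0) ∧ Ind F' r (Set.range ξ')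

/-- The algebraic part. -/
def SAlgp : Prop := ∀ (t a M : ℕ) (w : Fin M → Option (Fin t)) (Θ : Pt t a → Fin M → ℂ)
  (PP : PT M t a) (k F : Subfield ℂ) (D : Der) (p₀ g : Pt t a) (κ : KD M t)
  (J : Fin κ.m → Fin (t + a)) (γ : Fin κ.m → Pt t a) (E : Fin κ.m → Der),
  GD w Θ PP k → Ctx Θ k F D p₀ g → κ.Ok k → KDat w Θ k κ p₀ J γ E →
  ∀ β, Ch w β (Θ p₀) → Out w κ F D (Θ p₀) β

end Pool.Agent.MP_c69980_ag.H43
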