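import Pool.Agent.MP_c69980_ag.H43.Ana

/-!
Statements of the analytic lemmas.
-/

set_option autoImplicit false

namespace Pool.Agent.MP_c69980_ag.H43

open MvPolynomial H60 Finset Filter Topology Metric Real

/-- Three circles, and normalisation of a disc. -/
def SThree : Prop := ∀ (N : ℕ) (p : ℂ → Fin N → ℂ) (R : ℝ), DifferentiableOn ℂ p (ball 0 R) →
  (∀ ρ, 1 ≤ ρ → ρ ^ 2 < R → sc p ρ ^ 2 ≤ sc p 1 * sc p (ρ ^ 2)) ∧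
  (1 < R → 1 ≤ ‖deriv p 0‖ → ∃ ρ : ℝ, 0 < ρ ∧ ρ ≤ 1 ∧ sc (fun s => p (ρ * s)) 1 = 1)

/-- The exponent of the upper scale. -/
def ex3 (n : ℕ) : ℕ := 5 * 2 ^ (n + 1)

/-- The radius needed at stage `n`. -/
noncomputable def rad3 (n : ℕ) (L : ℝ) : ℝ :=
  2 ^ (ex3 n + 1) ^ (n + ⌈L⌉₊ + 1024 + n + 1) + 1

/-- The scales and the radius at stage `n`. -/
structure St3 {N : ℕ} (n : ℕ) (L R C : ℝ) (p : ℂ → Fin N → ℂ) (x : ℕ → ℂ → ℂ)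
    (σ r₀ η₀ r τ : ℝ) : Prop where
  hσ : 1024 ≤ σ ∧ n ≤ σ ∧ L ≤ σ ∧ σ ^ (ex3 n + 1) < R
  dich : ∀ j < n, -sc p σ ^ 2 ≤ av (x j) 1 ∨ av (x j) 1 ≤ -sc p (σ ^ (ex3 n + 1)) ^ 2
  rad : σ ^ 4 ≤ r₀ ∧ 0 < η₀ ∧ r₀ + η₀ ≤ 2 * σ ^ 4 ∧ r₀ + η₀ / 8 ≤ r ∧ r ≤ r₀ + η₀ / 4
  s0 : σ ≤ sc p σ
  s1 : σ ^ 2 * sc p σ ^ 2 ≤ 2 ^ 14 * τ
  s2 : sc p (r₀ + η₀) ≤ 2 ^ 32 * τ ^ 2
  s3 : 1 ≤ 2 ^ 8 * τ * η₀
  s4 : ∀ K : ℕ, K ≤ n → 5 * C + 2 ≤ n → τ ^ K ≤ sc p (σ ^ ex3 n) ^ 2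
  ann : ∀ j < n, Hol R (x j) → NZ R (x j) → -sc p σ ^ 2 ≤ av (x j) 1 →
    (∀ z, ‖z‖ ≤ r₀ + η₀ / 2 → ‖x j z‖ ≤ exp (n * sc p (r₀ + η₀) ^ 2)) →
    ∀ z, |‖z‖ - r| < (τ ^ 20)⁻¹ → x j z ≠ 0

def SSt3 : Prop := ∀ (N n : ℕ) (L R C : ℝ) (p : ℂ → Fin N → ℂ) (x : ℕ → ℂ → ℂ)
  (ph : (Fin N → ℂ) → ℝ), DifferentiableOn ℂ p (ball 0 R) → rad3 n L ≤ R → sc p 1 = 1 →
  ‖p 0‖ ≤ L → Continuous ph → 0 ≤ C →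
  (∀ q, ∑ i, max (q i).re 0 ≤ ph q ∧ ph q ≤ C * (‖q‖ ^ 2 + 1)) →
  ∃ σ r₀ η₀ r, St3 n L R C p x σ r₀ η₀ r (circleAverage (fun z => ph (p z)) 0 r + L + 1)

def SBld : Prop := ∀ (t a M : ℕ) (w : Fin M → Option (Fin t)) (Θ : Pt t a → Fin M → ℂ)
  (k : Subfield ℂ) (L : ℕ → ℝ) (p : ℕ → ℂ → Pt t a), GA1 w Θ → Countable k →
  (∀ n, DifferentiableOn ℂ (p n) (ball 0 (rad3 n (L n)))) → (∀ n, sc (p n) 1 = 1) →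
  (∀ n, ‖p n 0‖ ≤ L n) → ∃ A : AP w Θ k, A.p = p ∧ A.L = L ∧ (∀ n, A.R n = rad3 n (L n)) ∧
    (A.U : Filter ℕ) ≤ atTop

def SMl : Prop := ∀ (t a M : ℕ) (w : Fin M → Option (Fin t)) (Θ : Pt t a → Fin M → ℂ)
  (k : Subfield ℂ) (A : AP w Θ k), A.Ml

def SEmbd : Prop := ∀ (t a M : ℕ) (w : Fin M → Option (Fin t)) (Θ : Pt t a → Fin M → ℂ)
  (PP : PT M t a) (k : Subfield ℂ) (A : AP w Θ k), GD w Θ PP k → A.Ml →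
  ∃ (φ : A.V →+* ℂ) (D : Der) (p₀ : Pt t a) (l : ℂ), A.Emb φ D p₀ l ∧
    Ctx Θ k (A.KK φ) D p₀ fun i => φ (A.gg i)

/-- Elements integral over the rings `LR` have small proximity function. -/
def SSr : Prop := ∀ (t a M : ℕ) (w : Fin M → Option (Fin t)) (Θ : Pt t a → Fin M → ℂ)
  (k : Subfield ℂ) (A : AP w Θ k) (φ : A.V →+* ℂ) (D : Der) (p₀ : Pt t a) (l : ℂ), GA1 w Θ →
  A.Ml → A.Emb φ D p₀ l → ∀ x y : A.V, y ∉ A.P →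
  (∀ β, Ch w β (Θ p₀) → IsIntegral (LR w β (A.KK φ) D (Θ p₀)) (φ x / φ y)) →
  Sm A.U A.r A.τ fun n z => ‖x.1 n z / y.1 n z‖

def SClr : Prop := ∀ (t a M : ℕ) (w : Fin M → Option (Fin t)) (Θ : Pt t a → Fin M → ℂ)
  (k : Subfield ℂ) (A : AP w Θ k) (φ : A.V →+* ℂ) (D : Der) (p₀ : Pt t a) (l : ℂ) (κ : KD M t)
  (hκ : κ.Ok k) (β : Cht M t), A.Emb φ D p₀ l → Ch w β (Θ p₀) →
  Out w κ (A.KK φ) D (Θ p₀) β → A.Clr (A.ch β) (A.fe κ.Q hκ.cQ) (A.Bd κ β)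

/-- A covering lemma. -/
def SCov : Prop := ∀ (N N' : ℕ) (c : Fin N → ℂ) (b : Fin N' → ℂ) (s : Finset (Fin N)) (ω : ℂ → ℝ)
  (x₀ B R₀ : ℝ) (l I : ℕ), LipschitzWith 1 ω → (∀ z, 0 ≤ ω z) → 1 ≤ x₀ → 1 ≤ R₀ → 0 ≤ B → 0 < l →
  2 * (B + N' * (log R₀ + 4 * x₀)) < 2 ^ I * x₀ →
  (∀ i ∈ s, ∀ m ≤ I,
    l * (univ.filter fun i' => ‖c i' - c i‖ ≤ exp (-(4 ^ m * x₀))).card * (4 ^ m * x₀) - B ≤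
      ∑ j, log (R₀ / max (exp (-(4 ^ m * x₀))) ‖b j - c i‖)) →
  l * ∑ i ∈ s, ω (c i) ≤ 12 * ∑ j, ω (b j) + 72 * N' * exp (-x₀)

/-- Approximate vanishing to high order. -/
def SLoc : Prop := ∀ (ζ : ℂ) (η T ρ ε : ℝ) (ν h l N : ℕ) (c : Fin ν → ℂ) (Q g Φ x u : ℂ → ℂ)
  (A : ℕ → ℂ → ℂ), 16 ≤ T → 0 < η → η ≤ 1 → 1 ≤ η * T → 0 < ρ → ρ ≤ exp (-(3 * T)) →
  (ν : ℝ) ≤ T → (h : ℝ) ≤ T → (l : ℝ) ≤ T → (N : ℝ) ≤ T → DifferentiableOn ℂ g (ball ζ η) →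
  DifferentiableOn ℂ Φ (ball ζ η) → DifferentiableOn ℂ u (ball ζ η) →
  (∀ z ∈ ball ζ η, Q z = (∏ i, (z - c i)) * g z) → (∀ i, ‖c i - ζ‖ ≤ ρ) →
  (∀ z ∈ ball ζ η, ‖Q z‖ ≤ exp T ∧ ‖Φ z‖ ≤ exp T ∧ ‖u z‖ ≤ exp T ∧ ∀ j < h, ‖A j z‖ ≤ exp T) →
  exp (-T) ≤ ‖u ζ‖ → ε ≤ ρ ^ (ν + l) →
  (∀ z ∈ ball ζ η, ‖x z * u z ^ N - ∑ j ∈ range h, A j z * iteratedDeriv j Q z‖ ≤ ε) →
  (∀ j < l, ‖u ζ ^ N * iteratedDeriv j Φ ζ‖ ≤ ε) →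
  ∀ z, ‖z - ζ‖ ≤ ρ → ‖Φ z ^ h * x z ^ l‖ ≤ exp (T ^ 5) * ρ ^ (l * ν)

/-- A function that is small on a small circle has many zeros nearby. -/
def SLoc2 : Prop := ∀ (R r η T ρ B : ℝ) (N : ℕ) (b : Fin N → ℂ) (f g : ℂ → ℂ) (ζ : ℂ), 1 ≤ r →
  0 < η → r + η < R → Hol R g → (∀ z, f z = (∏ j, (z - b j)) * g z) → (∀ j, ‖b j‖ ≤ r + η) →
  (∀ z, ‖z‖ ≤ r + η → g z ≠ 0) → 0 ≤ T → (∀ z, ‖z‖ ≤ r + η → ‖f z‖ ≤ exp T) → -T ≤ av f 1 →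
  ‖ζ‖ ≤ r → 0 < ρ → ρ < η → 0 < B → (∀ z, ‖z - ζ‖ = ρ → ‖f z‖ ≤ B) →
  -log B - 4 * (r + η) / η * T ≤ ∑ j, log (2 * (r + η) / max ρ ‖b j - ζ‖)

def SBad : Prop := ∀ (t a M : ℕ) (w : Fin M → Option (Fin t)) (Θ : Pt t a → Fin M → ℂ)
  (k : Subfield ℂ) (A : AP w Θ k) (u q : A.V) (B : ℕ → ℂ → Prop), q ∉ A.P → A.Clr u q B →
  A.Few u q B

/-- The function `G` attached to a disc `p`. -/
structure GF {t a M : ℕ} (w : Fin M → Option (Fin t)) (Θ : Pt t a → Fin M → ℂ) (κ : KD M t)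
    (R : ℝ) (p : ℂ → Pt t a) (G : ℂ → ℂ) : Prop where
  hol : Hol R G
  eq : ∀ c, ∀ z ∈ ball (0 : ℂ) R, (G z * Θ (p z) c) ^ κ.d + ∑ i ∈ range κ.d,
    eval (Θ (p z)) (κ.Pc c i) * eval (Θ (p z)) κ.Q ^ (κ.d - i - 1) * (G z * Θ (p z) c) ^ i = 0
  bad : ∀ ζ ∈ ball (0 : ℂ) R,
    meromorphicOrderAt (fun s => eval (Θ (p s)) κ.Q) ζ ≤ meromorphicOrderAt G ζ ∨
    (eval (Θ (p ζ)) κ.Q = 0 ∧ ∀ β, Ch w β (Θ (p ζ)) → ∀ f ∈ κ.Jb β,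
      eval (co β (Θ (p ζ))) f.2 = 0 ∨ (eval (co β (Θ (p ζ))) f.1 = 0 ∧
        deriv (fun s => eval (co β (Θ (p s))) f.1) ζ = 0))

/-- The final contradiction, by Jensen's formula. -/
def SJen : Prop := ∀ (t a M : ℕ) (w : Fin M → Option (Fin t)) (Θ : Pt t a → Fin M → ℂ)
  (k : Subfield ℂ) (A : AP w Θ k) (κ : KD M t) (hκ : κ.Ok k) (G : ℕ → ℂ → ℂ), A.Ml →
  A.fe κ.Q hκ.cQ ∉ A.P → (∀ n, GF w Θ κ (A.R n) (A.p n) (G n)) →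
  (∀ n, exp (-A.L n) ≤ ‖G n 0‖) →
  (∀ c i, Sm A.U A.r A.τ fun n z =>
    ‖(A.fe _ (hκ.cP c i)).1 n z / (A.fe κ.Q hκ.cQ).1 n z‖) →
  (∀ β : Cht M t, (∀ o, w (β o) = o ∧ A.θ (β o) ∉ A.P) →
    A.Few (A.ch β) (A.fe κ.Q hκ.cQ) (A.Bd κ β)) → False

/-- `y` is a generic point over `k` of the variety whose forms are those in `Y`. -/
def Gen {M : ℕ} (k : Subfield ℂ) (Y : Set (PR M)) (y : Fin M → ℂ) : Prop :=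
  ∀ (F : PR M) (d : ℕ), F.IsHomogeneous d → Cf k F → (eval y F = 0 ↔ F ∈ Y)

/-- The analytic core. -/
def SCore : Prop := ∀ (t a M : ℕ) (w : Fin M → Option (Fin t)) (Θ : Pt t a → Fin M → ℂ)
  (PP : PT M t a) (k : Subfield ℂ) (κ : KD M t) (Y : Set (PR M)) (L : ℕ → ℝ)
  (p : ℕ → ℂ → Pt t a) (G : ℕ → ℂ → ℂ), GA1 w Θ → GD w Θ PP k → Countable k → κ.Ok k →
  (∀ p₀, Gen k Y (Θ p₀) → ∃ J γ E, KDat w Θ k κ p₀ J γ E) →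
  (∀ n, DifferentiableOn ℂ (p n) (ball 0 (rad3 n (L n)))) → (∀ n, sc (p n) 1 = 1) →
  (∀ n, ‖p n 0‖ ≤ L n) → (∀ n, GF w Θ κ (rad3 n (L n)) (p n) (G n)) →
  (∀ n, exp (-L n) ≤ ‖G n 0‖) →
  (∀ (F : PR M) (d : ℕ), F.IsHomogeneous d → Cf k F →
    (F ∈ Y → ∀ n, ∀ z ∈ ball (0 : ℂ) (rad3 n (L n)), eval (Θ (p n z)) F = 0) ∧
    (F ∉ Y → ∀ᶠ n in atTop, exp (-L n) ≤ ‖eval (Θ (p n 0)) F‖)) → False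

theorem sCore (h1 : SBld) (h2 : SMl) (h3 : SEmbd) (h4 : SAlgp) (h5 : SSr) (h6 : SClr) (h7 : SBad)
    (h8 : SJen) : SCore := by
  intro t a M w Θ PP k κ Y L p G g1 g2 k0 hκ hK a1 a2 a3 a4 a5 a6
  obtain ⟨A, rfl, rfl, e1, e2⟩ := h1 _ _ _ w Θ k L p g1 k0 a1 a2 a3
  have ml := h2 _ _ _ w Θ k A
  obtain ⟨φ, D, p₀, l, hE, hC⟩ := h3 _ _ _ w Θ PP k A g2 ml
  have ev : ∀ (F : PR M) (d : ℕ), F.IsHomogeneous d → ∀ h : Cf k F,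
      φ (A.fe F h) = l ^ d * eval (Θ p₀) F := fun F d hd h => by
    rw [A.map_fe φ hE.cst, ← eval_smul_hom hd]
    exact congrArg (fun y => eval y F) (funext hE.th)
  obtain ⟨J, γ, E, hD⟩ := hK p₀ fun F d hd h => by
    rw [← mul_eq_zero_iff_left (pow_ne_zero d hE.l0), ← ev F d hd h, hE.ker]
    refine ⟨fun hP => by_contra fun hY => ?_, fun hY => by_contra fun hP => ?_⟩
    · obtain ⟨n, ⟨b1, b2⟩, b3, b4⟩ := (((A.tiny _ hP 2).and (e2 ((a6 F d hd h).2 hY))).and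
        ((A.Lsm 1 one_pos).and (A.τtop.eventually_gt_atTop 1))).exists
      have := (b2.trans_eq (congrArg norm (A.fe_apply F h n 0).symm)).trans (b1 0 (by rw [norm_zero]; linarith [A.r0 n, (A.num n).2.1]))
      rw [exp_le_exp] at this
      nlinarith
    · obtain ⟨n, ⟨z, b1, b2⟩, -⟩ := (A.big _ hP 1 one_pos).exists
      exact b2 ((A.fe_apply F h n z).trans ((a6 F d hd h).1 hY n z (e1 n ▸ b1)))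
  have out := h4 _ _ _ w Θ PP k _ D p₀ _ κ J γ E g2 hC hκ hD
  have q0 : A.fe κ.Q hκ.cQ ∉ A.P := by
    rw [← hE.ker, ev _ _ hκ.hQ]
    exact mul_ne_zero (pow_ne_zero _ hE.l0) hD.Qn
  refine h8 _ _ _ w Θ k A κ hκ G ml q0 (fun n => e1 n ▸ a4 n) a5 (fun c i => ?_) fun β hβ => ?_
  · refine h5 _ _ _ w Θ k A φ D p₀ l g1 ml hE _ _ q0 fun β hβ => ?_
    rw [ev _ _ hκ.hQ, ev _ _ (hκ.hP c i), mul_div_mul_left _ _ (pow_ne_zero _ hE.l0)]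
    exact (out β hβ).o2 c i
  · have hβ' : Ch w β (Θ p₀) := fun o => ⟨(hβ o).1, fun e => (hβ o).2 (by
      rw [← hE.ker, hE.th, e, mul_zero])⟩
    exact h7 _ _ _ w Θ k A _ _ _ q0 (h6 _ _ _ w Θ k A φ D p₀ l κ hκ β hE hβ' (out β hβ'))

end Pool.Agent.MP_c69980_ag.H43
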