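import Pool.Agent.MP_c69980_ag.H43.Spec4
import Pool.Agent.MP_c69980_ag.H43.Spec2

/-!
Statements on the function field of `U`.
-/

set_option autoImplicit false

namespace Pool.Agent.MP_c69980_ag.H43

open MvPolynomial H60 Finset Filter Topology Metric

section Defs
variable {t a M n : ℕ} {K : Type} [Field K] [Algebra ℂ K]

/-- The function field of the image of `U`. -/
noncomputable def K0 (u : Fin M → K) : IntermediateField ℂ K := IntermediateField.adjoin ℂ (rat u)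

/-- `u` defines a morphism from `U` to `G`, generically finite onto its image. -/
structure Mp (w : Fin M → Option (Fin t)) (Θ : Pt t a → Fin M → ℂ) (U : Set (PS n))
    (z : Fin n → K) (u : Fin M → K) : Prop where
  var : IsVar U
  gen : GenPt U z
  hu : ∀ (F : PR M) (d : ℕ), F.IsHomogeneous d → (∀ p, eval (Θ p) F = 0) → aeval u F = 0
  hr : ∀ x ∈ U, ∀ o, ∃ b, w b = o ∧ u b ≠ 0 ∧ ∀ c, u c / u b ∈ locRing z x
  hf : Algebra.IsAlgebraic (K0 u) K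

/-- An echelon basis of the derivations of `K`. -/
structure TK (w : Fin M → Option (Fin t)) (PP : PT M t a) (u : Fin M → K) {m : ℕ}
    (J : Fin m → Fin (t + a)) (γ : Fin m → Fin (t + a) → K) (E : Fin m → Derivation ℂ K K) :
    Prop where
  deg : Algebra.trdeg ℂ K = m
  mem : ∀ j i, γ j i ∈ K0 u
  ech : ∀ j i, γ j (J i) = if j = i then 1 else 0
  ind : LinearIndependent K E
  act : ∀ β, Ch w β u → ∀ j x, E j (co β u x) = vf (PP β) (γ j) (co β u) x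

/-- The equations of the functions `Γ c`. -/
structure KE (u : Fin M → K) {m : ℕ} (E : Fin m → Derivation ℂ K K) (Γ : Fin M → K) (d e : ℕ)
    (Q : PR M) (Pc : Fin M → ℕ → PR M) : Prop where
  hQ : Q.IsHomogeneous e
  hP : ∀ c i, (Pc c i).IsHomogeneous e
  Qn : aeval u Q ≠ 0
  eq : ∀ c, Γ c ^ d + ∑ i ∈ range d, aeval u (Pc c i) / aeval u Q * Γ c ^ i = 0
  mem : ∀ c i, aeval u (Pc c i) / aeval u Q ∈ Subring.closure
    (Set.range (algebraMap ℂ K) ∪ {x | ∃ j, ∃ φ ∈ K0 u, x = E j φ / φ})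

/-- The divisors of `q` in a chart with coordinates `v`. -/
structure KB (U : Set (PS n)) (z : Fin n → K) (v : CI M t → K) {m : ℕ}
    (γ : Fin m → Fin (t + a) → K) (E : Fin m → Derivation ℂ K K) (q : CP M t) (Γ : Fin M → K)
    (s : Finset (CP M t × CP M t)) (Q₀ : PR n) : Prop where
  cert : ∀ f ∈ s, ∃ (l : Fin m) (N b Ψ : CP M t), f.2 = Ψ * N ∧
    aeval v N = aeval v b * E l (aeval v f.1)
  zz : ∀ y' : Fin (m - 1) → CI M t, ∃ H : MvPolynomial (Fin (m - 1)) ℂ, H ≠ 0 ∧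
    ∀ y : CI M t → ℂ, (∀ P : CP M t, aeval v P = 0 → eval y P = 0) → eval y q = 0 →
      (∃ b : CP M t, eval y b ≠ 0 ∧ ∀ j i, ∃ c : CP M t, aeval v b * γ j i = aeval v c) →
      (∀ f ∈ s, eval y f.2 = 0) → eval (y ∘ y') H = 0
  arc : ∀ R x ζ, Dk U 0 R x → ζ ∈ ball (0 : ℂ) R → eval (x 0) Q₀ ≠ 0 →
    (∀ i, Reg z (x ζ) (v i)) → vl z (aeval v q) (x ζ) = 0 → ∀ f ∈ s,
      vl z (aeval v f.2) (x ζ) ≠ 0 → vl z (aeval v f.1) (x ζ) = 0 ∧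
        (od z x ζ (aeval v f.1) = 1 → ∀ c, 0 ≤ od z x ζ (Γ c))

/-- All the data on the function field. -/
structure KL (w : Fin M → Option (Fin t)) (PP : PT M t a) (U : Set (PS n)) (z : Fin n → K)
    (u : Fin M → K) (κ : KD M t) (J : Fin κ.m → Fin (t + a)) (γ : Fin κ.m → Fin (t + a) → K)
    (E : Fin κ.m → Derivation ℂ K K) (γ₀ : K) (b₀ : Fin M) (Q₀ : PR n) : Prop where
  tk : TK w PP u J γ E
  g0 : γ₀ ≠ 0
  b0 : u b₀ ≠ 0
  Q0 : (∃ e, Q₀.IsHomogeneous e) ∧ aeval z Q₀ ≠ 0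
  ke : KE u E (fun c => γ₀ * (u c / u b₀)) κ.d κ.e κ.Q κ.Pc
  kb : ∀ β, Ch w β u →
    KB U z (co β u) γ E (dh κ.Q) (fun c => γ₀ * (u c / u b₀)) (κ.Jb β) Q₀

/-- `p` is a lift of the image of the point `y` of `U`. -/
def Lf (z : Fin n → K) (u : Fin M → K) (Θ : Pt t a → Fin M → ℂ) (y : Fin n → ℂ) (p : Pt t a) :
    Prop := ∀ c b, u b ≠ 0 → Reg z y (u c / u b) → Θ p c = vl z (u c / u b) y * Θ p b

/-- Values at a lift. -/
structure Lfe (w : Fin M → Option (Fin t)) (Θ : Pt t a → Fin M → ℂ) (U : Set (PS n))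
    (z : Fin n → K) (u : Fin M → K) : Prop where
  val : ∀ y ∈ Cone U, ∀ p, Lf z u Θ y p → ∀ β, Ch w β (Θ p) →
    Ch w β u ∧ ∀ x, Reg z y (co β u x) ∧ vl z (co β u x) y = co β (Θ p) x
  ch : ∀ y ∈ Cone U, ∀ p, Lf z u Θ y p → ∀ β, Ch w β u → (∀ x, Reg z y (co β u x)) → Ch w β (Θ p)
  zero : ∀ y ∈ Cone U, ∀ p, Lf z u Θ y p → ∀ (F : PR M) (d : ℕ), F.IsHomogeneous d →
    aeval u F = 0 → eval (Θ p) F = 0
  ex : ∀ y ∈ Cone U, ∃ p, Lf z u Θ y p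
  par : ∀ y p p', Lf z u Θ y p → p - p' ∈ Lam Θ → Lf z u Θ y p'
  lift : ∀ R x p₀, 0 < R → Dk U 0 R x → Lf z u Θ (x 0) p₀ → ∃ p : ℂ → Pt t a,
    DifferentiableOn ℂ p (ball 0 R) ∧ p 0 = p₀ ∧ ∀ s ∈ ball (0 : ℂ) R, Lf z u Θ (x s) (p s)

end Defs

def STank : Prop := ∀ (t a M n : ℕ) (w : Fin M → Option (Fin t)) (Θ : Pt t a → Fin M → ℂ)
  (PP : PT M t a) (K : Type) [Field K] [Algebra ℂ K] (U : Set (PS n)) (z : Fin n → K)
  (u : Fin M → K) (m : ℕ), Ev (GD w Θ PP) → Mp w Θ U z u → Algebra.trdeg ℂ K = m →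
  ∃ (J : Fin m → Fin (t + a)) (γ : Fin m → Fin (t + a) → K) (E : Fin m → Derivation ℂ K K),
    TK w PP u J γ E

/-- Log-general type gives a function dominating a given finite family. -/
def SAlgK : Prop := ∀ (n : ℕ) (K : Type) [Field K] [Algebra ℂ K] (U : Set (PS n)) (z : Fin n → K),
  GenPt U z → LogGT U z → ∃ m : ℕ, Algebra.trdeg ℂ K = m ∧
    ∀ E : Fin m → Derivation ℂ K K, LinearIndependent K E → ∀ (N : ℕ) (ψ : Fin N → K),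
      ∃ γ₀ : K, γ₀ ≠ 0 ∧ ∀ V : ValuationSubring K, (∀ c, algebraMap ℂ K c ∈ V) →
        ((∀ j f, E j f / f ∈ V) ∨ (Cen U z V ∧ ∀ j, ∀ f ∈ V, E j f ∈ V)) → ∀ i, γ₀ * ψ i ∈ V

def SPi : Prop := ∀ (t a M : ℕ) (w : Fin M → Option (Fin t)) (PP : PT M t a) (K : Type) [Field K]
  [Algebra ℂ K] (u : Fin M → K) (m : ℕ) (J : Fin m → Fin (t + a)) (γ : Fin m → Fin (t + a) → K)
  (E : Fin m → Derivation ℂ K K) (β : Cht M t) (Γ : Fin M → K), TK w PP u J γ E → Ch w β u →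
  Algebra.IsAlgebraic (K0 u) K →
  (∀ V : ValuationSubring K, (∀ c, algebraMap ℂ K c ∈ V) → (∀ j f, E j f / f ∈ V) →
    ∀ c, Γ c ∈ V) → ∃ d e Q Pc, KE u E Γ d e Q Pc

/-- Valuations attached to arcs that are transversal to a divisor. -/
def SArc : Prop := ∀ (n : ℕ) (K : Type) [Field K] [Algebra ℂ K] (U : Set (PS n)) (z : Fin n → K)
  (ι : Type) (v : ι → K) (p : Ideal (MvPolynomial ι ℂ)) (F : MvPolynomial ι ℂ) (Γ : K),
  IsVar U → GenPt U z → p.IsPrime →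
  (∀ V : ValuationSubring K, Cen U z V → (∀ P : MvPolynomial ι ℂ, aeval v P ∈ V) →
    (∀ P ∉ p, V.valuation (aeval v P) = 1) → V.valuation (aeval v F) < 1 →
    (∀ g, V.valuation g < 1 → V.valuation g ≤ V.valuation (aeval v F)) → Γ ∈ V) →
  ∃ (Ψ : MvPolynomial ι ℂ) (Q : PR n) (e : ℕ), Ψ ∉ p ∧ Q.IsHomogeneous e ∧ aeval z Q ≠ 0 ∧
    ∀ R x ζ, Dk U 0 R x → ζ ∈ ball (0 : ℂ) R → eval (x 0) Q ≠ 0 → (∀ i, Reg z (x ζ) (v i)) →
      od z x ζ (aeval v F) = 1 → vl z (aeval v Ψ) (x ζ) ≠ 0 → 0 ≤ od z x ζ Γ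

/-- Derivations preserve unramified divisorial valuation rings. -/
def SUnr : Prop := ∀ (n m : ℕ) (K : Type) [Field K] [Algebra ℂ K] (U : Set (PS n)) (z : Fin n → K)
  (ι : Type) (v : ι → K) (p : Ideal (MvPolynomial ι ℂ)) (F : MvPolynomial ι ℂ) (y : Fin m → ι)
  (V : ValuationSubring K) (E : Derivation ℂ K K), GenPt U z →
  Algebra.trdeg ℂ K = (m + 1 : ℕ) → (∀ H : MvPolynomial (Fin m) ℂ, rename y H ∈ p → H = 0) →
  aeval v F ≠ 0 → (∀ P : MvPolynomial ι ℂ, aeval v P ∈ V) →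
  (∀ P ∉ p, V.valuation (aeval v P) = 1) → V.valuation (aeval v F) < 1 →
  (∀ g, V.valuation g < 1 → V.valuation g ≤ V.valuation (aeval v F)) → (∀ i, E (v i) ∈ V) →
  ∀ g ∈ V, E g ∈ V

/-- A proper subvariety is not invariant under all the vector fields. -/
def SPf : Prop := ∀ (t a M n : ℕ) (w : Fin M → Option (Fin t)) (Θ : Pt t a → Fin M → ℂ)
  (PP : PT M t a) (K : Type) [Field K] [Algebra ℂ K] (U : Set (PS n)) (z : Fin n → K)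
  (u : Fin M → K) (m : ℕ) (J : Fin m → Fin (t + a)) (γ : Fin m → Fin (t + a) → K)
  (E : Fin m → Derivation ℂ K K) (β : Cht M t) (p : Ideal (CP M t)) (b : CP M t),
  Ev (GD w Θ PP) → Mp w Θ U z u → TK w PP u J γ E → Ch w β u → p.IsPrime →
  (∀ P, aeval (co β u) P = 0 → P ∈ p) → (∃ P ∈ p, aeval (co β u) P ≠ 0) → b ∉ p →
  (∀ j i, ∃ c : CP M t, aeval (co β u) b * γ j i = aeval (co β u) c) →
  ∃ F ∈ p, ∃ (l : Fin m) (N : CP M t), N ∉ p ∧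
    aeval (co β u) N = aeval (co β u) b * E l (aeval (co β u) F)

def SPrim : Prop := ∀ (t a M n : ℕ) (w : Fin M → Option (Fin t)) (Θ : Pt t a → Fin M → ℂ)
  (PP : PT M t a) (K : Type) [Field K] [Algebra ℂ K] (U : Set (PS n)) (z : Fin n → K)
  (u : Fin M → K) (m : ℕ) (J : Fin m → Fin (t + a)) (γ : Fin m → Fin (t + a) → K)
  (E : Fin m → Derivation ℂ K K) (β : Cht M t) (q : CP M t) (Γ : Fin M → K),
  Ev (GD w Θ PP) → Mp w Θ U z u → TK w PP u J γ E → Ch w β u → aeval (co β u) q ≠ 0 →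
  (∀ V : ValuationSubring K, (∀ c, algebraMap ℂ K c ∈ V) → Cen U z V →
    (∀ j, ∀ f ∈ V, E j f ∈ V) → ∀ c, Γ c ∈ V) →
  ∃ (s : Finset (CP M t × CP M t)) (Q₀ : PR n) (e : ℕ), Q₀.IsHomogeneous e ∧ aeval z Q₀ ≠ 0 ∧
    KB U z (co β u) γ E q Γ s Q₀

def SKl : Prop := ∀ (t a M n : ℕ) (w : Fin M → Option (Fin t)) (Θ : Pt t a → Fin M → ℂ)
  (PP : PT M t a) (K : Type) [Field K] [Algebra ℂ K] (U : Set (PS n)) (z : Fin n → K)
  (u : Fin M → K), Ev (GD w Θ PP) → Mp w Θ U z u → LogGT U z →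
  ∃ κ J γ E γ₀ b₀ Q₀, KL w PP U z u κ J γ E γ₀ b₀ Q₀

/-- Descent to a countable field and transfer to a generic complex point. -/
def SKalg : Prop := ∀ (t a M n : ℕ) (w : Fin M → Option (Fin t)) (Θ : Pt t a → Fin M → ℂ)
  (PP : PT M t a) (K : Type) [Field K] [Algebra ℂ K] (U : Set (PS n)) (z : Fin n → K)
  (u : Fin M → K) (κ : KD M t) (J : Fin κ.m → Fin (t + a)) (γ : Fin κ.m → Fin (t + a) → K)
  (E : Fin κ.m → Derivation ℂ K K) (γ₀ : K) (b₀ : Fin M) (Q₀ : PR n),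
  Ev (GD w Θ PP) → Mp w Θ U z u → KL w PP U z u κ J γ E γ₀ b₀ Q₀ →
  Ev fun k => κ.Ok k ∧ ∀ p₀, Gen k {F | aeval u F = 0} (Θ p₀) →
    ∃ J' γ' E', KDat w Θ k κ p₀ J' γ' E'

def SLfe : Prop := ∀ (t a M n : ℕ) (w : Fin M → Option (Fin t)) (Θ : Pt t a → Fin M → ℂ)
  (K : Type) [Field K] [Algebra ℂ K] (U : Set (PS n)) (z : Fin n → K) (u : Fin M → K),
  GA w Θ → Lft Θ → Mp w Θ U z u → Lfe w Θ U z u

/-- The derivative of a rational function along a disc is bounded by that of the lift. -/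
def SDerb : Prop := ∀ (t a M n : ℕ) (w : Fin M → Option (Fin t)) (Θ : Pt t a → Fin M → ℂ)
  (PP : PT M t a) (K : Type) [Field K] [Algebra ℂ K] (U : Set (PS n)) (z : Fin n → K)
  (u : Fin M → K), GA1 w Θ → DerF w Θ PP → Mp w Θ U z u → Lfe w Θ U z u → ∀ g : K,
  Gn z fun L y => ∀ R x (p : ℂ → Pt t a), 0 < R → Dk U 0 R x → x 0 = y →
    DifferentiableOn ℂ p (ball 0 R) → (∀ s ∈ ball (0 : ℂ) R, Lf z u Θ (x s) (p s)) →
    ‖deriv (fun s => vl z g (x s)) 0‖ ≤ L * ‖deriv p 0‖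

def SGdisc : Prop := ∀ (t a M n : ℕ) (w : Fin M → Option (Fin t)) (Θ : Pt t a → Fin M → ℂ)
  (PP : PT M t a) (K : Type) [Field K] [Algebra ℂ K] (U : Set (PS n)) (z : Fin n → K)
  (u : Fin M → K) (κ : KD M t) (J : Fin κ.m → Fin (t + a)) (γ : Fin κ.m → Fin (t + a) → K)
  (E : Fin κ.m → Derivation ℂ K K) (γ₀ : K) (b₀ : Fin M) (Q₀ : PR n), GA1 w Θ → Mp w Θ U z u →
  Lfe w Θ U z u → KL w PP U z u κ J γ E γ₀ b₀ Q₀ → ∀ R x (p : ℂ → Pt t a), 0 < R → Dk U 0 R x →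
  DifferentiableOn ℂ p (ball 0 R) → (∀ s ∈ ball (0 : ℂ) R, Lf z u Θ (x s) (p s)) →
  eval (x 0) Q₀ ≠ 0 → Reg z (x 0) γ₀ → Θ (p 0) b₀ ≠ 0 → eval (Θ (p 0)) κ.Q ≠ 0 →
  ∃ G, GF w Θ κ R p G ∧ G 0 = eval (Θ (p 0)) κ.Q * vl z γ₀ (x 0) / Θ (p 0) b₀

/-- Outside a hypersurface the derivatives of discs are locally bounded. -/
def SGood : Prop := ∀ (t a M n : ℕ) (w : Fin M → Option (Fin t)) (Θ : Pt t a → Fin M → ℂ)
  (PP : PT M t a) (K : Type) [Field K] [Algebra ℂ K] (U : Set (PS n)) (z : Fin n → K)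
  (u : Fin M → K), GA w Θ → Prp w Θ → Lft Θ → Ev (GD w Θ PP) → Mp w Θ U z u → LogGT U z →
  ∀ j : Fin n, ∃ (H : PR n) (e : ℕ), H.IsHomogeneous e ∧ aeval z H ≠ 0 ∧
    ∀ p, eval p H ≠ 0 → Good2 U j p

lemma Mp.ch {t a M n : ℕ} {w : Fin M → Option (Fin t)} {Θ : Pt t a → Fin M → ℂ} {K : Type}
    [Field K] [Algebra ℂ K] {U : Set (PS n)} {z : Fin n → K} {u : Fin M → K} (h : Mp w Θ U z u) :
    ∃ β, Ch w β u :=
  let ⟨x, hx⟩ := h.var.1.1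
  exists_ch fun o => let ⟨b, h1, h2, _⟩ := h.hr x hx o; ⟨b, h1, h2⟩

theorem sKl (h1 : SAlgK) (h2 : STank) (h3 : SPi) (h4 : SPrim) : SKl := by
  intro t a M n w Θ PP K _ _ U z u g h hG
  classical
  obtain ⟨m, hm, hA⟩ := h1 n K U z h.gen hG
  obtain ⟨J, γ, E, tk⟩ := h2 _ _ _ _ w Θ PP K U z u m g h hm
  obtain ⟨β₀, hβ₀⟩ := h.ch
  obtain ⟨γ₀, g0, hV⟩ := hA E tk.ind M fun c => u c / u (β₀ none)
  obtain ⟨d, e, Q, Pc, ke⟩ := h3 _ _ _ w PP K u m J γ E β₀ _ tk hβ₀ h.hf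
    fun V a b => hV V a (Or.inl b)
  have : ∀ β, ∃ (s : Finset (CP M t × CP M t)) (Q₀ : PR n) (e : ℕ), Q₀.IsHomogeneous e ∧
      aeval z Q₀ ≠ 0 ∧ (Ch w β u →
        KB U z (co β u) γ E (dh Q) (fun c => γ₀ * (u c / u (β₀ none))) s Q₀) := fun β => by
    by_cases hβ : Ch w β u
    · obtain ⟨s, Q₀, e', a1, a2, a3⟩ := h4 _ _ _ _ w Θ PP K U z u m J γ E β (dh Q) _ g h tk hβ
        (by rw [eval_dh ke.hQ]; exact div_ne_zero ke.Qn (pow_ne_zero _ (hβ none).2))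
        fun V a b c => hV V a (Or.inr ⟨b, c⟩)
      exact ⟨s, Q₀, e', a1, a2, fun _ => a3⟩
    · exact ⟨∅, 1, 0, isHomogeneous_one _ _, by simp, fun a => absurd a hβ⟩
  choose s Q₀ e' a1 a2 a3 using this
  refine ⟨⟨m, d, e, Q, Pc, s⟩, J, γ, E, γ₀, β₀ none, ∏ β, Q₀ β, tk, g0, (hβ₀ none).2,
    ⟨⟨_, IsHomogeneous.prod _ _ _ fun β _ => a1 β⟩, ?_⟩, ke, fun β hβ =>
    ⟨(a3 β hβ).cert, (a3 β hβ).zz, fun R x ζ b1 b2 b3 => (a3 β hβ).arc R x ζ b1 b2 ?_⟩⟩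
  · rw [map_prod]; exact prod_ne_zero_iff.2 fun β _ => a2 β
  · rw [map_prod] at b3; exact prod_ne_zero_iff.1 b3 β (mem_univ β)

theorem main (h1 : SGeo) (h2 : SGood) {t a M n : ℕ} {w : Fin M → Option (Fin t)}
    {ϑ : (Fin a → ℂ) → Fin M → ℂ} (hG : SemiAb w ϑ) {K : Type} [Field K] [Algebra ℂ K]
    {U : Set (PS n)} {z : Fin n → K} {u : Fin M → K} (h : Mp w (TH w ϑ) U z u) (h4 : LogGT U z) :
    PseudoKob U := by
  have hz := h.gen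
  obtain ⟨g1, g2, g3, PP, g4⟩ := h1 _ _ _ w ϑ hG
  obtain ⟨P, hP⟩ := h.var.1.1
  obtain ⟨j, hj⟩ := Function.ne_iff.1 P.rep_nonzero
  have j0 : z j ≠ 0 := fun e =>
    hj (by simpa using (hz.1 (X j) 1 (isHomogeneous_X _ _)).1 (by simpa) P hP)
  obtain ⟨H, e, H1, H2, H3⟩ := h2 _ _ _ _ w _ PP K U z u g1 g2 g3 g4 h h4 j
  have hh := H1.mul (isHomogeneous_X ℂ j)
  refine ⟨{P | eval P.rep (H * X j) = 0}, ⟨{H * X j}, by simpa using ⟨_, hh⟩, by simp⟩,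
    fun hs => ?_, ?_⟩
  · simpa [H2, j0] using (hz.1 _ _ hh).2 hs
  have key : ∀ P : PS n, eval P.rep (H * X j) ≠ 0 →
      P.rep j ≠ 0 ∧ Good2 U j (nrm j P.rep) := fun P h => by
    rw [map_mul, eval_X, mul_ne_zero_iff] at h
    refine ⟨h.2, H3 _ ?_⟩
    rw [nrm, eval_smul_hom H1]
    exact mul_ne_zero (pow_ne_zero _ (inv_ne_zero h.2)) h.1
  intro P _ Q _ hPQ hΔ
  rcases not_and_or.1 hΔ with h | h
  · exact (kob_pos2 (key P h).1 (key P h).2 hPQ).1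
  · exact (kob_pos2 (key Q h).1 (key Q h).2 hPQ.symm).2

end Pool.Agent.MP_c69980_ag.H43
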