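import Pool.Agent.MP_c69980_ag.H43.Spec5
import Pool.Agent.MP_c69980_ag.H43.FF
import Pool.Agent.MP_c69980_ag.H43.Defs2

/-!
Points of a semi-abelian variety over abstract fields; curves and their function fields.
-/

set_option autoImplicit false

namespace Pool.Agent.MP_c69980_ag.H43

open MvPolynomial H60 Finset Filter Topology Metric

section Defs
variable {t a M n : ℕ}

/-- `y` satisfies the equations of `G`. -/
def Eqs (Θ : Pt t a → Fin M → ℂ) {A : Type} [CommRing A] [Algebra ℂ A] (y : Fin M → A) : Prop :=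
  ∀ (F : PR M) (d : ℕ), F.IsHomogeneous d → (∀ p, eval (Θ p) F = 0) → aeval y F = 0

/-- Bihomogeneous polynomials. -/
def BiH {ι κ : Type} (H : MvPolynomial (ι ⊕ κ) ℂ) (d e : ℕ) : Prop :=
  H.IsWeightedHomogeneous (Sum.elim (fun _ => (1, 0)) fun _ => (0, 1)) (d, e)

/-- `(z', u')` is a specialisation of `(z, u)` in a product of projective spaces. -/
def Rel {ι κ K A : Type} [CommRing K] [Algebra ℂ K] [CommRing A] [Algebra ℂ A] (z : ι → K)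
    (u : κ → K) (z' : ι → A) (u' : κ → A) : Prop :=
  ∀ (H : MvPolynomial (ι ⊕ κ) ℂ) (d e : ℕ), BiH H d e → aeval (Sum.elim z u) H = 0 →
    aeval (Sum.elim z' u') H = 0

/-- `S` is a formula for the subtraction, of bidegree `(d, e)`. -/
def IsSub (Θ : Pt t a → Fin M → ℂ) (S : Fin M → MvPolynomial (Fin M ⊕ Fin M) ℂ) (d e : ℕ) : Prop :=
  (∀ c, BiH (S c) d e) ∧ ∀ p q, ∃ l : ℂ, ∀ c, eval (Sum.elim (Θ p) (Θ q)) (S c) = l * Θ (p - q) c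

/-- The value of a formula. -/
noncomputable def sb (S : Fin M → MvPolynomial (Fin M ⊕ Fin M) ℂ) {A : Type} [CommRing A]
    [Algebra ℂ A] (y y' : Fin M → A) : Fin M → A := fun c => aeval (Sum.elim y y') (S c)

variable {Ω : Type} [Field Ω] [Algebra ℂ Ω]

/-- `y` is a point of `G`. -/
structure OnG (w : Fin M → Option (Fin t)) (Θ : Pt t a → Fin M → ℂ) (y : Fin M → Ω) : Prop where
  blk : ∀ o, ∃ b, w b = o ∧ y b ≠ 0
  eqs : Eqs Θ y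

/-- `δ` moves `y` with velocity `g`. -/
def Vel (w : Fin M → Option (Fin t)) (PP : PT M t a) (δ : Ω → Ω) (y : Fin M → Ω)
    (g : Fin (t + a) → Ω) : Prop :=
  ∀ β, Ch w β y → ∀ x, δ (co β y x) = vf (PP β) g (co β y) x

/-- `δ` vanishes on `k`. -/
def KillA (k : Subfield ℂ) (δ : Ω → Ω) : Prop := ∀ c ∈ k, δ (algebraMap ℂ Ω c) = 0

end Defs

section GK
variable {t a M : ℕ} (w : Fin M → Option (Fin t)) (Θ : Pt t a → Fin M → ℂ) (PP : PT M t a)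

/-- Velocities of derivations that vanish on `k`. -/
structure GKk (k : Subfield ℂ) : Prop where
  eqs : ∀ (A : Type) [CommRing A] [Algebra ℂ A] (y : Fin M → A), (∀ (F : PR M) (d : ℕ),
    F.IsHomogeneous d → Cf k F → (∀ p, eval (Θ p) F = 0) → aeval y F = 0) → Eqs Θ y
  ex : ∀ (Ω : Type) [Field Ω] [Algebra ℂ Ω] (y : Fin M → Ω) (δ : Derivation ℤ Ω Ω), OnG w Θ y →
    KillA k δ → ∃ g, Vel w PP δ y g
  one : ∀ (Ω : Type) [Field Ω] [Algebra ℂ Ω] (y : Fin M → Ω) (δ : Derivation ℤ Ω Ω) g β,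
    OnG w Θ y → KillA k δ → Ch w β y → (∀ x, δ (co β y x) = vf (PP β) g (co β y) x) →
    Vel w PP δ y g
  br : ∀ (Ω : Type) [Field Ω] [Algebra ℂ Ω] (y : Fin M → Ω) (δ δ' : Derivation ℤ Ω Ω) g g',
    OnG w Θ y → KillA k δ → KillA k δ' → Vel w PP δ y g → Vel w PP δ' y g' →
    Vel w PP (fun x => δ (δ' x) - δ' (δ x)) y fun i => δ (g' i) - δ' (g i)

/-- The invariant vector fields are independent at each point. -/
def GKimm : Prop := ∀ (Ω : Type) [Field Ω] [Algebra ℂ Ω] (y : Fin M → Ω) g β, OnG w Θ y →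
  Ch w β y → (∀ x, vf (PP β) g (co β y) x = 0) → g = 0

/-- Logarithmic derivations have regular velocity. -/
def GKval : Prop := ∀ (Ω : Type) [Field Ω] [Algebra ℂ Ω] (y : Fin M → Ω) (δ : Derivation ℂ Ω Ω) g β
  (V : ValuationSubring Ω), OnG w Θ y → (∀ c, algebraMap ℂ Ω c ∈ V) → Ch w β y → Vel w PP δ y g →
  (∀ x, xc w β y x ∈ V) → (∀ x, δ (xc w β y x) ∈ V) → (∀ o, δ (eta β y o) / eta β y o ∈ V) →
  ∀ i, g i ∈ V

/-- An algebraic leaf has constant tangent space. -/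
def GKrig : Prop := ∀ (Ω : Type) [Field Ω] [Algebra ℂ Ω] (y : Fin M → Ω)
  (F : IntermediateField ℂ Ω) (s : ℕ) (μ : Fin s → Fin (t + a) → Ω) (δ : Fin s → Derivation ℂ Ω Ω),
  OnG w Θ y → (∀ l i, μ l i ∈ F) → LinearIndependent Ω μ → (∀ l, ∀ x ∈ F, δ l x = 0) →
  (∀ l, Vel w PP (δ l) y (μ l)) →
  (∀ x : Fin (s + 1) → Ω, (∀ i, x i ∈ rat y) → ¬ AlgebraicIndependent F x) →
  ∃ lam : Fin s → Pt t a, LinearIndependent ℂ lam ∧
    ∀ l, (fun i => algebraMap ℂ Ω (lam l i)) ∈ Submodule.span Ω (Set.range μ)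

/-- Subtraction over abstract fields. -/
structure GKsub : Prop where
  bi : ∀ (H : MvPolynomial (Fin M ⊕ Fin M) ℂ) (d e : ℕ), BiH H d e →
    (∀ p q, eval (Sum.elim (Θ p) (Θ q)) H = 0) → ∀ (A : Type) [CommRing A] [Algebra ℂ A]
    (y y' : Fin M → A), Eqs Θ y → Eqs Θ y' → aeval (Sum.elim y y') H = 0
  ex : ∀ (Ω : Type) [Field Ω] [Algebra ℂ Ω] (y y' : Fin M → Ω), OnG w Θ y → OnG w Θ y' →
    ∃ S d e, IsSub Θ S d e ∧ sb S y y' ≠ 0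
  on : ∀ (Ω : Type) [Field Ω] [Algebra ℂ Ω] (y y' : Fin M → Ω) S d e, OnG w Θ y → OnG w Θ y' →
    IsSub Θ S d e → sb S y y' ≠ 0 → OnG w Θ (sb S y y') ∧ ∀ (δ : Derivation ℂ Ω Ω) g g',
      Vel w PP δ y g → Vel w PP δ y' g' → Vel w PP δ (sb S y y') (g - g')

/-- All the facts over abstract fields. -/
structure GK : Prop where
  ev : Ev (GKk w Θ PP)
  imm : GKimm w Θ PP
  val : GKval w Θ PP
  rig : GKrig w Θ PP
  sub : GKsub w Θ PP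

end GK

/-- Descent to a countable differential field and transfer to `ℂ`. -/
def SDown : Prop := ∀ (t a M : ℕ) (w : Fin M → Option (Fin t)) (Θ : Pt t a → Fin M → ℂ)
  (k : Subfield ℂ) (Ω : Type) [Field Ω] [Algebra ℂ Ω] (ι κ : Type) [Countable ι] [Finite κ]
  (δ : ι → Derivation ℤ Ω Ω) (y : κ → Fin M → Ω) (T : Set Ω), Countable k → Clh w Θ k →
  (∀ i, KillA k (δ i)) → (∀ j, OnG w Θ (y j)) → T.Countable →
  ∃ (Ω₀ : Subfield Ω) (φ : Ω₀ →+* ℂ) (D : ι → Der) (p : κ → Pt t a), Countable Ω₀ ∧ T ⊆ Ω₀ ∧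
    (∀ c ∈ k, ∃ h, φ ⟨algebraMap ℂ Ω c, h⟩ = c) ∧ (∀ i, Kill k (D i)) ∧
    (∀ i (x : Ω₀), ∃ h, D i (φ x) = φ ⟨δ i x, h⟩) ∧
    ∀ j c b, ∃ h, φ ⟨y j c / y j b, h⟩ = Θ (p j) c / Θ (p j) b

def SGKk : Prop := ∀ (t a M : ℕ) (w : Fin M → Option (Fin t)) (Θ : Pt t a → Fin M → ℂ)
  (PP : PT M t a), Ev (GD w Θ PP) → Ev (GKk w Θ PP) ∧ GKimm w Θ PP

def SGKval : Prop := ∀ (t a M : ℕ) (w : Fin M → Option (Fin t)) (Θ : Pt t a → Fin M → ℂ)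
  (PP : PT M t a), Ev (GD w Θ PP) → GKval w Θ PP

def SGKrig : Prop := ∀ (t a M : ℕ) (w : Fin M → Option (Fin t)) (Θ : Pt t a → Fin M → ℂ)
  (PP : PT M t a), Ev (GD w Θ PP) → GKrig w Θ PP

def SGKsub : Prop := ∀ (t a M : ℕ) (w : Fin M → Option (Fin t)) (Θ : Pt t a → Fin M → ℂ)
  (PP : PT M t a), GA w Θ → Ev (GD w Θ PP) → GKsub w Θ PP

section Curves
variable {t a M n : ℕ} {L : Type} [Field L] [Algebra ℂ L]

/-- A vector field on a curve, regular and nonvanishing outside `S`. -/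
structure CD (D : Derivation ℂ L L) (S : Finset (Pl L)) (m : Pl L → ℤ) (χ : ℕ) : Prop where
  ff : FFd L
  par : ∃ s, D s = 1
  cst : ∀ x, D x = 0 → ∃ c, x = algebraMap ℂ L c
  ord : ∀ (P : Pl L) x, P.ord x ≠ 0 → D x ≠ 0 ∧ P.ord (D x) = P.ord x - m P
  reg : ∀ P : Pl L, ∀ x ∈ P.V, D x = 0 ∨ 1 - m P ≤ P.ord (D x)
  one : ∀ P ∉ S, m P = 1
  le : ∀ P, m P ≤ χ
  card : S.card ≤ χ

/-- `x` is the value at `P` of the point `y`. -/
def Red (P : Pl L) (y : Fin n → L) (x : PS n) : Prop :=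
  ∃ c : L, (∀ i, c * y i ∈ P.V) ∧
    ∃ h : (fun i => P.val (c * y i)) ≠ 0, x = Projectivization.mk ℂ _ h

/-- The value of `y` at `P` lies on `G`. -/
def RegG (w : Fin M → Option (Fin t)) (P : Pl L) (y : Fin M → L) : Prop :=
  ∃ β, Ch w β y ∧ ∀ x, co β y x ∈ P.V

/-- The points of a smooth curve are places of its function field. -/
structure Cv {r : ℕ} (C : Set (PS r)) (v : Fin r → L) (pl : C → Pl L) : Prop where
  ff : FFd L
  inj : Function.Injective pl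
  cof : (Set.range pl)ᶜ.Finite
  loc : ∀ c x, x ∈ (pl c).V ↔ x ∈ locRing v c
  mor : ∀ (N : ℕ) (f : C → PS N), H4.IsMor f ↔ ∃ y : Fin N → L, ∀ c, Red (pl c) y (f c)

/-- A smooth curve with generic point `v`. -/
structure Sm1 {r : ℕ} (C : Set (PS r)) (v : Fin r → L) : Prop where
  var : IsVar C
  gen : GenPt C v
  deg : Algebra.trdeg ℂ L = 1
  reg : ∀ x ∈ C, IsRegularLocalRing (locRing v x)

/-- A holomorphic family of places. -/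
def Arc (α : ℂ → Pl L) (O : Set ℂ) : Prop :=
  ∀ s₀ ∈ O, ∀ x ∈ (α s₀).V, (∀ᶠ s in 𝓝 s₀, x ∈ (α s).V) ∧
    AnalyticAt ℂ (fun s => (α s).val x) s₀

end Curves

def SCd : Prop := ∀ (L : Type) [Field L] [Algebra ℂ L], FFd L → ∀ (S₀ : Finset (Pl L)) (P₀ : Pl L),
  P₀ ∉ S₀ → ∃ (D : Derivation ℂ L L) (S : Finset (Pl L)) (m : Pl L → ℤ) (χ : ℕ),
    CD D S m χ ∧ S₀ ⊆ S ∧ P₀ ∉ S

def SCv1 : Prop := ∀ (r : ℕ) (C : Set (PS r)) (L : Type) [Field L] [Algebra ℂ L] (v : Fin r → L),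
  Sm1 C v → ∃ pl, Cv C v pl

def SCv2 : Prop := ∀ (L : Type) [Field L] [Algebra ℂ L], FFd L → ∀ (S : Finset (Pl L)) (P₀ : Pl L),
  P₀ ∉ S → ∃ (r : ℕ) (C : Set (PS r)) (v : Fin r → L), Sm1 C v ∧
    (∃ c ∈ C, ∀ x, x ∈ P₀.V ↔ x ∈ locRing v c) ∧
    ∀ P ∈ S, ∀ c ∈ C, ¬ ∀ x, x ∈ P.V ↔ x ∈ locRing v c

/-- Local parameters. -/
def SArcP : Prop := ∀ (L : Type) [Field L] [Algebra ℂ L], FFd L → ∀ P : Pl L,
  ∃ (α : ℂ → Pl L) (ε : ℝ), 0 < ε ∧ α 0 = P ∧ Arc α (ball 0 ε) ∧ Set.InjOn α (ball 0 ε) ∧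
    ∀ x : L, x ≠ 0 → meromorphicOrderAt (fun s => (α s).val x) 0 = (P.ord x : ℤ)

/-- The poles of the velocity. -/
def SVelF : Prop := ∀ (t a M : ℕ) (w : Fin M → Option (Fin t)) (Θ : Pt t a → Fin M → ℂ)
  (PP : PT M t a) (L : Type) [Field L] [Algebra ℂ L] (D : Derivation ℂ L L) (S : Finset (Pl L))
  (m : Pl L → ℤ) (χ : ℕ) (y : Fin M → L), GK w Θ PP → CD D S m χ → OnG w Θ y →
  ∃ g, Vel w PP D y g ∧ ∀ (P : Pl L) i, (g i = 0 ∨ -m P ≤ P.ord (g i)) ∧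
    (P ∉ S → RegG w P y → g i ∈ P.V)

/-- Degrees and numbers of preimages of hyperplanes. -/
def SHtBd : Prop := ∀ (r N : ℕ) (C : Set (PS r)) (L : Type) [Field L] [Algebra ℂ L] (v : Fin r → L)
  (pl : C → Pl L) (f : C → PS N) (y : Fin N → L), Cv C v pl → (∀ c, Red (pl c) y (f c)) →
  (∀ l : Fin N → ℂ, (∃ c, l ⬝ᵥ (f c).rep ≠ 0) → {c | l ⬝ᵥ (f c).rep = 0}.encard ≤ ht y) ∧
  (∀ d : ℕ, (∀ l : Fin N → ℂ, (∃ c, l ⬝ᵥ (f c).rep ≠ 0) → {c | l ⬝ᵥ (f c).rep = 0}.encard ≤ d) →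
    ht y ≤ N ^ 2 * d) ∧
  ∀ (R : PR N) (e : ℕ), R.IsHomogeneous e → (aeval y R ≠ 0 ↔ ∃ c, eval (f c).rep R ≠ 0)

/-- Comparison between points of `U` and their images in `G`. -/
structure RelK {M n : ℕ} {K : Type} [Field K] [Algebra ℂ K] (U : Set (PS n))
    (z : Fin n → K) (u : Fin M → K) : Prop where
  form : ∀ (F : PR M) (d : ℕ), F.IsHomogeneous d → aeval u F ≠ 0 → ∃ (R : PR n) (e : ℕ),
    R.IsHomogeneous e ∧ aeval z R ≠ 0 ∧ ∀ (Ω : Type) [Field Ω] [Algebra ℂ Ω] (z' : Fin n → Ω)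
      (u' : Fin M → Ω), Rel z u z' u' → u' ≠ 0 → aeval z' R ≠ 0 → aeval u' F ≠ 0
  uni : ∀ x ∈ U, ∀ y y' : Fin M → ℂ, Rel z u x.rep y → Rel z u x.rep y' → y' ≠ 0 →
    ∃ l : ℂ, y = l • y'
  cmp : ∃ (R : PR n) (e C : ℕ), R.IsHomogeneous e ∧ aeval z R ≠ 0 ∧
    ∀ (L : Type) [Field L] [Algebra ℂ L], FFd L → ∀ y : Fin M → L, y ≠ 0 →
      (∀ z' : Fin n → L, Rel z u z' y → aeval z' R ≠ 0 → ht z' ≤ C * ht y ∧ ht y ≤ C * ht z') ∧
      ∀ z' : ℕ → Fin n → L, (∀ j, Rel z u (z' j) y ∧ aeval (z' j) R ≠ 0) →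
        ∃ j j', j ≠ j' ∧ ∃ l : L, z' j = l • z' j'

def SRelK : Prop := ∀ (t a M n : ℕ) (w : Fin M → Option (Fin t)) (Θ : Pt t a → Fin M → ℂ)
  (K : Type) [Field K] [Algebra ℂ K] (U : Set (PS n)) (z : Fin n → K) (u : Fin M → K),
  Mp w Θ U z u → RelK U z u

/-- The image in `G` of a curve in `U`. -/
def SPull : Prop := ∀ (t a M n : ℕ) (w : Fin M → Option (Fin t)) (Θ : Pt t a → Fin M → ℂ)
  (K : Type) [Field K] [Algebra ℂ K] (U : Set (PS n)) (z : Fin n → K) (u : Fin M → K) (r : ℕ)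
  (C : Set (PS r)) (L : Type) [Field L] [Algebra ℂ L] (v : Fin r → L) (pl : C → Pl L)
  (f : C → PS n) (z' : Fin n → L), Mp w Θ U z u → Cv C v pl → Set.range f ⊆ U →
  (∀ c, Red (pl c) z' (f c)) → C.Nonempty → ∃ y : Fin M → L, OnG w Θ y ∧ Rel z u z' y ∧
    ∀ c, RegG w (pl c) y ∧ ∀ x, Red (pl c) y x → Rel z u (f c).rep x.rep

end Pool.Agent.MP_c69980_ag.H43
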