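import Pool.Agent.MP_c69980_ag.H43.Spec6

/-!
Divisorial valuations on a smooth model and the Iitaka foliation: statements.
-/

set_option autoImplicit false

namespace Pool.Agent.MP_c69980_ag.H43

open MvPolynomial H60 Finset

/-- The derivations dual to a system of parameters. -/
structure Dual {K : Type} [Field K] [Algebra ℂ K] (O : Subalgebra ℂ K) {k : ℕ} (s : Fin k → O)
    (d : Fin k → Derivation ℂ K K) : Prop where
  dual : ∀ i j, d i (s j) = if i = j then 1 else 0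
  pres : ∀ i, ∀ f ∈ O, d i f ∈ O
  span : ∀ (D : Derivation ℂ K K) f, D f = ∑ l, D (s l) * d l f
  res : ∀ f : O, ∃ c : ℂ, f - algebraMap ℂ O c ∈ Ideal.span (Set.range s)

def SDual : Prop := ∀ (n : ℕ) (W : Set (PS n)) (K : Type) [Field K] [Algebra ℂ K] (z : Fin n → K)
  (x : PS n) (k : ℕ) (s : Fin k → locRing z x), GenPt W z → x ∈ W → Algebra.trdeg ℂ K = k →
  (Ideal.span (Set.range s)).IsMaximal → ∃ d, Dual (locRing z x) s d

/-- Smooth points are normal. -/
def SNorm : Prop := ∀ (K : Type) [Field K] [Algebra ℂ K] (O : Subalgebra ℂ K) [IsNoetherianRing O]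
  [IsLocalRing O] (k : ℕ) (s : Fin k → O) (d : Fin k → Derivation ℂ K K), Dual O s d →
  Ideal.span (Set.range s) ≠ ⊤ → (∀ x : K, ∃ a ∈ O, ∃ b ∈ O, b ≠ 0 ∧ x * b = a) →
  ∀ x : K, IsIntegral O x → x ∈ O

section Noe
variable (F : Type) [Field F] {K : Type} [Field K] [Algebra F K] {r : ℕ}

/-- `V` lies over a prime divisor of the polynomial ring in `y`. -/
def Dv (y : Fin (r + 1) → K) (V : ValuationSubring K) : Prop :=
  (∀ P : MvPolynomial (Fin (r + 1)) F, aeval y P ∈ V) ∧ ∃ f : MvPolynomial (Fin (r + 1)) F,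
    Prime f ∧ ∀ P : MvPolynomial (Fin (r + 1)) F, V.valuation (aeval y P) < 1 ↔ f ∣ P

/-- The integral closure of the polynomial ring in `y`. -/
noncomputable abbrev IC (y : Fin (r + 1) → K) : Subalgebra (Algebra.adjoin F (Set.range y)) K :=
  integralClosure (Algebra.adjoin F (Set.range y)) K

/-- The divisorial valuations of a finite extension of a rational function field. -/
structure Noe (y : Fin (r + 1) → K) : Prop where
  ind : AlgebraicIndependent F y
  mod : Module.Finite (Algebra.adjoin F (Set.range y)) (IC F y)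
  dvr : ∀ V, Dv F y V → IsDiscreteValuationRing V
  fin : ∀ x, {V | Dv F y V ∧ x ∉ V}.Finite
  int : ∀ x, (∀ V, Dv F y V → x ∈ V) → x ∈ IC F y
  loc : ∀ V, Dv F y V → ∀ x ∈ V, ∃ a ∈ IC F y, ∃ b ∈ IC F y, V.valuation b = 1 ∧ x * b = a
  res : ∀ V, Dv F y V → ∃ i : Fin (r + 1), ∀ P : MvPolynomial (Fin r) F, P ≠ 0 →
    V.valuation (aeval (y ∘ i.succAbove) P) = 1
  cod : ∀ I : Set (IC F y), (∀ V, Dv F y V → ∃ x ∈ Ideal.span I, V.valuation (x : K) = 1) →
    ∀ (Ω : Type) [Field Ω] [Algebra F Ω] (ξ : IC F y →ₐ[F] Ω), (∀ x ∈ I, ξ x = 0) →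
      ∀ v : Fin r → IC F y, ¬ AlgebraicIndependent F (ξ ∘ v)

end Noe

def SNoe0 : Prop := ∀ (F K : Type) [Field F] [CharZero F] [Field K] [Algebra F K] (r : ℕ)
  (y : Fin (r + 1) → K), AlgebraicIndependent F y →
  FiniteDimensional (IntermediateField.adjoin F (Set.range y)) K → Noe F y

def SNoe : Prop := ∀ (F K : Type) [Field F] [CharZero F] [Field K] [Algebra F K] (ι : Type)
  [Finite ι] (x : ι → K) (r : ℕ), Algebra.IsAlgebraic (IntermediateField.adjoin F (Set.range x)) K →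
  (∃ T : Finset K, IntermediateField.adjoin F (T : Set K) = ⊤) → Algebra.trdeg F K = (r + 1 : ℕ) →
  ∃ y : Fin (r + 1) → K, (∀ i, y i ∈ Algebra.adjoin F (Set.range x)) ∧ (∀ i, x i ∈ IC F y) ∧ Noe F y

/-- Logarithmic vector fields along a prime divisor through a smooth point. -/
def SWv : Prop := ∀ (K : Type) [Field K] [Algebra ℂ K] (O : Subalgebra ℂ K) (k : ℕ) (s : Fin k → O)
  (d : Fin k → Derivation ℂ K K) (r : Finset (Fin k)) (V : ValuationSubring K), Dual O s d →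
  IsDiscreteValuationRing V → (∀ x ∈ O, x ∈ V) →
  (∀ x ∈ V, ∃ a ∈ O, ∃ b ∈ O, V.valuation b = 1 ∧ x * b = a) →
  (∀ l, ∀ x ∈ V, d l x ∈ V) ∧ ((∀ j ∈ r, V.valuation (s j : K) = 1) ∨
    ∀ l x, (if l ∈ r then (s l : K) else 1) * d l x / x ∈ V)

section Defs
variable {t a M n : ℕ} {K : Type} [Field K] [Algebra ℂ K]

/-- The prime divisors of the model along which the invariant logarithmic form does not vanish. -/
structure Gd (U : Set (PS n)) (z : Fin n → K) {m g : ℕ} (γ : Fin m → Fin g → K)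
    (E : Fin m → Derivation ℂ K K) (G : Set (ValuationSubring K)) : Prop where
  dvr : ∀ V ∈ G, IsDiscreteValuationRing V ∧ ∀ c, algebraMap ℂ K c ∈ V
  der : ∀ V ∈ G, ∀ j, ∀ x ∈ V, E j x ∈ V
  gam : ∀ V ∈ G, ∀ j i, γ j i ∈ V
  cen : ∀ V ∈ G, Cen U z V ∨ ∀ j x, E j x / x ∈ V
  fin : ∀ x, {V | V ∈ G ∧ x ∉ V}.Finite
  big : ∀ h : Fin m → K, (∀ i, ∀ V ∈ G, h i ∈ V) → AlgebraicIndependent ℂ h → LogGT U z

/-- An algebraic foliation by translates of a subgroup; `F` is its field of first integrals. -/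
structure BX (w : Fin M → Option (Fin t)) (Θ : Pt t a → Fin M → ℂ) (PP : PT M t a) (u : Fin M → K)
    (F : IntermediateField ℂ K) {s : ℕ} (lam : Fin s → Pt t a) (d : Fin s → Derivation ℂ K K)
    (f : Fin s → K) : Prop where
  on : OnG w Θ u
  hf : Algebra.IsAlgebraic (K0 u) K
  fg : ∃ T : Finset K, IntermediateField.adjoin ℂ (T : Set K) = ⊤
  ind : LinearIndependent ℂ lam
  vel : ∀ l, Vel w PP (d l) u fun i => algebraMap ℂ K (lam l i)
  cst : ∀ x, x ∈ F ↔ ∀ l, d l x = 0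
  com : ∀ l l' x, d l (d l' x) = d l' (d l x)
  mem : ∀ l, f l ∈ rat u
  tb : IsTranscendenceBasis F f
  det : (Matrix.of fun l l' => d l (f l')).det ≠ 0

/-- The `F`-algebra generated by a family. -/
noncomputable abbrev RF (F : IntermediateField ℂ K) {ι : Type} (x : ι → K) : Subalgebra F K :=
  Algebra.adjoin F (Set.range x)

/-- The centre of `V` in the chart `β` of the generic leaf is a divisor. -/
structure DvF (w : Fin M → Option (Fin t)) (u : Fin M → K) (F : IntermediateField ℂ K) {r : ℕ}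
    (β : Cht M t) (V : ValuationSubring K) (y : Fin r → CI M t) : Prop where
  ch : Ch w β u
  fV : ∀ x ∈ F, x ∈ V
  cV : ∀ x, co β u x ∈ V
  res : ∀ P : MvPolynomial (Fin r) F, P ≠ 0 → V.valuation (aeval (co β u ∘ y) P) = 1

/-- `δ` is tangent to the centre of `V`. -/
def TanV (F : IntermediateField ℂ K) {ι : Type} (x : ι → K) (V : ValuationSubring K) (δ : K → K) :
    Prop := ∀ h ∈ RF F x, V.valuation h < 1 → V.valuation (δ h) < 1

/-- The output of the algebraic part: a vector field tangent to all bad divisors. -/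
structure B0 (w : Fin M → Option (Fin t)) (Θ : Pt t a → Fin M → ℂ) (PP : PT M t a) (U : Set (PS n))
    (z : Fin n → K) (u : Fin M → K) (F : IntermediateField ℂ K) {r : ℕ} (lam : Fin (r + 1) → Pt t a)
    (d : Fin (r + 1) → Derivation ℂ K K) (f : Fin (r + 1) → K) (c : Fin (r + 1) → K) : Prop
    extends BX w Θ PP u F lam d f where
  cF : ∀ l, c l ∈ F
  c0 : c ≠ 0
  bad : ∀ β V (y : Fin r → CI M t), DvF w u F β V y →
    TanV F (co β u) V (fun h => ∑ l, c l * d l h) ∨ (Cen U z V ∧ ∀ l, ∀ x ∈ V, d l x ∈ V)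

/-- Good valuation rings that contain `F`. -/
structure HG (F : IntermediateField ℂ K) {s : ℕ} (d : Fin s → Derivation ℂ K K)
    (G : Set (ValuationSubring K)) : Prop where
  dvr : ∀ V ∈ G, IsDiscreteValuationRing V
  fV : ∀ V ∈ G, ∀ x ∈ F, x ∈ V
  der : ∀ V ∈ G, ∀ l, ∀ x ∈ V, d l x ∈ V
  fin : ∀ x, {V | V ∈ G ∧ x ∉ V}.Finite

/-- No vector field is tangent to all the divisors outside `G`. -/
def NoT (w : Fin M → Option (Fin t)) (u : Fin M → K) (F : IntermediateField ℂ K) {r : ℕ}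
    (d : Fin (r + 1) → Derivation ℂ K K) (G : Set (ValuationSubring K)) : Prop :=
  ∀ c : Fin (r + 1) → K, (∀ l, c l ∈ F) → (∀ β V (y : Fin r → CI M t), DvF w u F β V y → V ∉ G →
    TanV F (co β u) V fun h => ∑ l, c l * d l h) → c = 0

end Defs

def SW : Prop := ∀ (t a M n : ℕ) (w : Fin M → Option (Fin t)) (Θ : Pt t a → Fin M → ℂ)
  (PP : PT M t a) (K : Type) [Field K] [Algebra ℂ K] (U : Set (PS n)) (z : Fin n → K)
  (u : Fin M → K) (m : ℕ) (J : Fin m → Fin (t + a)) (γ : Fin m → Fin (t + a) → K)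
  (E : Fin m → Derivation ℂ K K), GK w Θ PP → Mp w Θ U z u → TK w PP u J γ E → Snc U z →
  ∃ G, Gd U z γ E G

/-- The Iitaka foliation. -/
def SIit : Prop := ∀ (t a M n : ℕ) (w : Fin M → Option (Fin t)) (Θ : Pt t a → Fin M → ℂ)
  (PP : PT M t a) (K : Type) [Field K] [Algebra ℂ K] (U : Set (PS n)) (z : Fin n → K)
  (u : Fin M → K) (m : ℕ) (J : Fin m → Fin (t + a)) (γ : Fin m → Fin (t + a) → K)
  (E : Fin m → Derivation ℂ K K) (G : Set (ValuationSubring K)), GK w Θ PP → Mp w Θ U z u →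
  TK w PP u J γ E → Gd U z γ E G → ¬ LogGT U z →
  ∃ (F : IntermediateField ℂ K) (r : ℕ) (lam : Fin (r + 1) → Pt t a)
    (d : Fin (r + 1) → Derivation ℂ K K) (f : Fin (r + 1) → K), BX w Θ PP u F lam d f ∧
    (∀ l x, d l x = ∑ j, lam l (J j) • E j x) ∧ (∀ h, (∀ V ∈ G, h ∈ V) → h ∈ F) ∧
    ∀ V ∈ G, (∀ x ∈ F, x ∈ V) ∨ ∃ h, h ≠ 0 ∧ (∀ V' ∈ G, h ∈ V') ∧ V.valuation h < 1

/-- The existence of a nonconstant function on the generic leaf. -/
def SBigC : Prop := ∀ (t a M : ℕ) (w : Fin M → Option (Fin t)) (Θ : Pt t a → Fin M → ℂ)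
  (PP : PT M t a) (K : Type) [Field K] [Algebra ℂ K] (u : Fin M → K) (F : IntermediateField ℂ K)
  (r : ℕ) (lam : Fin (r + 1) → Pt t a) (d : Fin (r + 1) → Derivation ℂ K K) (f : Fin (r + 1) → K)
  (G : Set (ValuationSubring K)), GA1 w Θ → GK w Θ PP → BX w Θ PP u F lam d f → HG F d G →
  NoT w u F d G → ∃ h, h ∉ F ∧ ∀ V ∈ G, h ∈ V

/-- The algebraic part. -/
def SB0 : Prop := ∀ (t a M n : ℕ) (w : Fin M → Option (Fin t)) (Θ : Pt t a → Fin M → ℂ)
  (PP : PT M t a) (K : Type) [Field K] [Algebra ℂ K] (U : Set (PS n)) (z : Fin n → K)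
  (u : Fin M → K), GA1 w Θ → Ev (GD w Θ PP) → GK w Θ PP → Mp w Θ U z u → Snc U z → ¬ LogGT U z →
  ∃ (F : IntermediateField ℂ K) (r : ℕ) (lam : Fin (r + 1) → Pt t a)
    (d : Fin (r + 1) → Derivation ℂ K K) (f c : Fin (r + 1) → K), B0 w Θ PP U z u F lam d f c

section Smul
variable {t a M : ℕ} {K : Type} [Field K] [Algebra ℂ K] {w : Fin M → Option (Fin t)}
  {Θ : Pt t a → Fin M → ℂ} {PP : PT M t a} {u : Fin M → K} {c : K}

lemma co_smul (hc : c ≠ 0) (β : Cht M t) : co β (c • u) = co β u :=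
  funext fun _ => mul_div_mul_left _ _ hc

lemma ch_smul (hc : c ≠ 0) (β : Cht M t) : Ch w β (c • u) ↔ Ch w β u := by
  simp [Ch, hc]

lemma rat_smul (hc : c ≠ 0) : rat (c • u) = rat u := by
  simp [rat, mul_div_mul_left _ _ hc]

lemma OnG.smul (h : OnG w Θ u) (hc : c ≠ 0) : OnG w Θ (c • u) :=
  ⟨fun o => let ⟨b, h1, h2⟩ := h.blk o; ⟨b, h1, mul_ne_zero hc h2⟩, fun F d h1 h2 => by
    rw [aeval_smul_hom h1, h.eqs F d h1 h2, mul_zero]⟩

lemma BX.smul {F : IntermediateField ℂ K} {s : ℕ} {lam : Fin s → Pt t a}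
    {d : Fin s → Derivation ℂ K K} {f : Fin s → K} (h : BX w Θ PP u F lam d f) (hc : c ≠ 0) :
    BX w Θ PP (c • u) F lam d f :=
  ⟨h.on.smul hc, by rw [K0, rat_smul hc]; exact h.hf, h.fg, h.ind, fun l β hβ x => by
    rw [co_smul hc]; exact h.vel l β ((ch_smul hc β).1 hβ) x, h.cst, h.com,
    by rw [rat_smul hc]; exact h.mem, h.tb, h.det⟩

end Smul

theorem sB0 (h1 : STank) (h2 : SW) (h3 : SIit) (h4 : SBigC) : SB0 := by
  intro t a M n w Θ PP K _ _ U z u g1 g2 gk h hS hG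
  obtain ⟨m, hm⟩ : ∃ m : ℕ, Algebra.trdeg ℂ K = m := by
    obtain ⟨_, _, _, _, m, -, -, hm, -⟩ := hS; exact ⟨m, hm⟩
  obtain ⟨J, γ, E, tk⟩ := h1 _ _ _ _ w Θ PP K U z u m g2 h hm
  obtain ⟨G, gd⟩ := h2 _ _ _ _ w Θ PP K U z u m J γ E gk h tk hS
  obtain ⟨F, r, lam, d, f, bx, e1, e2, e3⟩ := h3 _ _ _ _ w Θ PP K U z u m J γ E G gk h tk gd hG
  have dV : ∀ V ∈ G, ∀ l, ∀ x ∈ V, d l x ∈ V := fun V hV l x hx => by
    rw [e1]
    exact sum_mem fun j _ => by
      rw [Algebra.smul_def]; exact mul_mem ((gd.dvr V hV).2 _) (gd.der V hV j x hx)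
  have hg : HG F d {V | V ∈ G ∧ ∀ x ∈ F, x ∈ V} :=
    ⟨fun V hV => (gd.dvr V hV.1).1, fun V hV => hV.2, fun V hV => dV V hV.1,
      fun x => (gd.fin x).subset fun V hV => ⟨hV.1.1, hV.2⟩⟩
  have : ¬ NoT w u F d {V | V ∈ G ∧ ∀ x ∈ F, x ∈ V} := fun hN => by
    obtain ⟨x, x1, x2⟩ := h4 _ _ _ w Θ PP K u F r lam d f _ g1 gk bx hg hN
    have key : ∀ s : Finset (ValuationSubring K), (∀ V ∈ s, V ∈ G) → ∃ b, b ≠ 0 ∧
        (∀ V ∈ G, b ∈ V) ∧ ∀ V ∈ s, b * x ∈ V := fun s => by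
      classical
      induction s using Finset.induction_on with
      | empty => exact fun _ => ⟨1, one_ne_zero, fun V _ => one_mem V, by simp⟩
      | insert V s _ ih =>
        intro hs
        obtain ⟨b, b0, b1, b2⟩ := ih fun V' h' => hs V' (mem_insert_of_mem h')
        have hV := hs V (mem_insert_self _ _)
        obtain ⟨b', c0, c1, c2⟩ : ∃ b', b' ≠ 0 ∧ (∀ V ∈ G, b' ∈ V) ∧ b' * x ∈ V := by
          rcases e3 V hV with e | ⟨q, q0, q1, q2⟩
          · exact ⟨1, one_ne_zero, fun V _ => one_mem V, by simpa using x2 V ⟨hV, e⟩⟩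
          · have := (gd.dvr V hV).1
            obtain ⟨⟨p, p'⟩, hp⟩ := IsLocalization.surj (nonZeroDivisors V) x
            obtain ⟨N, hN⟩ : ∃ N : ℕ, p'.1 ∣ (⟨q, q1 V hV⟩ : V) ^ N := by
              obtain ⟨π, hπ⟩ := IsDiscreteValuationRing.exists_irreducible V
              obtain ⟨N, v, hv⟩ := IsDiscreteValuationRing.eq_unit_mul_pow_irreducible
                (nonZeroDivisors.ne_zero p'.2) hπ
              refine ⟨N, ?_⟩
              rw [hv, Units.mul_left_dvd]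
              refine pow_dvd_pow_of_dvd (Ideal.mem_span_singleton.1 ?_) N
              rw [← hπ.maximalIdeal_eq]
              exact (V.valuation_lt_one_iff _).2 q2
            obtain ⟨v, hv⟩ := hN
            refine ⟨q ^ N, pow_ne_zero _ q0, fun V' h' => pow_mem (q1 V' h') N, ?_⟩
            have e : q ^ N = (p'.1 : K) * v := congrArg Subtype.val hv
            rw [e, mul_right_comm, mul_comm (p'.1 : K) x]
            exact mul_mem (by
              rw [show x * (p'.1 : K) = p from hp]; exact p.2) v.2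
        refine ⟨b * b', mul_ne_zero b0 c0, fun V h => mul_mem (b1 V h) (c1 V h), fun V' h' => ?_⟩
        rcases mem_insert.1 h' with rfl | h''
        · rw [mul_assoc]; exact mul_mem (b1 _ hV) c2
        · rw [mul_right_comm]; exact mul_mem (b2 V' h'') (c1 V' (hs V' h'))
    obtain ⟨b, b0, b1, b2⟩ := key (gd.fin x).toFinset fun V hV => by simp at hV; exact hV.1
    refine x1 ?_
    rw [← mul_div_cancel_left₀ x b0]
    refine div_mem (e2 _ fun V hV => ?_) (e2 b b1)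
    by_cases hx : x ∈ V
    · exact mul_mem (b1 V hV) hx
    · exact b2 V (by simp [hV, hx])
  simp only [NoT, not_forall] at this
  obtain ⟨c, c1, c2, c3⟩ := this
  refine ⟨F, r, lam, d, f, c, bx, c1, c3, fun β V y hD => ?_⟩
  by_cases hV : V ∈ G
  · rcases gd.cen V hV with e | e
    · exact Or.inr ⟨e, dV V hV⟩
    · refine Or.inl fun x _ hx => ?_
      by_cases x0 : x = 0
      · simp [x0]
      have : ∑ l, c l * d l x = x * ∑ l, c l * ∑ j, algebraMap ℂ K (lam l (J j)) * (E j x / x) := by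
        simp only [e1, mul_sum, Algebra.smul_def]
        refine sum_congr rfl fun l _ => sum_congr rfl fun j _ => ?_
        field_simp
      simp only [this, map_mul]
      refine mul_lt_one_of_lt_of_le hx ((V.valuation_le_one_iff _).2 ?_)
      exact sum_mem fun l _ => mul_mem (hD.fV _ (c1 l))
        (sum_mem fun j _ => mul_mem ((gd.dvr V hV).2 _) (e j x))
  · exact Or.inl (c2 β V y hD fun e => hV e.1)

end Pool.Agent.MP_c69980_ag.H43
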