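import Pool.Agent.MP_c69980_ag.H43.Spec8

/-!
Construction of many sections by Taylor expansion: statements.
-/

set_option autoImplicit false

namespace Pool.Agent.MP_c69980_ag.H43

open H60 Finset

/-- Power series. -/
abbrev PW (ι K : Type) : Type := MvPowerSeries ι K

section Defs
variable {t a M : ℕ} {K : Type} [Field K] [Algebra ℂ K]

/-- Polynomials of degree at most `N` in a family. -/
noncomputable def Pol (F : Type) [Field F] {A : Type} [CommRing A] [Algebra F A] {ι : Type}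
    (g : ι → A) (N : ℕ) : Submodule F A :=
  (MvPolynomial.restrictTotalDegree ι F N).map
    (MvPolynomial.aeval g : MvPolynomial ι F →ₐ[F] A).toLinearMap

/-- The derivations raise the degree by at most `C`. -/
def Stab (F : IntermediateField ℂ K) {s N : ℕ} (d : Fin s → Derivation ℂ K K) (g : Fin N → K)
    (C : ℕ) : Prop := ∀ l n, ∀ x ∈ Pol F g n, d l x ∈ Pol F g (n + C)

/-- The poles of `h` at `V` are bounded by `j` times the hyperplane section. -/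
def Wt (u : Fin M → K) (j : ℕ) (V : ValuationSubring K) (h : K) : Prop :=
  ∀ c, (∀ c', V.valuation (u c') ≤ V.valuation (u c)) → h / u c ^ j ∈ V

/-- A ring homomorphism on `V`, extended by zero. -/
noncomputable def tot {Ω : Type} [Field Ω] {V : ValuationSubring K} (τ : V →+* Ω) (x : K) : Ω :=
  open Classical in if h : x ∈ V then τ ⟨x, h⟩ else 0

/-- The centre of `V` is a divisor with local equation `q`, transversal to `d l₀`. -/
structure DvT (w : Fin M → Option (Fin t)) (u : Fin M → K) (F : IntermediateField ℂ K) {r : ℕ}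
    (d : Fin (r + 1) → Derivation ℂ K K) (β : Cht M t) (V : ValuationSubring K)
    (y : Fin r → CI M t) (q : K) (l₀ : Fin (r + 1)) : Prop extends DvF w u F β V y where
  mem : q ∈ RF F (co β u)
  lt : V.valuation q < 1
  tr : V.valuation (d l₀ q) = 1

/-- The structure of such a valuation ring. -/
structure DvS (u : Fin M → K) (F : IntermediateField ℂ K) {r : ℕ}
    (d : Fin (r + 1) → Derivation ℂ K K) (β : Cht M t) (V : ValuationSubring K)
    (y : Fin r → CI M t) (q : K) (l₀ : Fin (r + 1)) : Prop where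
  dvr : IsDiscreteValuationRing V
  pres : ∀ l, ∀ h ∈ RF F (co β u), d l h ∈ RF F (co β u)
  grow : ∀ h, h ≠ 0 → V.valuation h ≠ 1 → V.valuation (d l₀ h) * V.valuation q = V.valuation h
  jet : ∃ η : Derivation ℂ K K, (∀ x ∈ F, η x = 0) ∧ (∀ h ∈ V, η h ∈ V) ∧
    ∃ π, V.valuation π < 1 ∧ V.valuation (η π) = 1
  alg : ∀ h ∈ V, ∃ P : MvPolynomial (Option (Fin r)) F, P ≠ 0 ∧
    V.valuation (MvPolynomial.aeval (fun o : Option (Fin r) => o.elim h (co β u ∘ y)) P) < 1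
  prop : ∀ h ∈ RF F (co β u), V.valuation h < 1 → ∀ l l',
    V.valuation (d l h * d l' q - d l' h * d l q) < 1

/-- Independent generic points of the leaf and of the divisors. -/
structure Ind2 (F : IntermediateField ℂ K) {r : ℕ} (f : Fin (r + 1) → K)
    (V : Fin (r + 1) → ValuationSubring K) (y : Fin (r + 1) → Fin r → K)
    (N : Fin (r + 1) → Fin (r + 1) → K) {Ω : Type} [Field Ω] [Algebra ℂ Ω] (τ₀ : K →ₐ[ℂ] Ω)
    (τ : ∀ j, V j →+* Ω) : Prop where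
  ker : ∀ j (x : V j), τ j x = 0 ↔ (V j).valuation (x : K) < 1
  cF : ∀ j, ∀ x ∈ F, tot (τ j) x = τ₀ x
  ind : AlgebraicIndependent (F.map τ₀)
    (Sum.elim (τ₀ ∘ f) fun q : Fin (r + 1) × Fin r => tot (τ q.1) (y q.1 q.2))
  det : (Matrix.of fun j l => tot (τ j) (N j l)).det ≠ 0

/-- The Taylor homomorphism of a family of commuting derivations. -/
structure Tay {ι : Type} (d : ι → Derivation ℂ K K) (T : K →+* PW ι K) : Prop where
  zero : ∀ x, MvPowerSeries.constantCoeff (T x) = x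
  der : ∀ i x, MvPowerSeries.pderiv K i (T x) = T (d i x)
  cst : ∀ x, (∀ i, d i x = 0) → T x = MvPowerSeries.C x
  com : ∀ E : K →ₗ[ℂ] K, (∀ i x, E (d i x) = d i (E x)) → ∀ x m,
    MvPowerSeries.coeff m (T (E x)) = E (MvPowerSeries.coeff m (T x))
  ind : ∀ W : ℕ → Submodule ℂ K, (∀ n i, ∀ x ∈ W n, d i x ∈ W (n + 1)) → ∀ n, ∀ x ∈ W n, ∀ m,
    MvPowerSeries.coeff m (T x) ∈ W (n + m.degree)

/-- The derivations of the copy number `j`. -/
noncomputable def dj {s s' : ℕ} (d : Fin s → Derivation ℂ K K) (j : Fin s') (q : Fin s' × Fin s) :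
    Derivation ℂ K K := if q.1 = j then d q.2 else 0

/-- `b` is the difference of `u` and its formal translate. -/
structure AddP (Θ : Pt t a → Fin M → ℂ) (u : Fin M → K) (F : IntermediateField ℂ K) {ι : Type}
    (T : K →+* PW ι K) (l : Fin M → ℂ) (b : Fin M → PW ι K) : Prop where
  cF : ∀ c m, MvPowerSeries.coeff m (b c) ∈ F
  zero : ∀ c, MvPowerSeries.constantCoeff (b c) = algebraMap ℂ K (Θ 0 c / l ⬝ᵥ Θ 0)
  eq : ∀ S d e, IsSub Θ S d e → ∀ c, sb S (MvPowerSeries.C ∘ u) (T ∘ u) c =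
    (∑ c', l c' • sb S (MvPowerSeries.C ∘ u) (T ∘ u) c') * b c
  ne : ∃ S d e, IsSub Θ S d e ∧ ∑ c', l c' • sb S (MvPowerSeries.C ∘ u) (T ∘ u) c' ≠ 0
  add : ∀ S d e, IsSub Θ S d e → ∃ σ, ∀ c, sb S (MvPowerSeries.C ∘ u) b c = σ * T (u c)

/-- A sequence of sections of bounded weight with poles of growing order at `V`. -/
structure Pole (u : Fin M → K) (F : IntermediateField ℂ K) {s : ℕ} (d : Fin s → Derivation ℂ K K)
    (G : Set (ValuationSubring K)) (V : ValuationSubring K) (j : ℕ) (H : ℕ → K) (T : Finset K) :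
    Prop where
  ne : ∀ n, H n ≠ 0
  mono : StrictMono fun n => V.valuation (H n)
  wt : ∀ n, ∀ V' ∈ G, Wt u j V' (H n)
  deg : ∀ (N : ℕ) (g : Fin N → K) (C : ℕ), Stab F d g C → ↑T ⊆ Set.range g →
    ∃ C', ∀ n, H n ∈ Pol F g (C' * (n + 1))

end Defs

def SDvS : Prop := ∀ (t a M : ℕ) (w : Fin M → Option (Fin t)) (Θ : Pt t a → Fin M → ℂ)
  (PP : PT M t a) (K : Type) [Field K] [Algebra ℂ K] (u : Fin M → K) (F : IntermediateField ℂ K)
  (r : ℕ) (lam : Fin (r + 1) → Pt t a) (d : Fin (r + 1) → Derivation ℂ K K) (f : Fin (r + 1) → K)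
  β V (y : Fin r → CI M t) q l₀, BX w Θ PP u F lam d f → DvT w u F d β V y q l₀ →
  DvS u F d β V y q l₀

def SSpan : Prop := ∀ (K : Type) [Field K] [Algebra ℂ K] (F : IntermediateField ℂ K) (r : ℕ)
  (f : Fin (r + 1) → K) (I : Type) (V : I → ValuationSubring K) (y : I → Fin r → K)
  (N : I → Fin (r + 1) → K), IsTranscendenceBasis F f → (∀ i, ∀ x ∈ F, x ∈ V i) →
  (∀ i j, y i j ∈ V i) → (∀ i l, N i l ∈ V i) →
  (∀ i (P : MvPolynomial (Fin r) F), P ≠ 0 → (V i).valuation (MvPolynomial.aeval (y i) P) = 1) →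
  (∀ i, ∀ h ∈ V i, ∃ P : MvPolynomial (Option (Fin r)) F, P ≠ 0 ∧
    (V i).valuation (MvPolynomial.aeval (fun o : Option (Fin r) => o.elim h (y i)) P) < 1) →
  (∀ c : Fin (r + 1) → K, (∀ l, c l ∈ F) → (∀ i, (V i).valuation (∑ l, c l * N i l) < 1) → c = 0) →
  ∃ (Ω : Type) (_ : Field Ω) (_ : Algebra ℂ Ω) (e : Fin (r + 1) → I) (τ₀ : K →ₐ[ℂ] Ω)
    (τ : ∀ j, V (e j) →+* Ω), Ind2 F f (V ∘ e) (y ∘ e) (N ∘ e) τ₀ τ

/-- The differences of independent points of the divisors and of the leaf are generic. -/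
def SDom : Prop := ∀ (t a M : ℕ) (w : Fin M → Option (Fin t)) (Θ : Pt t a → Fin M → ℂ)
  (PP : PT M t a) (K : Type) [Field K] [Algebra ℂ K] (u : Fin M → K) (F : IntermediateField ℂ K)
  (r : ℕ) (lam : Fin (r + 1) → Pt t a) (d : Fin (r + 1) → Derivation ℂ K K) (f : Fin (r + 1) → K)
  (β : Fin (r + 1) → Cht M t) (V : Fin (r + 1) → ValuationSubring K)
  (y : Fin (r + 1) → Fin r → CI M t) (q : Fin (r + 1) → K) (l₀ : Fin (r + 1) → Fin (r + 1))
  (Ω : Type) [Field Ω] [Algebra ℂ Ω] (τ₀ : K →ₐ[ℂ] Ω) (τ : ∀ j, V j →+* Ω), GK w Θ PP →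
  BX w Θ PP u F lam d f → (∀ j, DvT w u F d (β j) (V j) (y j) (q j) (l₀ j) ∧
    DvS u F d (β j) (V j) (y j) (q j) (l₀ j)) →
  Ind2 F f V (fun j => co (β j) u ∘ y j) (fun j l => d l (q j)) τ₀ τ →
  OnG w Θ (τ₀ ∘ u) ∧ (∀ j, OnG w Θ fun c => tot (τ j) (co (β j) u (c, none))) ∧
    ∀ (b : Fin (r + 1) → Fin M → Ω) (l : Fin (r + 1) → Fin M → ℂ),
      (∀ j, ∃ S d e, IsSub Θ S d e ∧
        b j = sb S (τ₀ ∘ u) fun c => tot (τ j) (co (β j) u (c, none))) →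
      (∀ j, ∑ c, l j c • b j c ≠ 0) →
      ∃ σ : Fin ((r + 1) * (r + 1)) → Fin (r + 1) × Fin M, AlgebraicIndependent (F.map τ₀)
        fun i => b (σ i).1 (σ i).2 / ∑ c, l (σ i).1 c • b (σ i).1 c

def STay : Prop := ∀ (K : Type) [Field K] [Algebra ℂ K] (ι : Type) [Fintype ι]
  (d : ι → Derivation ℂ K K), (∀ i j x, d i (d j x) = d j (d i x)) → ∃ T, Tay d T

/-- Formal arcs transversal to a divisor. -/
def SJet : Prop := ∀ (K : Type) [Field K] [Algebra ℂ K] (V : ValuationSubring K)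
  (η : Derivation ℂ K K) (π : K) (Ω : Type) [Field Ω] (τ : V →+* Ω) (n : ℕ),
  IsDiscreteValuationRing V → (∀ c, algebraMap ℂ K c ∈ V) → (∀ h ∈ V, η h ∈ V) →
  V.valuation π < 1 → V.valuation (η π) = 1 → (∀ x : V, τ x = 0 ↔ V.valuation (x : K) < 1) → 0 < n →
  ∃ T : V →+* PowerSeries Ω, (∀ x, PowerSeries.constantCoeff (T x) = τ x) ∧
    (∀ x : V, η x = 0 → T x = PowerSeries.C (τ x)) ∧
    ∀ x : V, x ≠ 0 → ∃ e : ℕ, V.valuation (x : K) = V.valuation π ^ e ∧ (T x).order = (n * e : ℕ)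

/-- The formal translates of `K` are linearly disjoint over the constants. -/
def STen : Prop := ∀ (K : Type) [Field K] [Algebra ℂ K] (F : IntermediateField ℂ K) (s s' : ℕ)
  (d : Fin s → Derivation ℂ K K) (T : Fin s' → K →+* PW (Fin s' × Fin s) K)
  (B : Option (Fin s') → Subring K) (hB : ∀ o, ∀ x ∈ F, x ∈ B o) (A : Type) [CommRing A]
  (τ : ∀ o, B o →+* A), (∀ x, x ∈ F ↔ ∀ l, d l x = 0) → (∀ l l' x, d l (d l' x) = d l' (d l x)) →
  (∀ j, Tay (dj d j) (T j)) → (∀ o x (h : x ∈ F), τ o ⟨x, hB o x h⟩ = τ none ⟨x, hB none x h⟩) →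
  ∃ (O : Subring (PW (Fin s' × Fin s) K)) (Φ : O →+* A), ∀ o (x : B o),
    ∃ h, Φ ⟨(o.elim MvPowerSeries.C T : K →+* _) x, h⟩ = τ o x

def SAddP : Prop := ∀ (t a M : ℕ) (w : Fin M → Option (Fin t)) (Θ : Pt t a → Fin M → ℂ)
  (PP : PT M t a) (K : Type) [Field K] [Algebra ℂ K] (u : Fin M → K) (F : IntermediateField ℂ K)
  (s : ℕ) (lam : Fin s → Pt t a) (d : Fin s → Derivation ℂ K K) (f : Fin s → K) (ι : Type)
  [Fintype ι] (d' : ι → Derivation ℂ K K) (T : K →+* PW ι K) (l : Fin M → ℂ), GK w Θ PP →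
  BX w Θ PP u F lam d f → (∀ i, d' i = 0 ∨ ∃ j, d' i = d j) → Tay d' T → l ⬝ᵥ Θ 0 ≠ 0 →
  ∃ b, AddP Θ u F T l b

/-- Twisted Taylor coefficients have bounded weight. -/
def STw : Prop := ∀ (t a M : ℕ) (Θ : Pt t a → Fin M → ℂ) (K : Type) [Field K] [Algebra ℂ K]
  (u : Fin M → K) (ι : Type) (d' : ι → Derivation ℂ K K) (T : K →+* PW ι K) (b : Fin M → PW ι K)
  (V : ValuationSubring K) S e e' (σ : PW ι K), u ≠ 0 → Tay d' T → (∀ c, algebraMap ℂ K c ∈ V) →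
  (∀ i, ∀ x ∈ V, d' i x ∈ V) → (∀ c m, MvPowerSeries.coeff m (b c) ∈ V) → IsSub Θ S e e' →
  (∀ c, sb S (MvPowerSeries.C ∘ u) b c = σ * T (u c)) →
  (∀ j h, Wt u j V h → ∀ m, Wt u (e * j) V (MvPowerSeries.coeff m (T h * σ ^ j))) ∧
  ∀ (j j' : ℕ) (x x' : PW ι K), (∀ m, Wt u j V (MvPowerSeries.coeff m x)) →
    (∀ m, Wt u j' V (MvPowerSeries.coeff m x')) →
    ∀ m, Wt u (j + j') V (MvPowerSeries.coeff m (x * x'))

/-- A section with a pole at `V` only. -/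
def SH0 : Prop := ∀ (t a M : ℕ) (w : Fin M → Option (Fin t)) (Θ : Pt t a → Fin M → ℂ)
  (PP : PT M t a) (K : Type) [Field K] [Algebra ℂ K] (u : Fin M → K) (F : IntermediateField ℂ K)
  (r : ℕ) (lam : Fin (r + 1) → Pt t a) (d : Fin (r + 1) → Derivation ℂ K K) (f : Fin (r + 1) → K)
  (G : Set (ValuationSubring K)) β V (y : Fin r → CI M t) q l₀, BX w Θ PP u F lam d f → HG F d G →
  DvT w u F d β V y q l₀ → IsDiscreteValuationRing V → V ∉ G →
  ∃ (j : ℕ) (h : K), 1 < V.valuation (h / u (β none) ^ j) ∧ ∀ V' ∈ G, Wt u j V' h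

def SPole : Prop := ∀ (t a M : ℕ) (w : Fin M → Option (Fin t)) (Θ : Pt t a → Fin M → ℂ)
  (PP : PT M t a) (K : Type) [Field K] [Algebra ℂ K] (u : Fin M → K) (F : IntermediateField ℂ K)
  (r : ℕ) (lam : Fin (r + 1) → Pt t a) (d : Fin (r + 1) → Derivation ℂ K K) (f : Fin (r + 1) → K)
  (G : Set (ValuationSubring K)) β V (y : Fin r → CI M t) q l₀, GA1 w Θ → GK w Θ PP →
  BX w Θ PP u F lam d f → HG F d G → DvT w u F d β V y q l₀ → DvS u F d β V y q l₀ → V ∉ G →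
  ∃ j H T, Pole u F d G V j H T

/-- Independence of the products of translated sections. -/
def SIndP : Prop := ∀ (t a M : ℕ) (w : Fin M → Option (Fin t)) (Θ : Pt t a → Fin M → ℂ)
  (PP : PT M t a) (K : Type) [Field K] [Algebra ℂ K] (u : Fin M → K) (F : IntermediateField ℂ K)
  (r : ℕ) (lam : Fin (r + 1) → Pt t a) (d : Fin (r + 1) → Derivation ℂ K K) (f : Fin (r + 1) → K)
  (β : Fin (r + 1) → Cht M t) (V : Fin (r + 1) → ValuationSubring K)
  (y : Fin (r + 1) → Fin r → CI M t) (q : Fin (r + 1) → K) (l₀ : Fin (r + 1) → Fin (r + 1))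
  (Ω : Type) [Field Ω] [Algebra ℂ Ω] (τ₀ : K →ₐ[ℂ] Ω) (τ : ∀ j, V j →+* Ω)
  (T : Fin (r + 1) → K →+* PW (Fin (r + 1) × Fin (r + 1)) K) (H : Fin (r + 1) → ℕ → K),
  GA1 w Θ → GK w Θ PP → BX w Θ PP u F lam d f →
  (∀ j, DvT w u F d (β j) (V j) (y j) (q j) (l₀ j) ∧ DvS u F d (β j) (V j) (y j) (q j) (l₀ j)) →
  Ind2 F f V (fun j => co (β j) u ∘ y j) (fun j l => d l (q j)) τ₀ τ → (∀ j, Tay (dj d j) (T j)) →
  (∀ j, (∀ n, H j n ≠ 0) ∧ StrictMono fun n => (V j).valuation (H j n)) →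
  ∃ (l : Fin (r + 1) → Fin M → ℂ) (b : Fin (r + 1) → Fin M → PW (Fin (r + 1) × Fin (r + 1)) K)
    (σ : Fin ((r + 1) * (r + 1)) → Fin (r + 1) × Fin M), (∀ j, AddP Θ u F (T j) (l j) (b j)) ∧
    LinearIndependent F fun p : (Fin ((r + 1) * (r + 1)) → ℕ) × (Fin (r + 1) → ℕ) =>
      (∏ i, b (σ i).1 (σ i).2 ^ p.1 i) * ∏ j, T j (H j (p.2 j))

/-- A linear zero estimate. -/
def SZero : Prop := ∀ (F A : Type) [Field F] [CommRing A] [IsDomain A] [Algebra F A] (ν : A → ℕ∞)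
  (ι κ : Type) [Fintype ι] [Fintype κ] (x : ι → A) (g : κ → A), (∀ p q, ν (p * q) = ν p + ν q) →
  ν 0 = ⊤ → (∀ P : MvPolynomial ι F, P ≠ 0 → ν (MvPolynomial.aeval x P) ≤ P.totalDegree) →
  (∀ i, IsAlgebraic (Algebra.adjoin F (Set.range x)) (g i)) →
  ∃ C : ℕ, ∀ n, ∀ p ∈ Pol F g n, p ≠ 0 → ν p ≤ (C * (n + 1) : ℕ)

/-- The order of a polynomial in the coordinates and their increments. -/
def SOrd : Prop := ∀ (K : Type) [Field K] [Algebra ℂ K] (F : IntermediateField ℂ K) (s s' : ℕ)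
  (d : Fin s → Derivation ℂ K K) (f : Fin s → K) (T : Fin s' → K →+* PW (Fin s' × Fin s) K),
  AlgebraicIndependent F f → (Matrix.of fun l l' => d l (f l')).det ≠ 0 → (∀ j, Tay (dj d j) (T j)) →
  ∀ P : MvPolynomial (Fin s ⊕ Fin s' × Fin s) F, P ≠ 0 →
    MvPowerSeries.order (MvPolynomial.aeval (Sum.elim (fun l => MvPowerSeries.C (f l))
      fun q : Fin s' × Fin s => T q.1 (f q.2) - MvPowerSeries.C (f q.2)) P :
        PW (Fin s' × Fin s) K) ≤ P.totalDegree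

/-- Counting coefficients. -/
def SCnt2 : Prop := ∀ (F K : Type) [Field F] [Field K] [Algebra F K] (ι κ : Type) [Fintype ι]
  [Fintype κ] (W : Submodule F K) (x : κ → PW ι K) (D : ℕ), Module.Finite F W →
  LinearIndependent F x → (∀ i m, m.degree ≤ D → MvPowerSeries.coeff m (x i) ∈ W) →
  (∀ p ∈ Submodule.span F (Set.range x), p ≠ 0 → MvPowerSeries.order p ≤ D) →
  Fintype.card κ ≤ (D + 1) ^ Fintype.card ι * Module.finrank F W

/-- Removing finitely many poles of bounded order costs little. -/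
def SKill : Prop := ∀ (F K : Type) [Field F] [Field K] [Algebra F K] (N r C₁ J : ℕ) (g : Fin N → K)
  (s : Finset (ValuationSubring K)) (π : ValuationSubring K → K),
  (∀ n, Module.finrank F (Pol F g n) ≤ C₁ * (n + 1) ^ (r + 1)) →
  (∀ V ∈ s, (∀ c, algebraMap F K c ∈ V) ∧ π V ∈ Set.range g ∧ π V ≠ 0 ∧ V.valuation (π V) < 1 ∧
    ∀ x, V.valuation x < 1 → V.valuation x ≤ V.valuation (π V)) →
  ∃ C : ℕ, ∀ (n : ℕ) (W : Submodule F K), W ≤ Pol F g n → (∀ V ∈ s, ∀ x ∈ W, π V ^ J * x ∈ V) →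
    ∃ W' ≤ W, (∀ V ∈ s, ∀ x ∈ W', x ∈ V) ∧ Module.finrank F W ≤ Module.finrank F W' + C * (n + 1) ^ r

/-- Stable finite families. -/
def SFil : Prop := ∀ (K : Type) [Field K] [Algebra ℂ K] (F : IntermediateField ℂ K) (s : ℕ)
  (d : Fin s → Derivation ℂ K K) (T : Finset K), (∀ l, ∀ x ∈ F, d l x = 0) →
  (∃ T' : Finset K, IntermediateField.adjoin ℂ (T' : Set K) = ⊤) →
  ∃ (N : ℕ) (g : Fin N → K) (C : ℕ), Stab F d g C ∧ ↑T ⊆ Set.range g

/-- Many sections of bounded weight. -/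
def SMany : Prop := ∀ (t a M : ℕ) (w : Fin M → Option (Fin t)) (Θ : Pt t a → Fin M → ℂ)
  (PP : PT M t a) (K : Type) [Field K] [Algebra ℂ K] (u : Fin M → K) (F : IntermediateField ℂ K)
  (r : ℕ) (lam : Fin (r + 1) → Pt t a) (d : Fin (r + 1) → Derivation ℂ K K) (f : Fin (r + 1) → K)
  (G : Set (ValuationSubring K)) (b₀ : Fin M), GA1 w Θ → GK w Θ PP → BX w Θ PP u F lam d f →
  HG F d G → NoT w u F d G → u b₀ = 1 → ∃ (j : ℕ) (T : Finset K), ∀ (N : ℕ) (g : Fin N → K) (C : ℕ),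
    Stab F d g C → ↑T ⊆ Set.range g → ∃ C' : ℕ, ∀ k : ℕ, ∃ W ≤ Pol F g (C' * (k + 1)),
      (∀ x ∈ W, ∀ V ∈ G, Wt u j V x) ∧ (k + 1) ^ (r + 1) ≤ C' * Module.finrank F W

end Pool.Agent.MP_c69980_ag.H43
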