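import Pool.Agent.MP_c69980_ag.H43.Defs

set_option autoImplicit false

namespace Pool.Agent.MP_c69980_ag.H43

open MvPolynomial H60 Finset

/-- The torus of rank `k` is an instance of `SemiAb`. -/
theorem semiAb_torus (k : ℕ) :
    SemiAb (a := 0) (finSuccEquiv k : Fin (k + 1) → Option (Fin k)) fun _ _ => 1 := by
  have e : ∀ s α c, Th (a := 0) (finSuccEquiv k : Fin (k + 1) → Option (Fin k)) (fun _ _ => 1) s α c
      = Complex.exp ((finSuccEquiv k c).elim 0 s) := fun s α c => by
    unfold Th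
    cases finSuccEquiv k c <;> simp
  have n1 : ‖(fun _ => 1 : Fin (k + 1) → ℂ)‖ = 1 := by simp
  refine ⟨differentiable_const _, ⟨1, 1, one_pos, fun α => ?_⟩, fun _ _ _ _ => Subsingleton.elim _ _,
    ⟨0, fun α => ⟨0, α, 1, ?_, by simp⟩⟩, fun y _ h => ?_, fun s α s' α' => ?_⟩
  · rw [n1, Subsingleton.elim α 0, norm_zero]
    exact ⟨by simp, by simp, fun o => ⟨(finSuccEquiv k).symm o, by simp, by simp⟩⟩
  · rw [Subsingleton.elim α 0, one_smul]
  · have h0 : ∀ c, y c ≠ 0 := fun c => by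
      obtain ⟨b, h1, h2⟩ := h (finSuccEquiv k c)
      rwa [(finSuccEquiv k).injective h1] at h2
    refine ⟨fun j => Complex.log (y j.succ / y 0), 0, y 0, funext fun c => ?_⟩
    rw [Pi.smul_apply, e]
    cases c using Fin.cases with
    | zero => simp
    | succ j => simp [Complex.exp_log (div_ne_zero (h0 _) (h0 0)), mul_div_cancel₀ _ (h0 0)]
  · refine ⟨fun c => X (.inl c) * ∏ b ∈ univ.erase c, X (.inr b), 1, k, fun c l l' x y => ?_,
      ⟨0, by simp [e, prod_eq_zero_iff]⟩, fun r β r' β' =>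
      ⟨∏ b, Complex.exp ((finSuccEquiv k b).elim 0 r'), fun c => ?_⟩⟩
    · simp [prod_mul_distrib, card_erase_of_mem]
      ring
    · simp only [map_mul, map_prod, eval_X, Sum.elim_inl, Sum.elim_inr, e]
      rw [← prod_erase_mul _ _ (mem_univ c), mul_assoc, ← Complex.exp_add, mul_comm]
      cases finSuccEquiv k c <;> simp

end Pool.Agent.MP_c69980_ag.H43
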